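import Pool.Agent.N446.M4.Mod
import Pool.Agent.N424.M4.Has

/-!
# The number of negative squares of a rational form which is everywhere locally isometric to a positive
definite form
-/

set_option autoImplicit false
set_option linter.unusedSectionVars false

namespace Pool.Agent.J4H48.M4

open Module

section

variable {P : Type} [AddCommGroup P] [Module ℚ P]

/-- A family of pairwise orthogonal vectors. -/
def Orth (q : LinearMap.BilinForm ℚ P) {n : ℕ} (v : Fin n → P) : Prop :=
  ∀ i j, i ≠ j → q (v i) (v j) = 0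

variable {q : LinearMap.BilinForm ℚ P}

theorem sumL {P : Type} [AddCommGroup P] [Module ℚ P] (q : LinearMap.BilinForm ℚ P) {ι : Type}
    [Fintype ι] (c : ι → ℚ) (v : ι → P) (w : P) :
    q (∑ i, c i • v i) w = ∑ i, c i * q (v i) w := by
  rw [map_sum, LinearMap.sum_apply]
  exact Finset.sum_congr rfl fun i _ => by rw [map_smul, LinearMap.smul_apply, smul_eq_mul]

theorem sumR {P : Type} [AddCommGroup P] [Module ℚ P] (q : LinearMap.BilinForm ℚ P) {ι : Type}
    [Fintype ι] (c : ι → ℚ) (v : ι → P) (w : P) :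
    q w (∑ i, c i • v i) = ∑ i, c i * q w (v i) := by
  rw [map_sum]
  exact Finset.sum_congr rfl fun i _ => by rw [map_smul, smul_eq_mul]

/-- A maximal orthogonal family spans the space modulo the radical. -/
theorem exists_max (hq : ∀ z w, q z w = q w z) {d : ℕ}
    (hfin : ∀ n (v : Fin n → P), Orth q v → (∀ i, q (v i) (v i) ≠ 0) → n ≤ d) :
    ∃ (n : ℕ) (e : Fin n → P), Orth q e ∧ (∀ i, q (e i) (e i) ≠ 0) ∧
      ∀ z w, q z w = ∑ i, q z (e i) / q (e i) (e i) * q (e i) w := by
  classical
  let S : Set ℕ := {n | ∃ v : Fin n → P, Orth q v ∧ ∀ i, q (v i) (v i) ≠ 0}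
  have hbdd : ∀ n ∈ S, n ≤ d := by
    rintro n ⟨v, h1, h2⟩
    exact hfin n v h1 h2
  have hne : S.Nonempty := ⟨0, fun i => i.elim0, fun i => i.elim0, fun i => i.elim0⟩
  obtain ⟨n, hn, hmax⟩ : ∃ n ∈ S, ∀ k ∈ S, k ≤ n := by
    have h1 : BddAbove S := ⟨d, hbdd⟩
    exact ⟨sSup S, Nat.sSup_mem hne h1, fun k hk => le_csSup h1 hk⟩
  obtain ⟨e, he, he0⟩ := hn
  refine ⟨n, e, he, he0, ?_⟩
  -- no further vector
  have hno : ∀ u, (∀ i, q u (e i) = 0) → q u u = 0 := by
    intro u hu
    by_contra h
    have h1 : n + 1 ∈ S := by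
      refine ⟨Fin.cons u e, fun i j => ?_, fun i => ?_⟩
      · refine Fin.cases ?_ (fun i => ?_) i <;> refine Fin.cases ?_ (fun j => ?_) j
        · intro h; exact absurd rfl h
        · intro _
          rw [Fin.cons_zero, Fin.cons_succ]
          exact hu j
        · intro _
          rw [Fin.cons_zero, Fin.cons_succ, hq]
          exact hu i
        · intro h
          rw [Fin.cons_succ, Fin.cons_succ]
          exact he i j fun h1 => h (by rw [h1])
      · refine Fin.cases ?_ (fun i => ?_) i
        · rw [Fin.cons_zero]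
          exact h
        · rw [Fin.cons_succ]
          exact he0 i
    have := hmax _ h1
    omega
  have hno2 : ∀ u w, (∀ i, q u (e i) = 0) → (∀ i, q w (e i) = 0) → q u w = 0 := by
    intro u w hu hw
    have h1 := hno (u + w) fun i => by
      rw [map_add, LinearMap.add_apply, hu, hw, add_zero]
    have h2 : q (u + w) (u + w) = q u u + q u w + (q w u + q w w) := by
      rw [map_add q, LinearMap.add_apply, map_add, map_add]
    rw [h2, hno u hu, hno w hw, hq w u] at h1
    linarith
  -- the projection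
  let pr : P → P := fun z => z - ∑ i, (q z (e i) / q (e i) (e i)) • e i
  have hpr : ∀ z i, q (pr z) (e i) = 0 := by
    intro z i
    change q (z - ∑ i, (q z (e i) / q (e i) (e i)) • e i) (e i) = 0
    rw [map_sub, LinearMap.sub_apply, sumL, Finset.sum_eq_single i]
    · rw [div_mul_cancel₀ _ (he0 i), sub_self]
    · intro j _ hj
      rw [he j i hj, mul_zero]
    · intro h
      exact absurd (Finset.mem_univ _) h
  intro z w
  have h1 : q (pr z) w = 0 := by
    have h2 : w = pr w + ∑ i, (q w (e i) / q (e i) (e i)) • e i := (sub_add_cancel _ _).symm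
    rw [h2, map_add, hno2 _ _ (hpr z) (hpr w), sumR, zero_add]
    refine Finset.sum_eq_zero fun i _ => ?_
    rw [hpr, mul_zero]
  have h3 : q (pr z) w = q z w - ∑ i, q z (e i) / q (e i) (e i) * q (e i) w := by
    change q (z - ∑ i, (q z (e i) / q (e i) (e i)) • e i) w = _
    rw [map_sub, LinearMap.sub_apply, sumL]
  rw [h3] at h1
  linarith

/-- The number of negative squares in any orthogonal family. -/
theorem neg_le {n : ℕ} {e : Fin n → P} (hq : ∀ z w, q z w = q w z)
    (hexp : ∀ z w, q z w = ∑ i, q z (e i) / q (e i) (e i) * q (e i) w) {m : ℕ} {v : Fin m → P}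
    (hv : Orth q v) (hneg : ∀ i, q (v i) (v i) < 0) :
    m ≤ Nat.card {i // q (e i) (e i) < 0} := by
  classical
  let f : (Fin m → ℚ) →ₗ[ℚ] ({i // q (e i) (e i) < 0} → ℚ) :=
    LinearMap.pi fun i => (q.flip (e i.1)).comp (Fintype.linearCombination ℚ v)
  have hf : ∀ c i, f c i = q (∑ k, c k • v k) (e i.1) := by
    intro c i
    change q (Fintype.linearCombination ℚ v c) (e i.1) = _
    rw [Fintype.linearCombination_apply]
  have hinj : Function.Injective f := by
    rw [injective_iff_map_eq_zero]
    intro c hc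
    set x := ∑ k, c k • v k with hx
    have h1 : 0 ≤ q x x := by
      rw [hexp x x]
      refine Finset.sum_nonneg fun i _ => ?_
      rw [hq (e i) x]
      by_cases h : q (e i) (e i) < 0
      · have h2 : q x (e i) = 0 := by
          have h3 := congrFun hc ⟨i, h⟩
          rw [hf] at h3
          exact h3
        rw [h2, mul_zero]
      · rw [div_mul_eq_mul_div]
        exact div_nonneg (mul_self_nonneg _) (not_lt.1 h)
    have h2 : q x x = ∑ k, c k * c k * q (v k) (v k) := by
      rw [hx, sumL]
      refine Finset.sum_congr rfl fun k _ => ?_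
      rw [sumR, Finset.sum_eq_single k]
      · rw [mul_assoc]
      · intro k' _ hk
        rw [hv k k' (Ne.symm hk), mul_zero]
      · intro h
        exact absurd (Finset.mem_univ _) h
    rw [h2] at h1
    have h3 : ∀ k ∈ (Finset.univ : Finset (Fin m)), c k * c k * q (v k) (v k) ≤ 0 := fun k _ =>
      mul_nonpos_of_nonneg_of_nonpos (mul_self_nonneg _) (hneg k).le
    have h4 : ∑ k, c k * c k * q (v k) (v k) = 0 := le_antisymm (Finset.sum_nonpos h3) h1
    have h5 := (Finset.sum_eq_zero_iff_of_nonpos h3).1 h4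
    funext k
    have h6 := h5 k (Finset.mem_univ k)
    rcases mul_eq_zero.1 h6 with h7 | h7
    · exact mul_self_eq_zero.1 h7
    · exact absurd h7 (hneg k).ne
  have h1 := LinearMap.finrank_le_finrank_of_injective hinj
  rw [Module.finrank_fintype_fun_eq_card, Module.finrank_fintype_fun_eq_card, Fintype.card_fin] at h1
  rw [Nat.card_eq_fintype_card]
  exact h1

/-- **The number of negative squares is divisible by four.** -/
theorem neg_index (hq : ∀ z w, q z w = q w z) (y : P →ₗ[ℚ] P) (hy : ∀ z w, q (y z) w = q z (y w))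
    (hpos : ∀ z, 0 ≤ q (y z) z) (hdef : ∀ z, q (y z) z = 0 → ∀ w, q z w = 0) {d : ℕ}
    (hfin : ∀ n (v : Fin n → P), Orth q v → (∀ i, q (v i) (v i) ≠ 0) → n ≤ d)
    (hloc : ∀ (l : ℕ) [Fact l.Prime], ∃ (K : ℕ) (x : Fin K → ℚ_[l]) (A : Fin K → P →ₗ[ℚ] P),
      ∀ z w, ∑ k, ∑ k', x k * x k' * ((q (y (A k z)) (A k' w) : ℚ) : ℚ_[l]) =
        ((q z w : ℚ) : ℚ_[l])) :
    ∃ n : ℕ, 4 ∣ n ∧ (∃ v : Fin n → P, Orth q v ∧ ∀ i, q (v i) (v i) < 0) ∧
      ∀ (n' : ℕ) (v : Fin n' → P), Orth q v → (∀ i, q (v i) (v i) < 0) → n' ≤ n := by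
  classical
  obtain ⟨n, e, he, he0, hexp⟩ := exists_max hq hfin
  refine ⟨Nat.card {i // q (e i) (e i) < 0}, ?_, ?_, fun n' v hv hneg => neg_le hq hexp hv hneg⟩
  · -- the positive definite form
    let B : LinearMap.BilinForm ℚ (Fin n → ℚ) :=
      LinearMap.compl₁₂ q (y.comp (Fintype.linearCombination ℚ e)) (Fintype.linearCombination ℚ e)
    have hB : ∀ c c', B c c' = q (y (∑ i, c i • e i)) (∑ i, c' i • e i) := by
      intro c c'
      change q (y (Fintype.linearCombination ℚ e c)) (Fintype.linearCombination ℚ e c') = _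
      rw [Fintype.linearCombination_apply, Fintype.linearCombination_apply]
    have hBs : LinearMap.IsSymm B := ⟨fun c c' => by
      rw [RingHom.id_apply, hB, hB, hy, hq]⟩
    obtain ⟨g0, hg0⟩ := LinearMap.BilinForm.exists_orthogonal_basis hBs
    have hfr : finrank ℚ (Fin n → ℚ) = n := by
      rw [Module.finrank_fintype_fun_eq_card, Fintype.card_fin]
    let g : Basis (Fin n) ℚ (Fin n → ℚ) := g0.reindex (finCongr hfr)
    have hg : ∀ i j, i ≠ j → B (g i) (g j) = 0 := by
      intro i j hij
      have h1 := hg0 (i := (finCongr hfr).symm i) (j := (finCongr hfr).symm j)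
        (fun h => hij ((finCongr hfr).symm.injective h))
      rw [Basis.reindex_apply, Basis.reindex_apply]
      exact h1
    have hBpos : ∀ c, c ≠ 0 → 0 < B c c := by
      intro c hc
      rw [hB]
      refine lt_of_le_of_ne (hpos _) fun h => hc ?_
      have h1 := hdef _ h.symm
      funext i
      have h2 := h1 (e i)
      rw [sumL, Finset.sum_eq_single i] at h2
      · exact (mul_eq_zero.1 h2).resolve_right (he0 i)
      · intro j _ hj
        rw [he j i hj, mul_zero]
      · intro h
        exact absurd (Finset.mem_univ _) h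
    let b : Fin n → ℚ := fun i => B (g i) (g i)
    have hb : ∀ i, 0 < b i := fun i => hBpos _ (g.ne_zero i)
    -- the matrix of the transition
    let R : Matrix (Fin n) (Fin n) ℚ := Matrix.of fun i m => g.repr (Pi.single i 1) m
    have hR : ∀ i j, q (y (e i)) (e j) = ∑ m, R i m * b m * R j m := by
      intro i j
      have h1 : q (y (e i)) (e j) = B (Pi.single i 1) (Pi.single j 1) := by
        rw [hB]
        have h2 : ∀ i : Fin n, ∑ k, (Pi.single i (1 : ℚ) : Fin n → ℚ) k • e k = e i := by
          intro i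
          rw [Finset.sum_eq_single i]
          · rw [Pi.single_eq_same, one_smul]
          · intro k _ hk
            rw [Pi.single_eq_of_ne hk, zero_smul]
          · intro h
            exact absurd (Finset.mem_univ _) h
        rw [h2, h2]
      rw [h1]
      have h2 : ∀ c c', B c c' = ∑ m, g.repr c m * b m * g.repr c' m := by
        intro c c'
        conv_lhs => rw [← g.sum_repr c, ← g.sum_repr c']
        rw [sumL]
        refine Finset.sum_congr rfl fun m _ => ?_
        rw [sumR, Finset.sum_eq_single m]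
        · change _ * (_ * b m) = _
          ring
        · intro m' _ hm
          rw [hg m m' (Ne.symm hm), mul_zero]
        · intro h
          exact absurd (Finset.mem_univ _) h
      rw [h2]
      rfl
    refine Pool.Agent.N446.M4.mod_ Pool.Agent.N424.M4.has_ Pool.Agent.N446.M4.sym_ n
      (fun i => q (e i) (e i)) b he0 hb fun l _ => ?_
    obtain ⟨K, x, A, hxA⟩ := hloc l
    let a : Fin K → Fin n → Fin n → ℚ := fun k i j => q (A k (e i)) (e j) / q (e j) (e j)
    -- expansions modulo the radical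
    have hA : ∀ k i w, q (A k (e i)) w = ∑ j, a k i j * q (e j) w := fun k i w => hexp _ _
    have hyA : ∀ k k' i i', q (y (A k (e i))) (A k' (e i')) =
        ∑ j, ∑ j', a k i j * a k' i' j' * q (y (e j)) (e j') := by
      intro k k' i i'
      rw [hy, hA]
      refine Finset.sum_congr rfl fun j _ => ?_
      rw [← hy, hq, hA, Finset.mul_sum]
      refine Finset.sum_congr rfl fun j' _ => ?_
      rw [hq (e j')]
      ring
    let M : Matrix (Fin n) (Fin n) ℚ_[l] := Matrix.of fun i j => ∑ k, x k * ((a k i j : ℚ) : ℚ_[l])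
    refine ⟨M * R.map (fun r => (r : ℚ_[l])), ?_⟩
    ext i i'
    have h1 := hxA (e i) (e i')
    have h2 : (Matrix.diagonal fun i => ((q (e i) (e i) : ℚ) : ℚ_[l])) i i' =
        ((q (e i) (e i') : ℚ) : ℚ_[l]) := by
      by_cases h : i = i'
      · subst h
        rw [Matrix.diagonal_apply_eq]
      · rw [Matrix.diagonal_apply_ne _ h, he i i' h, Rat.cast_zero]
    rw [h2, ← h1]
    -- the left hand side
    have h3 : ∀ i m, (M * R.map (fun r => (r : ℚ_[l]))) i m =
        ∑ k, ∑ j, x k * ((a k i j * R j m : ℚ) : ℚ_[l]) := by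
      intro i m
      rw [Matrix.mul_apply]
      change ∑ j, (∑ k, x k * ((a k i j : ℚ) : ℚ_[l])) * ((R j m : ℚ) : ℚ_[l]) = _
      rw [Finset.sum_comm]
      refine Finset.sum_congr rfl fun j _ => ?_
      rw [Finset.sum_mul]
      refine Finset.sum_congr rfl fun k _ => ?_
      rw [Rat.cast_mul]
      ring
    rw [Matrix.mul_apply]
    simp only [Matrix.mul_diagonal, Matrix.transpose_apply, h3]
    -- the right hand side
    have h4 : ∀ k k', ((q (y (A k (e i))) (A k' (e i')) : ℚ) : ℚ_[l]) =
        ∑ m, (∑ j, ((a k i j * R j m : ℚ) : ℚ_[l])) * (b m : ℚ_[l]) *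
          (∑ j, ((a k' i' j * R j m : ℚ) : ℚ_[l])) := by
      intro k k'
      rw [hyA]
      simp only [hR]
      push_cast
      simp only [Finset.sum_mul, Finset.mul_sum]
      have e1 : ∀ (f g : Fin n → Fin n → Fin n → ℚ_[l]), (∀ j j' m, f j j' m = g m j' j) →
          ∑ j, ∑ j', ∑ m, f j j' m = ∑ m, ∑ j', ∑ j, g m j' j := by
        intro f g hfg
        have e2 : ∀ j, ∑ j', ∑ m, f j j' m = ∑ m, ∑ j', f j j' m := fun j => Finset.sum_comm
        rw [Finset.sum_congr rfl fun j _ => e2 j, Finset.sum_comm]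
        refine Finset.sum_congr rfl fun m _ => ?_
        rw [Finset.sum_comm]
        exact Finset.sum_congr rfl fun j' _ => Finset.sum_congr rfl fun j _ => hfg j j' m
      exact e1 _ _ fun j j' m => by ring
    simp only [h4]
    have h5 : ∀ (F : Fin K → Fin n → ℚ_[l]) (F' : Fin K → Fin n → ℚ_[l]),
        ∑ m, (∑ k, x k * F k m) * (b m : ℚ_[l]) * (∑ k, x k * F' k m) =
          ∑ k, ∑ k', x k * x k' * ∑ m, F k m * (b m : ℚ_[l]) * F' k' m := by
      intro F F'
      simp only [Finset.sum_mul, Finset.mul_sum]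
      rw [Finset.sum_comm]
      have e2 : ∀ k', ∑ m, ∑ k, x k * F k m * (b m : ℚ_[l]) * (x k' * F' k' m) =
          ∑ k, ∑ m, x k * F k m * (b m : ℚ_[l]) * (x k' * F' k' m) := fun k' => Finset.sum_comm
      rw [Finset.sum_congr rfl fun k' _ => e2 k', Finset.sum_comm]
      exact Finset.sum_congr rfl fun k _ => Finset.sum_congr rfl fun k' _ =>
        Finset.sum_congr rfl fun m _ => by ring
    have h6 := h5 (fun k m => ∑ j, ((a k i j * R j m : ℚ) : ℚ_[l]))
      (fun k m => ∑ j, ((a k i' j * R j m : ℚ) : ℚ_[l]))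
    simp only [← Finset.mul_sum]
    exact h6
  · -- the negative vectors
    obtain ⟨f⟩ : Nonempty (Fin (Nat.card {i // q (e i) (e i) < 0}) ≃ {i // q (e i) (e i) < 0}) :=
      ⟨(Finite.equivFin _).symm⟩
    refine ⟨fun k => e (f k).1, fun i j hij => he _ _ fun h => hij (f.injective (Subtype.ext h)),
      fun k => (f k).2⟩

end

end Pool.Agent.J4H48.M4
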