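import Pool.Agent.N202.QR.Defs
import Pool.Agent.TH117.PO.Coef

/-!
# Rational subspaces of classes which are stable under the unitary elements
-/

set_option autoImplicit false

namespace Pool.Agent.J4H48.M4

open NumberField Pool.Agent.H204R3.CM Pool.Agent.W547.KB Pool.Agent.W547.LD Pool.Agent.W547.HR
  Pool.Agent.W495.TA Module Pool.Agent.TH117.PO
open scoped TensorProduct

variable {p : ℕ} [Fact p.Prime] {ν : PadicAlgCl p ≃+* ℂ}

/-- Rational subspaces of classes, stable under the unitary elements. -/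
structure IsSubU (Ω : Type) [Field Ω] [CharZero Ω] {Y : RedAV p ν} {κ : Type}
    (S : ((TM Ω Y) [⋀^κ]→ₗ[Ω] Ω) → Prop) : Prop where
  zero : S 0
  add : ∀ z w, S z → S w → S (z + w)
  smul : ∀ (a : ℚ) z, S z → S ((a : Ω) • z)
  pull : ∀ a : Y.X.H1, (∀ i, IsCMField.complexConj (Y.X.factor i).E (a i) * a i = 1) →
    ∀ z, S z → S (z.compLinearMap ((mulA a).baseChange Ω))

end Pool.Agent.J4H48.M4
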