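import Pool.Agent.J4H48.M4.Choice
import Pool.Agent.J4H48.M4.Neg
import Pool.Agent.TH117.PO.Deg2b
import Pool.Agent.J4H48.M4.Sub

/-!
# The number of negative squares of the form on the words
-/

set_option autoImplicit false
set_option linter.unusedSectionVars false
set_option linter.unusedVariables false

namespace Pool.Agent.J4H48.M4

open NumberField Pool.Agent.H204R3.CM Pool.Agent.W547.KB Pool.Agent.W547.LD Pool.Agent.W547.HR
  Pool.Agent.W495.TA Module Pool.Agent.TH117.PO Pool.Agent.W976.TA Pool.Agent.W417.TA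
  Pool.Agent.TH117.BL Pool.Agent.W495.TC Pool.Agent.W495.TB Pool.Agent.TH117.F5 Pool.Agent.N202.QR
open scoped TensorProduct

noncomputable section

variable {p : ℕ} [Fact p.Prime] {ν : PadicAlgCl p ≃+* ℂ}

variable {Ω : Nat.Primes → Type} [∀ l, Field (Ω l)] [∀ l, CharZero (Ω l)]
  [∀ l : Nat.Primes, Algebra ℚ_[(l : ℕ)] (Ω l)]
  {C : (Y : RedAV p ν) → (κ : Type) → FCl Ω Y κ → Prop}

/-- The families of classes with the member at `l0` in `S`. -/
def PS (C : (Y : RedAV p ν) → (κ : Type) → FCl Ω Y κ → Prop) (l0 : Nat.Primes) {Y : RedAV p ν}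
    {κ : Type} {S : ((TM (Ω l0) Y) [⋀^κ]→ₗ[Ω l0] Ω l0) → Prop} (hS : IsSubU (Ω l0) S) :
    Submodule ℚ (FCl Ω Y κ) where
  carrier := {z | z ∈ spC C Y κ ∧ S (z l0)}
  zero_mem' := ⟨Submodule.zero_mem _, hS.zero⟩
  add_mem' := fun {z w} hz hw => ⟨Submodule.add_mem _ hz.1 hw.1, hS.add _ _ hz.2 hw.2⟩
  smul_mem' := fun a z hz => ⟨Submodule.smul_mem _ _ hz.1, by
    rw [rat_smul_eq]
    exact hS.smul _ _ hz.2⟩

theorem sp_at (hC : IsCompatible Ω C) (l : Nat.Primes) {Y : RedAV p ν} {κ : Type}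
    {z : FCl Ω Y κ} (hz : z ∈ spC C Y κ) : atPrime C l Y κ (z l) := by
  have hC0 := hC.cycle l
  unfold spC at hz
  induction hz using Submodule.span_induction with
  | mem z hz => exact ⟨z, hz, rfl⟩
  | zero => exact hC0.zero Y κ
  | add z w _ _ h1 h2 => exact hC0.add _ _ h1 h2
  | smul a z _ h1 =>
    rw [rat_smul_eq]
    exact hC0.smul _ _ h1

variable {L : Type} [Field L] [NumberField L] [IsCMField L] [IsGalois ℚ L] {j : L →+* ℂ}
  (hC : IsCompatible Ω C) (l0 : Nat.Primes)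
  (jO : ∀ l, L →+* Ω l) {Y : RedAV p ν} (hY : Big Y.X j)
  (e : ∀ l, Basis (Wt Y.X L) (Ω l) (TM (Ω l) Y)) (h1 : ∀ l w, co (jO l) w (e l w) = 1)
  (h0 : ∀ l w w', w ≠ w' → co (jO l) w (e l w') = 0)
  {κ : Type} [Fintype κ] [DecidableEq κ] {S : ((TM (Ω l0) Y) [⋀^κ]→ₗ[Ω l0] Ω l0) → Prop}
  (hS : IsSubU (Ω l0) S) (α : Y.X.H1)

section

variable [Fintype (Wt Y.X L)]

include hC hY h1 h0 in
/-- The rational form. -/
theorem exists_q : ∃ q : LinearMap.BilinForm ℚ (PS C l0 hS), ∀ z w l,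
    BO jO e α l (z.1 l) (w.1 l) = ((q z w : ℚ) : Ω l) := by
  choose f hf using fun z w : PS C l0 hS => BO_rat hC jO hY e h1 h0 α z.2.1 w.2.1
  have hinj : ∀ a b : ℚ, (a : Ω l0) = (b : Ω l0) → a = b := fun a b h => by exact_mod_cast h
  refine ⟨LinearMap.mk₂ ℚ f (fun z z' w => hinj _ _ ?_) (fun a z w => hinj _ _ ?_)
    (fun z w w' => hinj _ _ ?_) (fun a z w => hinj _ _ ?_), fun z w l => hf z w l⟩
  · rw [← hf, Rat.cast_add, ← hf, ← hf]
    exact BO_add_left jO e α l0 _ _ _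
  · rw [← hf, smul_eq_mul, Rat.cast_mul, ← hf]
    have h2 : (a • z).1 l0 = (a : Ω l0) • z.1 l0 := rat_smul_eq a z.1 l0
    rw [h2]
    exact BO_smul_left jO e α l0 _ _ _
  · rw [← hf, Rat.cast_add, ← hf, ← hf]
    exact BO_add_right jO e α l0 _ _ _
  · rw [← hf, smul_eq_mul, Rat.cast_mul, ← hf]
    have h2 : (a • w).1 l0 = (a : Ω l0) • w.1 l0 := rat_smul_eq a w.1 l0
    rw [h2]
    exact BO_smul_right jO e α l0 _ _ _

end

include hC h1 h0 in
/-- The pull-backs. -/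
theorem exists_pull : ∃ A : UU Y.X → PS C l0 hS →ₗ[ℚ] PS C l0 hS, ∀ a z l (s : κ → Wt Y.X L),
    ((A a z).1 l fun k => e l (s k)) = jO l (chu s a) * (z.1 l fun k => e l (s k)) := by
  let B : UU Y.X → FCl Ω Y κ →ₗ[ℚ] FCl Ω Y κ := fun a =>
    { toFun := fun z l => (z l).compLinearMap ((mulA a.1).baseChange (Ω l))
      map_add' := fun z w => by
        funext l
        ext v
        rfl
      map_smul' := fun c z => by
        funext l
        ext v
        rfl }
  have hB : ∀ a z, z ∈ spC C Y κ → B a z ∈ spC C Y κ := by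
    intro a z hz
    have h2 : spC C Y κ ≤ (spC C Y κ).comap (B a) := by
      unfold spC
      refine Submodule.span_le.2 ?_
      intro z hz
      exact Submodule.subset_span (hC.pull (mulA a.1) (isHom_mulA a.1) z hz)
    exact h2 hz
  have hBP : ∀ a, ∀ z ∈ PS C l0 hS, B a z ∈ PS C l0 hS := fun a z hz =>
    ⟨hB a z hz.1, hS.pull a.1 a.2 _ hz.2⟩
  refine ⟨fun a => (B a).restrict (hBP a), fun a z l s => ?_⟩
  change z.1 l (fun k => (mulA a.1).baseChange (Ω l) (e l (s k))) = _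
  have h2 : (fun k => (mulA a.1).baseChange (Ω l) (e l (s k))) =
      fun k => jO l (ev a.1 (s k)) • e l (s k) := funext fun k =>
    mulA_e (e l) (h1 l) (h0 l) a.1 (s k)
  rw [h2]
  have h3 := (z.1 l).toMultilinearMap.map_smul_univ (fun k => jO l (ev a.1 (s k)))
    fun k => e l (s k)
  rw [chu_apply, map_prod]
  exact h3

variable [∀ l, IsAlgClosed (Ω l)]

include hC hY h1 h0 in
/-- **The negative index of the form on the words is divisible by four.** -/
theorem index_words (hR : IsRosatiPositive (Ω l0) (atPrime C l0)) [Fintype (Wt Y.X L)]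
    (hα : IsPolar Y.X α)
    (heven : Even (Fintype.card κ))
    (hbal : ∀ z, atPrime C l0 Y κ z → ∀ s : κ → Wt Y.X L, (z fun k => e l0 (s k)) ≠ 0 →
      ∀ g, ∑ k, tf p ν j (St j (s k)) g = 0)
    {q : LinearMap.BilinForm ℚ (PS C l0 hS)} (hq : ∀ z w l,
      BO jO e α l (z.1 l) (w.1 l) = ((q z w : ℚ) : Ω l)) :
    (∃ n : ℕ, 4 ∣ n ∧ (∃ v : Fin n → PS C l0 hS, Orth q v ∧ ∀ i, q (v i) (v i) < 0) ∧
      ∀ (n' : ℕ) (v : Fin n' → PS C l0 hS), Orth q v → (∀ i, q (v i) (v i) < 0) → n' ≤ n) ∧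
    ∀ z : PS C l0 hS, (∀ w, q z w = 0) → ∀ s : κ → Wt Y.X L,
      (z.1 l0 fun k => e l0 (s k)) * (z.1 l0 fun k => e l0 (bar (s k))) = 0 := by
  classical
  have hC0 := hC.cycle l0
  obtain ⟨A, hA⟩ := exists_pull hC l0 jO e h1 h0 hS
  have hqs : ∀ z w, q z w = q w z := by
    intro z w
    have h2 : ((q z w : ℚ) : Ω l0) = ((q w z : ℚ) : Ω l0) := by
      rw [← hq, ← hq]
      exact BO_symm jO e α j hα heven l0 _ _
    exact_mod_cast h2
  -- the words with nonvanishing coefficients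
  let Oc : (κ → Wt Y.X L) → Prop := fun s => ∃ z : PS C l0 hS,
    (z.1 l0 fun k => e l0 (s k)) * (z.1 l0 fun k => e l0 (bar (s k))) ≠ 0
  have hOinj : ∀ s, Oc s → Function.Injective s := by
    rintro s ⟨z, hz⟩ k k' hk
    by_contra hne
    refine left_ne_zero_of_mul hz ((z.1 l0).map_eq_zero_of_eq _ ?_ hne)
    rw [hk]
  have hOsw : ∀ (σ : L ≃ₐ[ℚ] L) s, Oc s → Oc fun k => sw σ (s k) := by
    rintro σ s ⟨z, hz⟩
    obtain ⟨μ, hμ⟩ := muF hC jO hY e h1 h0 z.2.1 z.2.1 s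
    refine ⟨z, ?_⟩
    have h2 := hμ l0 σ
    have h3 := hμ l0 1
    simp only [sw_one] at h3
    rw [h2]
    rw [h3] at hz
    refine (map_ne_zero _).2 ((map_ne_zero σ).2 ?_)
    exact (map_ne_zero ((1 : L ≃ₐ[ℚ] L))).1 ((map_ne_zero _).1 hz)
  have hOl : ∀ (z w : PS C l0 hS) l s, (z.1 l fun k => e l (s k)) *
      (w.1 l fun k => e l (bar (s k))) ≠ 0 → Oc s := by
    intro z w l s h
    obtain ⟨μ, hμ⟩ := muF hC jO hY e h1 h0 z.2.1 w.2.1 s
    have h2 := hμ l 1
    have h3 := hμ l0 1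
    simp only [sw_one] at h2 h3
    refine ⟨z, fun h4 => ?_⟩
    have h5 := coef_zero hC jO hY e h1 h0 z.2.1 w.2.1 s l0 h4
    rw [h3, map_eq_zero (jO l0)] at h5
    rw [h2, h5, map_zero] at h
    exact h rfl
  -- the set of characters
  let Sc : Finset (UU Y.X →* L) := Finset.univ.image fun s : κ → Wt Y.X L => chu s
  have hSc : ∀ s : κ → Wt Y.X L, chu s ∈ Sc := fun s =>
    Finset.mem_image_of_mem _ (Finset.mem_univ s)
  have hScσ : ∀ σ : L ≃ₐ[ℚ] L, ∀ χ ∈ Sc, act σ χ ∈ Sc := by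
    intro σ χ hχ
    obtain ⟨s, -, rfl⟩ := Finset.mem_image.1 hχ
    rw [← chu_sw]
    exact hSc _
  -- the data
  let Sg : (UU Y.X →* L) → L → Prop := fun χ y => ∀ s' : κ → Wt Y.X L, Function.Injective s' →
    chu s' = χ → ∀ d d' : Ω l0, Ln (jO l0) (atPrime C l0) Y s' d d' → d * d' ≠ 0 →
      ∀ μ : L, d * d' = jO l0 μ →
        PosC (j μ * (∏ k, Pool.Agent.TH117.PO.sgn j (s' k)) * j y)
  obtain ⟨yf, Xf, hyσ, hXS, hXX, hSg⟩ := exists_global jO l0
    (fun χ => ∃ s, Oc s ∧ chu s = χ) Sg (by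
      rintro χ ⟨s, ⟨z, hz⟩, rfl⟩
      have hs := hOinj s ⟨z, hz⟩
      have hat := sp_at hC l0 z.2.1
      obtain ⟨y, F, g1, g2, g3, g4⟩ := exists_data hC l0 hR jO hY hs
        (hbal _ hat s (left_ne_zero_of_mul hz)) heven
        (Ln_coef hC0 j hY (e l0) (h1 l0) (h0 l0) hat hs) hz
      exact ⟨y, F, g1, g2, g3, fun σ s' hs' hχ d d' hL hdd μ hμ =>
        g4 σ s' hs' hχ d d' hL hdd μ hμ⟩) (by
      rintro σ χ ⟨s, hs, rfl⟩
      exact ⟨_, hOsw σ s hs, chu_sw σ s⟩)
  -- the operator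
  obtain ⟨cy, hcy⟩ := lag_rat Sc hScσ (f := yf) (fun σ χ _ => hyσ σ χ)
  let y : PS C l0 hS →ₗ[ℚ] PS C l0 hS := ∑ a ∈ cy.support, cy a • A a
  have hy : ∀ z l s, ((y z).1 l fun k => e l (s k)) =
      jO l (yf (chu s)) * (z.1 l fun k => e l (s k)) := by
    intro z l s
    have e1 : (y z).1 = ∑ a ∈ cy.support, cy a • (A a z).1 := by
      change ((∑ a ∈ cy.support, cy a • A a) z).1 = _
      rw [LinearMap.sum_apply, Submodule.coe_sum]
      rfl
    have e2 : ((y z).1 l fun k => e l (s k)) = ∑ a ∈ cy.support,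
        (cy a : Ω l) * ((A a z).1 l fun k => e l (s k)) := by
      rw [e1, Finset.sum_apply, Pool.Agent.W351.TA.sum_alt]
      exact Finset.sum_congr rfl fun a _ => rat_smul_apply _ _ _ _
    rw [e2, hcy _ (hSc s), Finsupp.sum, map_sum, Finset.sum_mul]
    refine Finset.sum_congr rfl fun a _ => ?_
    rw [hA, map_mul, map_ratCast]
    ring
  -- conjugate words
  have hchub : ∀ s : κ → Wt Y.X L, chu (fun k => bar (s k)) = act (cc L) (chu s) := fun s =>
    chu_sw (cc L) s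
  -- terms of the form
  have hOreal : ∀ s, Oc s → yf (chu fun k => bar (s k)) = yf (chu s) := by
    intro s hs
    rw [hchub]
    have g1 := hXX _ ⟨s, hs, rfl⟩ l0
    have g2 := hXX (act (cc L) (chu s)) ⟨_, hOsw (cc L) s hs, chu_sw (cc L) s⟩ l0
    have g3 : act (cc L) (act (cc L) (chu s)) = chu s := by rw [← act_mul, cc_cc, act_one]
    rw [g3] at g2
    have g4 : Xf l0 (chu s) * Xf l0 (act (cc L) (chu s)) ≠ 0 := left_ne_zero_of_mul (by
      rw [g1]; exact one_ne_zero)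
    have g5 : Xf l0 (chu s) * Xf l0 (act (cc L) (chu s)) * jO l0 (yf (act (cc L) (chu s))) = 1 := by
      rw [← g2]
      ring
    exact (jO l0).injective (mul_left_cancel₀ g4 (g5.trans g1.symm))
  have hterm : ∀ (z w : PS C l0 hS) l s, (yf (chu fun k => bar (s k)) = yf (chu s)) ∨
      (z.1 l fun k => e l (s k)) * (w.1 l fun k => e l (bar (s k))) = 0 := by
    intro z w l s
    by_cases h : (z.1 l fun k => e l (s k)) * (w.1 l fun k => e l (bar (s k))) = 0
    · exact Or.inr h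
    · exact Or.inl (hOreal s (hOl z w l s h))
  have hysym : ∀ z w, q (y z) w = q z (y w) := by
    intro z w
    have h2 : ((q (y z) w : ℚ) : Ω l0) = ((q z (y w) : ℚ) : Ω l0) := by
      rw [← hq, ← hq]
      unfold BO
      refine Finset.sum_congr rfl fun s _ => ?_
      rw [hy, hy]
      rcases hterm z w l0 s with h | h
      · rw [h]
        ring
      · have e1 : ∀ a : Ω l0, a * (z.1 l0 fun k => e l0 (s k)) *
            (w.1 l0 fun k => e l0 (bar (s k))) = 0 := fun a => by rw [mul_assoc, h, mul_zero]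
        have e2 : ∀ a : Ω l0, (z.1 l0 fun k => e l0 (s k)) *
            (a * (w.1 l0 fun k => e l0 (bar (s k)))) = 0 := fun a => by
          rw [mul_left_comm, h, mul_zero]
        rw [e1, e2]
    exact_mod_cast h2
  -- positivity
  have hkey : ∀ z : PS C l0 hS, ∀ s : κ → Wt Y.X L, ∃ t : ℝ, 0 ≤ t ∧ ∃ γ : L, j γ = t ∧
      ((y z).1 l0 fun k => e l0 (s k)) * (z.1 l0 fun k => e l0 (bar (s k))) *
        (jO l0 (∏ k, ev α (s k)))⁻¹ = jO l0 γ ∧
      ((z.1 l0 fun k => e l0 (s k)) * (z.1 l0 fun k => e l0 (bar (s k))) ≠ 0 → 0 < t) := by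
    intro z s
    by_cases hzs : (z.1 l0 fun k => e l0 (s k)) * (z.1 l0 fun k => e l0 (bar (s k))) = 0
    · refine ⟨0, le_rfl, 0, by simp, ?_, fun h => absurd hzs h⟩
      rw [hy, mul_assoc (jO l0 (yf (chu s))), hzs, mul_zero, zero_mul, map_zero]
    · obtain ⟨μ, hμ⟩ := muF hC jO hY e h1 h0 z.2.1 z.2.1 s
      have h3 := hμ l0 1
      simp only [sw_one] at h3
      have h4 : (1 : L ≃ₐ[ℚ] L) μ = μ := rfl
      rw [h4] at h3
      have hs : Function.Injective s := hOinj s ⟨z, hzs⟩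
      have h5 := hSg (chu s) ⟨s, ⟨z, hzs⟩, rfl⟩ s hs rfl _ _
        (Ln_coef hC0 j hY (e l0) (h1 l0) (h0 l0) (sp_at hC l0 z.2.1) hs) hzs μ h3
      have h6 : PosC (∏ k, (j (ev α (bar (s k))) * Pool.Agent.TH117.PO.sgn j (s k))) :=
        PosC.prod _ _ fun k _ => polar_sign j hα (s k)
      rw [Finset.prod_mul_distrib] at h6
      have h7 : ∏ k, j (ev α (bar (s k))) = ∏ k, j (ev α (s k)) := by
        have e3 : ∀ k, j (ev α (bar (s k))) = -1 * j (ev α (s k)) := fun k => by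
          rw [ev_bar_polar j hα, map_neg, neg_one_mul]
        rw [Finset.prod_congr rfl fun k _ => e3 k, Finset.prod_mul_distrib, Finset.prod_const,
          Finset.card_univ, heven.neg_one_pow, one_mul]
      rw [h7] at h6
      have h8 := h5.mul h6.inv
      have h9 : j (yf (chu s) * μ * (∏ k, ev α (s k))⁻¹) =
          j μ * (∏ k, Pool.Agent.TH117.PO.sgn j (s k)) * j (yf (chu s)) *
            ((∏ k, j (ev α (s k))) * ∏ k, Pool.Agent.TH117.PO.sgn j (s k))⁻¹ := by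
        have e1 : ∏ k, Pool.Agent.TH117.PO.sgn j (s k) ≠ 0 :=
          Finset.prod_ne_zero_iff.2 fun k _ => sgn_ne j (s k)
        rw [map_mul, map_mul, map_inv₀, map_prod, mul_inv]
        field_simp
      rw [← h9] at h8
      obtain ⟨t, ht, ht2⟩ := h8
      refine ⟨t, ht.le, _, ht2, ?_, fun _ => ht⟩
      rw [hy, mul_assoc (jO l0 (yf (chu s))), h3, map_mul, map_mul, map_inv₀]
  have hyq : ∀ z : PS C l0 hS, ∃ t : (κ → Wt Y.X L) → ℝ, (∀ s, 0 ≤ t s) ∧
      ((q (y z) z : ℚ) : ℝ) = ∑ s, t s ∧ ∀ s, (z.1 l0 fun k => e l0 (s k)) *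
        (z.1 l0 fun k => e l0 (bar (s k))) ≠ 0 → 0 < t s := by
    intro z
    choose t ht γ hγ hγ2 ht2 using hkey z
    refine ⟨t, ht, ?_, ht2⟩
    have h2 : jO l0 (∑ s, γ s) = ((q (y z) z : ℚ) : Ω l0) := by
      rw [← hq, map_sum]
      unfold BO
      exact Finset.sum_congr rfl fun s _ => (hγ2 s).symm
    have h3 : ∑ s, γ s = ((q (y z) z : ℚ) : L) := (jO l0).injective (by rw [h2, map_ratCast])
    have h4 := congrArg j h3
    rw [map_sum, map_ratCast, Finset.sum_congr rfl fun s _ => hγ s] at h4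
    have h5 : ((∑ s, t s : ℝ) : ℂ) = (((q (y z) z : ℚ) : ℝ) : ℂ) := by
      push_cast
      exact h4
    exact (Complex.ofReal_injective h5).symm
  have hpos : ∀ z, 0 ≤ q (y z) z := by
    intro z
    obtain ⟨t, ht, h2, -⟩ := hyq z
    have h3 : (0 : ℝ) ≤ ((q (y z) z : ℚ) : ℝ) := by
      rw [h2]
      exact Finset.sum_nonneg fun s _ => ht s
    exact_mod_cast h3
  have hdef0 : ∀ z, q (y z) z = 0 → ∀ s : κ → Wt Y.X L,
      (z.1 l0 fun k => e l0 (s k)) * (z.1 l0 fun k => e l0 (bar (s k))) = 0 := by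
    intro z hz s
    obtain ⟨t, ht, h2, h3⟩ := hyq z
    rw [hz, Rat.cast_zero, eq_comm, Finset.sum_eq_zero_iff_of_nonneg fun s _ => ht s] at h2
    by_contra hne
    exact (h3 s hne).ne' (h2 s (Finset.mem_univ s))
  have hdef : ∀ z, q (y z) z = 0 → ∀ w, q z w = 0 := by
    intro z hz w
    have h2 : ((q z w : ℚ) : Ω l0) = 0 := by
      rw [← hq]
      unfold BO
      refine Finset.sum_eq_zero fun s _ => ?_
      rw [coef_zero hC jO hY e h1 h0 z.2.1 w.2.1 s l0 (hdef0 z hz s), zero_mul]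
    exact_mod_cast h2
  refine ⟨?_, fun z hz s => hdef0 z (by rw [hysym]; exact hz _) s⟩
  refine neg_index hqs y hysym hpos hdef (d := Fintype.card (κ → Wt Y.X L)) ?_ ?_
  · -- finiteness
    intro n v hv hvn
    have hli : LinearIndependent (Ω l0) fun i : Fin n => fun s : κ → Wt Y.X L =>
        (v i).1 l0 fun k => e l0 (s k) := by
      rw [Fintype.linearIndependent_iff]
      intro g hg i
      have h2 : ∑ i', g i' * ((q (v i') (v i) : ℚ) : Ω l0) = 0 := by
        have e1 : ∀ i', g i' * ((q (v i') (v i) : ℚ) : Ω l0) = ∑ s : κ → Wt Y.X L,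
            (g i' * ((v i').1 l0 fun k => e l0 (s k))) * (((v i).1 l0 fun k => e l0 (bar (s k))) *
              (jO l0 (∏ k, ev α (s k)))⁻¹) := by
          intro i'
          rw [← hq]
          unfold BO
          rw [Finset.mul_sum]
          exact Finset.sum_congr rfl fun s _ => by ring
        rw [Finset.sum_congr rfl fun i' _ => e1 i', Finset.sum_comm]
        refine Finset.sum_eq_zero fun s _ => ?_
        rw [← Finset.sum_mul]
        have e2 := congrFun hg s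
        rw [Finset.sum_apply] at e2
        have e3 : ∑ i', g i' * ((v i').1 l0 fun k => e l0 (s k)) = 0 := e2
        rw [e3, zero_mul]
      rw [Finset.sum_eq_single i] at h2
      · have h3 : ((q (v i) (v i) : ℚ) : Ω l0) ≠ 0 := by exact_mod_cast hvn i
        exact (mul_eq_zero.1 h2).resolve_right h3
      · intro i' _ hi
        rw [hv i' i hi, Rat.cast_zero, mul_zero]
      · intro h
        exact absurd (Finset.mem_univ _) h
    have h2 := hli.fintype_card_le_finrank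
    rwa [Fintype.card_fin, Module.finrank_fintype_fun_eq_card] at h2
  · -- the local isometries
    intro l hl
    let l' : Nat.Primes := ⟨l, hl.out⟩
    obtain ⟨cx, hcx⟩ := lag_loc Sc hScσ jO l' (f := Xf l') (fun χ _ => hXS l' χ)
    obtain ⟨f⟩ : Nonempty (Fin cx.support.card ≃ cx.support) := ⟨cx.support.equivFin.symm⟩
    refine ⟨cx.support.card, fun k => cx (f k).1, fun k => A (f k).1, fun z w => ?_⟩
    apply (algebraMap ℚ_[(l' : ℕ)] (Ω l')).injective
    have hfs : ∀ χ ∈ Sc, ∑ k, algebraMap ℚ_[(l' : ℕ)] (Ω l') (cx (f k).1) * jO l' (χ (f k).1) =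
        Xf l' χ := by
      intro χ hχ
      rw [hcx χ hχ, Finsupp.sum]
      rw [Equiv.sum_comp f fun a : cx.support =>
        algebraMap ℚ_[(l' : ℕ)] (Ω l') (cx a.1) * jO l' (χ a.1)]
      exact Finset.sum_coe_sort cx.support fun a =>
        algebraMap ℚ_[(l' : ℕ)] (Ω l') (cx a) * jO l' (χ a)
    have e1 : algebraMap ℚ_[(l' : ℕ)] (Ω l') ((q z w : ℚ) : ℚ_[(l' : ℕ)]) =
        ((q z w : ℚ) : Ω l') := map_ratCast _ _
    have e2 : ∀ k k', algebraMap ℚ_[(l' : ℕ)] (Ω l')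
        ((q (y (A (f k).1 z)) (A (f k').1 w) : ℚ) : ℚ_[(l' : ℕ)]) =
          ∑ s : κ → Wt Y.X L, jO l' (yf (chu s)) * (jO l' (chu s (f k).1) *
            jO l' (chu (fun k => bar (s k)) (f k').1)) * ((z.1 l' fun k => e l' (s k)) *
              (w.1 l' fun k => e l' (bar (s k))) * (jO l' (∏ k, ev α (s k)))⁻¹) := by
      intro k k'
      rw [map_ratCast, ← hq]
      unfold BO
      refine Finset.sum_congr rfl fun s _ => ?_
      rw [hy, hA, hA]
      ring
    change algebraMap ℚ_[(l' : ℕ)] (Ω l') (∑ k, ∑ k', cx (f k).1 * cx (f k').1 *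
      ((q (y (A (f k).1 z)) (A (f k').1 w) : ℚ) : ℚ_[(l' : ℕ)])) =
        algebraMap ℚ_[(l' : ℕ)] (Ω l') ((q z w : ℚ) : ℚ_[(l' : ℕ)])
    rw [e1, map_sum]
    have e3 : ∀ k, algebraMap ℚ_[(l' : ℕ)] (Ω l') (∑ k', cx (f k).1 * cx (f k').1 *
        ((q (y (A (f k).1 z)) (A (f k').1 w) : ℚ) : ℚ_[(l' : ℕ)])) =
        ∑ s : κ → Wt Y.X L, (algebraMap ℚ_[(l' : ℕ)] (Ω l') (cx (f k).1) *
          jO l' (chu s (f k).1)) * (jO l' (yf (chu s)) * Xf l' (chu fun k => bar (s k)) *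
            ((z.1 l' fun k => e l' (s k)) *
              (w.1 l' fun k => e l' (bar (s k))) * (jO l' (∏ k, ev α (s k)))⁻¹)) := by
      intro k
      rw [map_sum]
      have e4 : ∀ k', algebraMap ℚ_[(l' : ℕ)] (Ω l') (cx (f k).1 * cx (f k').1 *
          ((q (y (A (f k).1 z)) (A (f k').1 w) : ℚ) : ℚ_[(l' : ℕ)])) =
          ∑ s : κ → Wt Y.X L, (algebraMap ℚ_[(l' : ℕ)] (Ω l') (cx (f k').1) *
            jO l' (chu (fun k => bar (s k)) (f k').1)) *
              ((algebraMap ℚ_[(l' : ℕ)] (Ω l') (cx (f k).1) *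
          jO l' (chu s (f k).1)) * (jO l' (yf (chu s)) *
            ((z.1 l' fun k => e l' (s k)) *
              (w.1 l' fun k => e l' (bar (s k))) * (jO l' (∏ k, ev α (s k)))⁻¹))) := by
        intro k'
        rw [map_mul, map_mul, e2, Finset.mul_sum]
        exact Finset.sum_congr rfl fun s _ => by ring
      rw [Finset.sum_congr rfl fun k' _ => e4 k', Finset.sum_comm]
      refine Finset.sum_congr rfl fun s _ => ?_
      rw [← Finset.sum_mul, hfs _ (hSc _)]
      ring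
    rw [Finset.sum_congr rfl fun k _ => e3 k, Finset.sum_comm, ← hq]
    unfold BO
    refine Finset.sum_congr rfl fun s _ => ?_
    rw [← Finset.sum_mul, hfs _ (hSc _)]
    by_cases hne : (z.1 l' fun k => e l' (s k)) * (w.1 l' fun k => e l' (bar (s k))) = 0
    · rw [hne]
      ring
    · have h3 := hXX _ ⟨s, hOl z w l' s hne, rfl⟩ l'
      rw [← hchub] at h3
      have h4 : Xf l' (chu s) * (jO l' (yf (chu s)) * Xf l' (chu fun k => bar (s k))) = 1 := by
        rw [← h3]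
        ring
      rw [← mul_assoc, h4, one_mul]

end

end Pool.Agent.J4H48.M4
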