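import Pool.Agent.N202.QR.Main

/-!
# The characters of the group of the elements of norm one
-/

set_option autoImplicit false
set_option linter.unusedSectionVars false
set_option linter.unusedVariables false

namespace Pool.Agent.J4H48.M4

open NumberField Pool.Agent.H204R3.CM Pool.Agent.W547.KB Pool.Agent.W547.LD Pool.Agent.W547.HR
  Pool.Agent.W495.TA Module Pool.Agent.TH117.PO Pool.Agent.W976.TA Pool.Agent.W417.TA
  Pool.Agent.TH117.BL Pool.Agent.N202.QR
open scoped TensorProduct

noncomputable section

/-- The endomorphisms in the product of the CM fields with the property `conj a * a = 1`. -/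
def UU (X : CMAV) : Submonoid X.H1 where
  carrier := {a | ∀ i, IsCMField.complexConj (X.factor i).E (a i) * a i = 1}
  one_mem' := fun i => by
    rw [Pi.one_apply, map_one, one_mul]
  mul_mem' := fun {a b} ha hb i => by
    rw [Pi.mul_apply, map_mul]
    have h1 := ha i
    have h2 := hb i
    calc _ = (IsCMField.complexConj (X.factor i).E (a i) * a i) *
        (IsCMField.complexConj (X.factor i).E (b i) * b i) := by ring
      _ = 1 := by rw [h1, h2, one_mul]

theorem mem_UU {X : CMAV} {a : X.H1} :
    a ∈ UU X ↔ ∀ i, IsCMField.complexConj (X.factor i).E (a i) * a i = 1 := Iff.rfl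

variable {L : Type} [Field L] [NumberField L] [IsCMField L] [IsGalois ℚ L]

theorem ev_bar_UU (j : L →+* ℂ) {X : CMAV} {a : X.H1} (ha : a ∈ UU X) (w : Wt X L) :
    ev a (bar w) * ev a w = 1 := by
  rw [ev_bar]
  have h1 := ha w.1
  have h2 := congrArg w.2 h1
  rw [map_mul, map_one, emb_complexConj j] at h2
  exact h2

/-- The character of a word on the elements of norm one. -/
def chu {X : CMAV} {κ : Type} [Fintype κ] (s : κ → Wt X L) : UU X →* L :=
  (chr s).comp (UU X).subtype

theorem chu_apply {X : CMAV} {κ : Type} [Fintype κ] (s : κ → Wt X L) (a : UU X) :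
    chu s a = ∏ k, ev a.1 (s k) := rfl

theorem chu_bar (j : L →+* ℂ) {X : CMAV} {κ : Type} [Fintype κ] (s : κ → Wt X L) (a : UU X) :
    chu (fun k => bar (s k)) a * chu s a = 1 := by
  rw [chu_apply, chu_apply, ← Finset.prod_mul_distrib]
  exact Finset.prod_eq_one fun k _ => ev_bar_UU j a.2 (s k)

/-- The action of the Galois group on characters. -/
def act {X : CMAV} (σ : L ≃ₐ[ℚ] L) (χ : UU X →* L) : UU X →* L :=
  ((σ : L →+* L) : L →* L).comp χ

theorem act_apply {X : CMAV} (σ : L ≃ₐ[ℚ] L) (χ : UU X →* L) (a : UU X) :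
    act σ χ a = σ (χ a) := rfl

theorem act_one {X : CMAV} (χ : UU X →* L) : act 1 χ = χ := rfl

theorem act_mul {X : CMAV} (σ τ : L ≃ₐ[ℚ] L) (χ : UU X →* L) :
    act (σ * τ) χ = act σ (act τ χ) := rfl

theorem act_injective {X : CMAV} (σ : L ≃ₐ[ℚ] L) : Function.Injective (act (X := X) σ) := by
  intro χ χ' h
  ext a
  have h1 := DFunLike.congr_fun h a
  rw [act_apply, act_apply] at h1
  exact σ.injective h1

theorem chu_sw {X : CMAV} {κ : Type} [Fintype κ] (σ : L ≃ₐ[ℚ] L) (s : κ → Wt X L) :
    chu (fun k => sw σ (s k)) = act σ (chu s) := by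
  ext a
  rw [act_apply, chu_apply, chu_apply, map_prod]
  rfl

/-- The number of indices with the given value. -/
def cw {X : CMAV} {κ : Type} [Fintype κ] (s : κ → Wt X L) (w : Wt X L) : ℤ := by
  classical exact ∑ k, if s k = w then (1 : ℤ) else 0

/-- The odd part. -/
def mm {X : CMAV} {κ : Type} [Fintype κ] (s : κ → Wt X L) (w : Wt X L) : ℤ :=
  Pool.Agent.J4H48.M4.cw s w - Pool.Agent.J4H48.M4.cw s (bar w)

theorem mm_bar {X : CMAV} {κ : Type} [Fintype κ] (s : κ → Wt X L) (w : Wt X L) :
    mm s (bar w) = -mm s w := by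
  unfold mm
  rw [bar_bar]
  ring

open Classical in
theorem cw_eq_count {X : CMAV} {κ : Type} [Fintype κ] (s : κ → Wt X L) (w : Wt X L) :
    Pool.Agent.J4H48.M4.cw s w = (Multiset.count w ((Finset.univ : Finset κ).val.map s) : ℤ) := by
  unfold Pool.Agent.J4H48.M4.cw
  rw [Multiset.count_map, Finset.sum_boole]
  congr 1
  have h1 : Multiset.filter (fun k => s k = w) (Finset.univ : Finset κ).val =
      Multiset.filter (fun k => w = s k) (Finset.univ : Finset κ).val :=
    Multiset.filter_congr fun k _ => eq_comm
  have h2 := congrArg Multiset.card h1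
  rw [← h2, Finset.card, Finset.filter_val]

open Classical in
theorem sum_cw {X : CMAV} [Fintype (Wt X L)] {κ : Type} [Fintype κ] (s : κ → Wt X L)
    (g : Wt X L → ℤ) : ∑ k, g (s k) = ∑ w, Pool.Agent.J4H48.M4.cw s w * g w := by
  unfold Pool.Agent.J4H48.M4.cw
  simp only [Finset.sum_mul]
  rw [Finset.sum_comm]
  refine Finset.sum_congr rfl fun k _ => ?_
  rw [Finset.sum_eq_single (s k)]
  · rw [if_pos rfl, one_mul]
  · intro w _ hw
    rw [if_neg (Ne.symm hw), zero_mul]
  · intro h
    exact absurd (Finset.mem_univ _) h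

/-- Sums of odd functions. -/
theorem odd_sum {X : CMAV} [Fintype (Wt X L)] {κ : Type} [Fintype κ] (s : κ → Wt X L)
    {g : Wt X L → ℤ} (hg : ∀ w, g (bar w) = -g w) :
    2 * ∑ k, g (s k) = ∑ w, mm s w * g w := by
  classical
  rw [sum_cw]
  unfold mm
  have h1 : ∑ w, Pool.Agent.J4H48.M4.cw s (bar w) * g w =
      -∑ w, Pool.Agent.J4H48.M4.cw s w * g w := by
    rw [← Finset.sum_neg_distrib]
    refine Fintype.sum_equiv (Function.Involutive.toPerm bar bar_bar) _ _ fun w => ?_
    change _ = -(Pool.Agent.J4H48.M4.cw s (bar w) * g (bar w))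
    rw [hg]
    ring
  simp only [sub_mul, Finset.sum_sub_distrib]
  rw [h1]
  ring

/-- **Words with the same character have the same odd part.** -/
theorem mm_of_chu (j : L →+* ℂ) {X : CMAV} (hB : Big X j) {κ : Type} [Fintype κ]
    {I K : κ → Wt X L} (h : chu I = chu K) : mm I = mm K := by
  classical
  have : Finite (Wt X L) := Pool.Agent.W67.TA.finite_wt j hB
  let _ : Fintype (Wt X L) := Fintype.ofFinite _
  obtain ⟨x, hx⟩ := exists_separating (L := L) X
  -- an embedding for each index
  have hemb : ∀ i, Nonempty ((X.factor i).E →+* L) := by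
    intro i
    obtain ⟨ψ⟩ : Nonempty ((X.factor i).E →+* ℂ) := inferInstance
    obtain ⟨φ, _⟩ := hB i ψ
    exact ⟨φ⟩
  let PP : (κ → Wt X L) → Polynomial L := fun M =>
    ∏ k, (Polynomial.X - Polynomial.C (ev x (M k)))
  have hev : ∀ (M : κ → Wt X L) (t : L), (PP M).eval t = ∏ k, (t - ev x (M k)) := by
    intro M t
    change (∏ k, (Polynomial.X - Polynomial.C (ev x (M k)))).eval t = _
    rw [Polynomial.eval_prod]
    simp
  have heq : PP I * PP (fun k => bar (K k)) = PP K * PP (fun k => bar (I k)) := by
    refine Polynomial.eq_of_infinite_eval_eq _ _ ?_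
    have hfin : Set.Finite {n : ℕ | ∃ w : Wt X L, (n : L) = ev x w} := by
      have h1 : (Set.range fun w : Wt X L => ev x w).Finite := Set.finite_range _
      refine (h1.preimage (f := fun n : ℕ => (n : L)) (fun a _ b _ hab => Nat.cast_injective hab)).subset ?_
      rintro n ⟨w, hw⟩
      exact ⟨w, hw.symm⟩
    have hinf := (hfin.infinite_compl).image (f := fun n : ℕ => (n : L))
      (fun a _ b _ hab => Nat.cast_injective hab)
    refine hinf.mono ?_
    rintro _ ⟨n, hn, rfl⟩
    have hn' : ∀ w : Wt X L, (n : L) - ev x w ≠ 0 := by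
      intro w hw
      exact hn ⟨w, sub_eq_zero.1 hw⟩
    set b : X.H1 := (n : ℚ) • (1 : X.H1) - x with hb
    have hbe : ∀ w : Wt X L, ev b w = (n : L) - ev x w := by
      intro w
      have h3 := (evLin w).map_sub ((n : ℚ) • (1 : X.H1)) x
      rw [LinearMap.map_smul] at h3
      have h4 : evLin w (1 : X.H1) = 1 := map_one w.2
      rw [h4, Rat.smul_def, mul_one, Rat.cast_natCast] at h3
      exact h3
    have hb0 : ∀ i, b i ≠ 0 := by
      intro i h0
      obtain ⟨φ⟩ := hemb i
      have h1 := hbe ⟨i, φ⟩
      have h2 : ev b (⟨i, φ⟩ : Wt X L) = 0 := by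
        change φ (b i) = 0
        rw [h0, map_zero]
      rw [h2] at h1
      exact hn' _ h1.symm
    have hc0 : ∀ i, IsCMField.complexConj (X.factor i).E (b i) ≠ 0 := fun i =>
      (map_ne_zero _).2 (hb0 i)
    let a : X.H1 := fun i => b i / IsCMField.complexConj (X.factor i).E (b i)
    have ha : a ∈ UU X := by
      intro i
      change IsCMField.complexConj (X.factor i).E (b i / IsCMField.complexConj (X.factor i).E (b i))
        * (b i / IsCMField.complexConj (X.factor i).E (b i)) = 1
      rw [map_div₀, IsCMField.complexConj_apply_apply]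
      have h1 := hb0 i
      have h2 := hc0 i
      field_simp
    have hae : ∀ w : Wt X L, ev a w = ((n : L) - ev x w) / ((n : L) - ev x (bar w)) := by
      intro w
      change w.2 (b w.1 / IsCMField.complexConj (X.factor w.1).E (b w.1)) = _
      rw [map_div₀, emb_complexConj j]
      have h1 : w.2 (b w.1) = (n : L) - ev x w := hbe w
      have h2 : cc L (w.2 (b w.1)) = (n : L) - ev x (bar w) := hbe (bar w)
      rw [h2, h1]
    have h1 := DFunLike.congr_fun h ⟨a, ha⟩
    rw [chu_apply, chu_apply] at h1
    simp only [hae, Finset.prod_div_distrib] at h1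
    have h2 : ∀ M : κ → Wt X L, (∏ k, ((n : L) - ev x (M k))) ≠ 0 := fun M =>
      Finset.prod_ne_zero_iff.2 fun k _ => hn' _
    rw [div_eq_div_iff (h2 fun k => bar (I k)) (h2 fun k => bar (K k))] at h1
    change (PP I * PP (fun k => bar (K k))).eval (n : L) =
      (PP K * PP (fun k => bar (I k))).eval (n : L)
    rw [Polynomial.eval_mul, Polynomial.eval_mul, hev, hev, hev, hev]
    exact h1
  have hpoly : ∀ M : κ → Wt X L, PP M = (((Finset.univ : Finset κ).val.map M).map
      fun w => Polynomial.X - Polynomial.C (ev x w)).prod := by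
    intro M
    rw [Multiset.map_map]
    rfl
  have hroots : ((Finset.univ : Finset κ).val.map I + (Finset.univ : Finset κ).val.map
        fun k => bar (K k)).map (fun w => ev x w) =
      ((Finset.univ : Finset κ).val.map K + (Finset.univ : Finset κ).val.map
        fun k => bar (I k)).map (fun w => ev x w) := by
    have h1 : ∀ m : Multiset (Wt X L), (m.map fun w => Polynomial.X - Polynomial.C (ev x w)) =
        (m.map fun w => ev x w).map fun t => Polynomial.X - Polynomial.C t := by
      intro m
      rw [Multiset.map_map]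
      rfl
    have h2 : ((((Finset.univ : Finset κ).val.map I + (Finset.univ : Finset κ).val.map
        fun k => bar (K k)).map fun w => ev x w).map fun t => Polynomial.X - Polynomial.C t).prod =
        ((((Finset.univ : Finset κ).val.map K + (Finset.univ : Finset κ).val.map
        fun k => bar (I k)).map fun w => ev x w).map fun t =>
          Polynomial.X - Polynomial.C t).prod := by
      rw [← h1, ← h1, Multiset.map_add, Multiset.map_add, Multiset.prod_add, Multiset.prod_add,
        ← hpoly, ← hpoly, ← hpoly, ← hpoly]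
      exact heq
    rw [← Polynomial.roots_multiset_prod_X_sub_C (Multiset.map (fun w => ev x w)
      ((Finset.univ : Finset κ).val.map I + (Finset.univ : Finset κ).val.map
        fun k => bar (K k))), h2, Polynomial.roots_multiset_prod_X_sub_C]
  have hm := Multiset.map_injective hx hroots
  have hcb : ∀ (M : κ → Wt X L) (w : Wt X L),
      Multiset.count w ((Finset.univ : Finset κ).val.map fun k => bar (M k)) =
        Multiset.count (bar w) ((Finset.univ : Finset κ).val.map M) := by
    intro M w
    have h1 : ((Finset.univ : Finset κ).val.map fun k => bar (M k)) =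
        ((Finset.univ : Finset κ).val.map M).map bar := by
      rw [Multiset.map_map]
      rfl
    rw [h1]
    conv_lhs => rw [← bar_bar w]
    exact Multiset.count_map_eq_count' _ _ bar_injective _
  funext w
  have h1 := congrArg (Multiset.count w) hm
  rw [Multiset.count_add, Multiset.count_add, hcb, hcb] at h1
  unfold mm
  rw [cw_eq_count, cw_eq_count, cw_eq_count, cw_eq_count]
  omega

end

end Pool.Agent.J4H48.M4
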