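import Pool.Agent.J4H48.M4.Form

/-!
# Choice of the data on the orbits of the characters
-/

set_option autoImplicit false
set_option linter.unusedSectionVars false
set_option linter.unusedVariables false

namespace Pool.Agent.J4H48.M4

open NumberField Pool.Agent.H204R3.CM Pool.Agent.W547.KB Pool.Agent.W547.LD Pool.Agent.W547.HR
  Pool.Agent.W495.TA Module Pool.Agent.TH117.PO Pool.Agent.W976.TA Pool.Agent.W417.TA
  Pool.Agent.TH117.BL Pool.Agent.W495.TC Pool.Agent.W495.TB Pool.Agent.TH117.F5 Pool.Agent.N202.QR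
open scoped TensorProduct

noncomputable section

variable {Ω : Nat.Primes → Type} [∀ l, Field (Ω l)] [∀ l, CharZero (Ω l)]
  [∀ l : Nat.Primes, Algebra ℚ_[(l : ℕ)] (Ω l)]
  {L : Type} [Field L] [NumberField L] [IsCMField L] [IsGalois ℚ L]

theorem SS_trans (jO : ∀ l, L →+* Ω l) (l : Nat.Primes) (τ : L ≃ₐ[ℚ] L)
    {x : (L ≃ₐ[ℚ] L) → Ω l} (hx : x ∈ SS jO l) : (fun σ => x (σ * τ)) ∈ SS jO l := by
  induction hx using AddSubgroup.closure_induction with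
  | mem x hx =>
    obtain ⟨m, q, h⟩ := hx
    exact AddSubgroup.subset_closure ⟨τ m, q, fun σ => h (σ * τ)⟩
  | zero => exact AddSubgroup.zero_mem _
  | add x y _ _ h1 h2 => exact AddSubgroup.add_mem _ h1 h2
  | neg x _ h1 => exact AddSubgroup.neg_mem _ h1

/-- Characters in the same orbit. -/
def ostd (L : Type) [Field L] [NumberField L] [IsCMField L] [IsGalois ℚ L] (X : CMAV) :
    Setoid (UU X →* L) where
  r χ χ' := ∃ σ : L ≃ₐ[ℚ] L, act σ χ = χ'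
  iseqv := by
    refine ⟨fun χ => ⟨1, act_one χ⟩, ?_, ?_⟩
    · rintro χ χ' ⟨σ, rfl⟩
      exact ⟨σ⁻¹, by rw [← act_mul, inv_mul_cancel, act_one]⟩
    · rintro χ χ' χ'' ⟨σ, rfl⟩ ⟨τ, rfl⟩
      exact ⟨τ * σ, act_mul τ σ χ⟩

/-- **The choice of the data on the orbits.** -/
theorem exists_global {X : CMAV} (jO : ∀ l, L →+* Ω l) (l0 : Nat.Primes) (Occ : (UU X →* L) → Prop)
    (Sg : (UU X →* L) → L → Prop)
    (hdat : ∀ χ, Occ χ → ∃ (y : L) (F : ∀ l : Nat.Primes, (L ≃ₐ[ℚ] L) → Ω l),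
      (∀ l, F l ∈ SS jO l) ∧ (∀ l σ n, act n χ = χ → F l (σ * n) = F l σ) ∧
      (∀ l σ, F l σ * F l (cc L * σ) * jO l (σ y) = 1) ∧
      ∀ σ : L ≃ₐ[ℚ] L, Sg (act σ χ) (σ y))
    (hOcc : ∀ (σ : L ≃ₐ[ℚ] L) χ, Occ χ → Occ (act σ χ)) :
    ∃ (yf : (UU X →* L) → L) (Xf : ∀ l : Nat.Primes, (UU X →* L) → Ω l),
      (∀ (σ : L ≃ₐ[ℚ] L) χ, yf (act σ χ) = σ (yf χ)) ∧
      (∀ l χ, (fun σ => Xf l (act σ χ)) ∈ SS jO l) ∧
      (∀ χ, Occ χ → ∀ l, Xf l χ * Xf l (act (cc L) χ) * jO l (yf χ) = 1) ∧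
      ∀ χ, Occ χ → Sg χ (yf χ) := by
  classical
  -- the data, extended by zero
  have h1 : ∀ χ, ∃ (y : L) (F : ∀ l : Nat.Primes, (L ≃ₐ[ℚ] L) → Ω l), (∀ l, F l ∈ SS jO l) ∧
      (∀ l σ n, act n χ = χ → F l (σ * n) = F l σ) ∧
      (∀ n : L ≃ₐ[ℚ] L, act n χ = χ → n y = y) ∧
      (Occ χ → (∀ l σ, F l σ * F l (cc L * σ) * jO l (σ y) = 1) ∧
        ∀ σ : L ≃ₐ[ℚ] L, Sg (act σ χ) (σ y)) := by
    intro χ
    by_cases h : Occ χ
    · obtain ⟨y, F, g1, g2, g3, g4⟩ := hdat χ h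
      refine ⟨y, F, g1, g2, fun n hn => ?_, fun _ => ⟨g3, g4⟩⟩
      have e1 := g3 l0 n
      have e2 := g3 l0 1
      have e3 := g2 l0 1 n hn
      have e4 := g2 l0 (cc L) n hn
      rw [one_mul] at e3
      rw [mul_one] at e2
      have e5 : (1 : L ≃ₐ[ℚ] L) y = y := rfl
      rw [e5] at e2
      rw [e3, e4] at e1
      have e6 : F l0 1 * F l0 (cc L) ≠ 0 := by
        intro h0
        rw [h0, zero_mul] at e2
        exact zero_ne_one e2
      have e7 := mul_left_cancel₀ e6 (e1.trans e2.symm)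
      exact (jO l0).injective e7
    · refine ⟨0, fun l σ => 0, fun l => AddSubgroup.zero_mem _, fun l σ n _ => rfl,
        fun n _ => map_zero n, fun h' => absurd h' h⟩
  choose y0 F0 g1 g2 g3 g4 using h1
  -- representatives
  let rep0 : (UU X →* L) → (UU X →* L) := fun χ =>
    (Quotient.mk (ostd L X) χ).out
  have hrep : ∀ χ, ∃ σ : L ≃ₐ[ℚ] L, act σ (rep0 χ) = χ := by
    intro χ
    exact Quotient.exact (Quotient.out_eq (Quotient.mk (ostd L X) χ))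
  choose sg hsg using hrep
  have hrepσ : ∀ (σ : L ≃ₐ[ℚ] L) χ, rep0 (act σ χ) = rep0 χ := by
    intro σ χ
    have h2 : Quotient.mk (ostd L X) (act σ χ) = Quotient.mk (ostd L X) χ := by
      apply Quotient.sound
      exact ⟨σ⁻¹, by rw [← act_mul, inv_mul_cancel, act_one]⟩
    change (Quotient.mk (ostd L X) (act σ χ)).out = (Quotient.mk (ostd L X) χ).out
    rw [h2]
  have hOr : ∀ χ, Occ χ → Occ (rep0 χ) := by
    intro χ h
    have h2 : rep0 χ = act (sg χ)⁻¹ χ := by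
      apply act_injective (sg χ)
      rw [hsg, ← act_mul, mul_inv_cancel, act_one]
    rw [h2]
    exact hOcc _ _ h
  -- the stabilizer
  have hst : ∀ (σ : L ≃ₐ[ℚ] L) χ, act ((σ * sg χ)⁻¹ * sg (act σ χ)) (rep0 χ) = rep0 χ := by
    intro σ χ
    rw [act_mul]
    have h2 : act (sg (act σ χ)) (rep0 χ) = act σ χ := by
      have h3 := hsg (act σ χ)
      rwa [hrepσ] at h3
    rw [h2]
    apply act_injective (σ * sg χ)
    rw [← act_mul, mul_inv_cancel, act_one, act_mul, hsg]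
  have hF : ∀ l (σ : L ≃ₐ[ℚ] L) χ, F0 (rep0 (act σ χ)) l (sg (act σ χ)) =
      F0 (rep0 χ) l (σ * sg χ) := by
    intro l σ χ
    rw [hrepσ]
    have h2 := g2 (rep0 χ) l (σ * sg χ) _ (hst σ χ)
    rwa [mul_inv_cancel_left] at h2
  have hy : ∀ (σ : L ≃ₐ[ℚ] L) χ, sg (act σ χ) (y0 (rep0 (act σ χ))) = σ (sg χ (y0 (rep0 χ))) := by
    intro σ χ
    rw [hrepσ]
    have h2 := g3 (rep0 χ) _ (hst σ χ)
    have h3 := congrArg (σ * sg χ) h2
    rw [← AlgEquiv.mul_apply, mul_inv_cancel_left] at h3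
    rw [h3]
    rfl
  refine ⟨fun χ => sg χ (y0 (rep0 χ)), fun l χ => F0 (rep0 χ) l (sg χ), hy, fun l χ => ?_,
    fun χ h l => ?_, fun χ h => ?_⟩
  · have h2 : (fun σ => F0 (rep0 (act σ χ)) l (sg (act σ χ))) =
        fun σ => F0 (rep0 χ) l (σ * sg χ) := funext fun σ => hF l σ χ
    rw [h2]
    exact SS_trans jO l (sg χ) (g1 _ l)
  · dsimp only
    rw [hF]
    exact (g4 _ (hOr χ h)).1 l (sg χ)
  · have h2 := (g4 _ (hOr χ h)).2 (sg χ)
    rwa [hsg] at h2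

end

end Pool.Agent.J4H48.M4
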