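import Pool.Agent.J4H48.M4.Word

/-!
# The local data and the signs belonging to a word
-/

set_option autoImplicit false
set_option linter.unusedSectionVars false
set_option linter.unusedVariables false

namespace Pool.Agent.J4H48.M4

open NumberField Pool.Agent.H204R3.CM Pool.Agent.W547.KB Pool.Agent.W547.LD Pool.Agent.W547.HR
  Pool.Agent.W495.TA Module Pool.Agent.TH117.PO Pool.Agent.W976.TA Pool.Agent.W417.TA
  Pool.Agent.TH117.BL Pool.Agent.W495.TC Pool.Agent.W495.TB Pool.Agent.TH117.F5 Pool.Agent.N202.QR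
open scoped TensorProduct

noncomputable section

variable {p : ℕ} [Fact p.Prime] {ν : PadicAlgCl p ≃+* ℂ}
  {L : Type} [Field L] [NumberField L] [IsCMField L] [IsGalois ℚ L] {j : L →+* ℂ}

theorem balanced_sw {X : CMAV} {κ : Type} [Fintype κ] {J : κ → Wt X L}
    (h : Balanced (fun k => St j (J k))) (τ : L ≃ₐ[ℚ] L) :
    Balanced (fun k => St j (sw τ (J k))) := by
  classical
  intro σ
  rw [← h (σ * τ)]
  refine Finset.sum_congr rfl fun k _ => ?_
  have h1 : σ ∈ St j (sw τ (J k)) ↔ σ * τ ∈ St j (J k) := by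
    rw [St_sw, mem_tr]
  simp only [h1]

theorem sumElim_injective {Y Y' : RedAV p ν} {κ κ' : Type} {s : κ → Wt Y.X L}
    (hs : Function.Injective s) {J : κ' → Wt Y'.X L} (hJ : Function.Injective J) :
    Function.Injective (Sum.elim (fun k => inlW (J k)) fun k => inrW (bar (s k)) :
      κ' ⊕ κ → Wt (prodR Y' Y).X L) := by
  have hs' : Function.Injective fun k => bar (s k) := fun k k' hk => hs (bar_injective hk)
  refine Function.Injective.sumElim ?_ ?_ ?_
  · intro k k' hk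
    refine hJ ?_
    have h5 := Sigma.mk.inj_iff.1 hk
    exact Sigma.ext (Sum.inl.inj h5.1) h5.2
  · intro k k' hk
    refine hs' ?_
    have h5 := Sigma.mk.inj_iff.1 hk
    exact Sigma.ext (Sum.inr.inj h5.1) h5.2
  · intro k k' hk
    exact Sum.inl_ne_inr (Sigma.mk.inj_iff.1 hk).1

/-- The sign of a word, compared with the sign of a word of Hodge type. -/
theorem sign_cmp {Ω : Type} [Field Ω] [CharZero Ω] {jO : L →+* Ω}
    {C : (Y : RedAV p ν) → (κ : Type) → ((TM Ω Y) [⋀^κ]→ₗ[Ω] Ω) → Prop}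
    (hC : IsCycleSystem Ω C) (hR : IsRosatiPositive Ω C) {Y Y' : RedAV p ν}
    (hY : Big Y.X j) (hY' : Big Y'.X j) {κ κ' : Type}
    [Fintype κ] [DecidableEq κ] [Fintype κ'] [DecidableEq κ'] {s : κ → Wt Y.X L}
    (hs : Function.Injective s) (heven : Even (Fintype.card κ)) {J : κ' → Wt Y'.X L}
    (hJ : Function.Injective J) (hbal : Balanced (fun k => St j (J k)))
    (hK : IsPos jO C j (prodR Y' Y) (Sum.elim (fun k => inlW (J k)) fun k => inrW (bar (s k))))
    {a a' : Ω} (ha : Ln jO C Y' J a a') {m : L} (hm : a * a' = jO m) (hm0 : m ≠ 0)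
    {c c' : Ω} (h : Ln jO C Y s c c') (hcc : c * c' ≠ 0) {μ : L} (hμ : c * c' = jO μ) :
    PosC (j μ * (∏ k, Pool.Agent.TH117.PO.sgn j (s k)) * j m) := by
  classical
  obtain ⟨d, d', μK, h1, h2, h3⟩ := hK
  have hdd : d * d' ≠ 0 := by
    rw [h2]
    refine (map_ne_zero jO).2 fun h => ?_
    have h4 := h3.1
    rw [h, map_zero, zero_mul] at h4
    exact h4 rfl
  obtain ⟨δ, hδ, h4⟩ := line_div hC hY hs hJ h h1
  have hcδ : jO (cc L δ) ≠ 0 := (map_ne_zero jO).2 ((map_ne_zero (cc L)).2 hδ)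
  have hδ' : jO δ ≠ 0 := (map_ne_zero jO).2 hδ
  obtain ⟨l, h5, h6⟩ := two_lines hC j hY' hJ ha h4
  have hprod : m * μK * μ * (δ * cc L δ) = l * cc L l := by
    apply jO.injective
    rw [map_mul, map_mul, map_mul, map_mul, map_mul, ← hm, ← h2, ← hμ, ← h5, ← h6]
    ring
  have hμ0 : μ ≠ 0 := by
    intro h0
    rw [h0, map_zero] at hμ
    exact hcc hμ
  have hμK0 : μK ≠ 0 := by
    intro h0
    rw [h0, map_zero] at h2
    exact hdd h2
  have hl0 : l ≠ 0 := by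
    intro h0
    rw [h0, zero_mul] at hprod
    exact mul_ne_zero (mul_ne_zero (mul_ne_zero hm0 hμK0) hμ0)
      (mul_ne_zero hδ ((map_ne_zero (cc L)).2 hδ)) hprod
  have h9 := h3.2 hR
  rw [Fintype.prod_sum_type] at h9
  have e1 : ∏ k, Pool.Agent.TH117.PO.sgn j (Sum.elim (fun k => inlW (J k))
      (fun k => inrW (bar (s k))) (Sum.inl k) : Wt (prodR Y' Y).X L) = 1 := by
    rw [← prod_sgn_bal hbal]
    rfl
  have e2 : ∏ k, Pool.Agent.TH117.PO.sgn j (Sum.elim (fun k => inlW (J k))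
      (fun k => inrW (bar (s k))) (Sum.inr k) : Wt (prodR Y' Y).X L) =
      ∏ k, Pool.Agent.TH117.PO.sgn j (s k) := by
    have e3 : ∏ k, Pool.Agent.TH117.PO.sgn j (Sum.elim (fun k => inlW (J k))
      (fun k => inrW (bar (s k))) (Sum.inr k) : Wt (prodR Y' Y).X L) =
      ∏ k, Pool.Agent.TH117.PO.sgn j (bar (s k)) := rfl
    rw [e3, Finset.prod_congr rfl fun k _ => sgn_bar j (s k)]
    have e4 : ∀ k, -Pool.Agent.TH117.PO.sgn j (s k) = -1 * Pool.Agent.TH117.PO.sgn j (s k) :=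
      fun k => (neg_one_mul _).symm
    rw [Finset.prod_congr rfl fun k _ => e4 k, Finset.prod_mul_distrib, Finset.prod_const,
      Finset.card_univ, heven.neg_one_pow, one_mul]
  rw [e1, e2, one_mul] at h9
  set S : ℂ := ∏ k, Pool.Agent.TH117.PO.sgn j (s k) with hS
  have hSS : S * S = 1 := by
    rw [hS, ← Finset.prod_mul_distrib, Finset.prod_congr rfl fun k _ => sgn_sq j (s k),
      Finset.prod_const, Finset.card_univ, heven.neg_one_pow]
  have h10 := ((PosC.norm j hl0).mul h9.inv).mul (PosC.norm j hδ).inv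
  have hS0 : S ≠ 0 := fun h => by rw [h, mul_zero] at hSS; exact zero_ne_one hSS
  have hjK : j μK ≠ 0 := (map_ne_zero j).2 hμK0
  have hjδ : j (δ * cc L δ) ≠ 0 := (PosC.norm j hδ).ne
  have h11 : j (l * cc L l) * (j μK * S)⁻¹ * (j (δ * cc L δ))⁻¹ = j μ * S * j m := by
    have h12 : S⁻¹ = S := by
      field_simp
      rw [pow_two]
      exact hSS.symm
    rw [← hprod, map_mul j (m * μK * μ), map_mul j (m * μK), map_mul j m, mul_inv, h12]
    field_simp
  rwa [h11] at h10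

variable {Ω : Nat.Primes → Type} [∀ l, Field (Ω l)] [∀ l, CharZero (Ω l)]
  [∀ l : Nat.Primes, Algebra ℚ_[(l : ℕ)] (Ω l)] [∀ l, IsAlgClosed (Ω l)]
  {C : (Y : RedAV p ν) → (κ : Type) → FCl Ω Y κ → Prop}

theorem PosC.sq_real (j : L →+* ℂ) {x : L} (hx : x ≠ 0) (hr : cc L x = x) : PosC (j x * j x) := by
  have h1 := PosC.norm j hx
  rwa [hr, map_mul] at h1

/-- **The data belonging to a word.** -/
theorem exists_data (hC : IsCompatible Ω C) (l0 : Nat.Primes)
    (hR : IsRosatiPositive (Ω l0) (atPrime C l0)) (jO : ∀ l, L →+* Ω l) {Y : RedAV p ν}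
    (hY : Big Y.X j) {κ : Type} [Fintype κ] [DecidableEq κ] {s : κ → Wt Y.X L}
    (hs : Function.Injective s) (hbal : ∀ g, ∑ k, tf p ν j (St j (s k)) g = 0)
    (heven : Even (Fintype.card κ)) {c0 c0' : Ω l0} (h : Ln (jO l0) (atPrime C l0) Y s c0 c0')
    (hcc : c0 * c0' ≠ 0) :
    ∃ (y : L) (X : ∀ l : Nat.Primes, (L ≃ₐ[ℚ] L) → Ω l),
      (∀ l, X l ∈ SS jO l) ∧
      (∀ l σ n, act n (chu s) = chu s → X l (σ * n) = X l σ) ∧
      (∀ l σ, X l σ * X l (cc L * σ) * jO l (σ y) = 1) ∧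
      ∀ (σ : L ≃ₐ[ℚ] L) (s' : κ → Wt Y.X L), Function.Injective s' → chu s' = act σ (chu s) →
        ∀ d d' : Ω l0, Ln (jO l0) (atPrime C l0) Y s' d d' → d * d' ≠ 0 →
          ∀ μ : L, d * d' = jO l0 μ →
            PosC (j μ * (∏ k, Pool.Agent.TH117.PO.sgn j (s' k)) * j (σ y)) := by
  classical
  have hC0 := hC.cycle l0
  obtain ⟨κ', _, _, Y', hY', J, hJ, hJbal, hJN, hJd⟩ := exists_hodge_word hY hs hbal heven
  have hinj : ∀ σ : L ≃ₐ[ℚ] L, Function.Injective (sw (X := Y'.X) σ) := fun σ =>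
    (swE Y'.X σ).symm.injective
  have hJs : ∀ σ : L ≃ₐ[ℚ] L, Function.Injective fun k => sw σ (J k) := fun σ k k' hk =>
    hJ (hinj σ hk)
  have hKpos : ∀ (σ : L ≃ₐ[ℚ] L) (s' : κ → Wt Y.X L), Function.Injective s' →
      chu s' = act σ (chu s) → IsPos (jO l0) (atPrime C l0) j (prodR Y' Y)
        (Sum.elim (fun k => inlW (sw σ (J k))) fun k => inrW (bar (s' k))) := by
    intro σ s' hs' hσ
    exact pos_of_alg hC0 (jO l0) j (big_prodR hY' hY) (sumElim_injective hs' (hJs σ))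
      (alg_K0 (jO l0) hY hY' heven (even_of_bal hJbal) (hJd σ s' hσ))
  -- a class on `Y'`
  have hbasis := fun l => Pool.Agent.W67.TA.basis p ν (Ω l) L j (jO l) Y' hY'
  choose e h1 h0 using hbasis
  have hK1 := hKpos 1 s hs (act_one _).symm
  have hsw1 : (fun k => sw (1 : L ≃ₐ[ℚ] L) (J k)) = J := funext fun k => sw_one (J k)
  obtain ⟨z, hz, hz1, hz2⟩ : ∃ z : FCl Ω Y' κ', C Y' κ' z ∧ (z l0 fun k => e l0 (J k)) ≠ 0 ∧
      (z l0 fun k => e l0 (bar (J k))) ≠ 0 := by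
    obtain ⟨d, d', μK, g1, g2, g3⟩ := hK1
    have hdd : d * d' ≠ 0 := by
      rw [g2]
      refine (map_ne_zero (jO l0)).2 fun h => ?_
      have h4 := g3.1
      rw [h, map_zero, zero_mul] at h4
      exact h4 rfl
    obtain ⟨δ, hδ, g4⟩ := line_div hC0 hY hs (hJs 1) h g1
    rw [hsw1] at g4
    have hcδ : jO l0 (cc L δ) ≠ 0 := (map_ne_zero _).2 ((map_ne_zero (cc L)).2 hδ)
    have hδ' : jO l0 δ ≠ 0 := (map_ne_zero _).2 hδ
    have hne1 : d * c0 * jO l0 δ ≠ 0 := mul_ne_zero (mul_ne_zero (left_ne_zero_of_mul hdd)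
      (left_ne_zero_of_mul hcc)) hδ'
    have hne2 : d' * c0' * jO l0 (cc L δ) ≠ 0 := mul_ne_zero (mul_ne_zero
      (right_ne_zero_of_mul hdd) (right_ne_zero_of_mul hcc)) hcδ
    obtain ⟨_, ⟨z, hz, rfl⟩, hz1, hz2⟩ := exists_both (e l0) (h1 l0) (h0 l0) hC0 j hY' hJ g4
      (mul_ne_zero hne1 hne2)
    exact ⟨z, hz, hz1, hz2⟩
  have hC' : IsFam (fun i : Nat.Primes × (L ≃ₐ[ℚ] L) => Ω i.1) (rep (L ≃ₐ[ℚ] L) C) :=
    hC.toIsFam.rep 1
  let e' : ∀ i : Nat.Primes × (L ≃ₐ[ℚ] L), Basis (Wt Y'.X L) (Ω i.1) (TM (Ω i.1) Y') := fun i =>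
    (e i.1).reindex (swE Y'.X i.2)
  have he' : ∀ (i : Nat.Primes × (L ≃ₐ[ℚ] L)) (w : Wt Y'.X L), e' i w = e i.1 (sw i.2 w) := by
    intro i w
    exact Basis.reindex_apply _ _ _
  have h1' : ∀ i w, co (jS jO i) w (e' i w) = 1 := by
    intro i w
    rw [he', co_jS]
    exact h1 _ _
  have h0' : ∀ i w w', w ≠ w' → co (jS jO i) w (e' i w') = 0 := by
    intro i w w' hw
    rw [he', co_jS]
    exact h0 _ _ _ fun h => hw (hinj _ h)
  -- a rational vector where the monomial does not vanish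
  obtain ⟨v0, hv0⟩ : ∃ v : κ' → Y'.X.H1, mono J v ≠ 0 := by
    by_contra hcon
    push Not at hcon
    have h2 : monoO (jO l0) J = 0 := by
      refine Pool.Agent.W417.TA.ext_tmul fun v => ?_
      rw [Pool.Agent.W417.TA.monoO_tmul, hcon, map_zero]
      rfl
    have h3 := monoO_self (e l0) (h1 l0) (h0 l0) hJ
    rw [h2] at h3
    exact zero_ne_one h3
  set D : L := mono J v0 with hD
  -- the coefficients
  let c : ∀ i : Nat.Primes × (L ≃ₐ[ℚ] L), Ω i.1 := fun i => z i.1 fun k => e i.1 (sw i.2 (J k))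
  let c' : ∀ i : Nat.Primes × (L ≃ₐ[ℚ] L), Ω i.1 := fun i =>
    z i.1 fun k => e i.1 (sw i.2 (bar (J k)))
  have hzr : rep (L ≃ₐ[ℚ] L) C Y' κ' (fun i => z i.1) := ⟨z, hz, fun i => rfl⟩
  have hJb : Function.Injective fun k => bar (J k) := fun k k' h => hJ (bar_injective h)
  have hLn : LnF (rep (L ≃ₐ[ℚ] L) C) (jS jO) Y' J c := by
    have h2 := LnF_coef hC' j hY' e' h1' h0' hzr hJ
    have h3 : (fun i : Nat.Primes × (L ≃ₐ[ℚ] L) => z i.1 fun k => e' i (J k)) = c := by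
      funext i
      simp only [he']
      rfl
    rw [h3] at h2
    exact h2
  have hLn' : LnF (rep (L ≃ₐ[ℚ] L) C) (jS jO) Y' (fun k => bar (J k)) c' := by
    have h2 := LnF_coef hC' j hY' e' h1' h0' hzr hJb
    have h3 : (fun i : Nat.Primes × (L ≃ₐ[ℚ] L) => z i.1 fun k => e' i (bar (J k))) = c' := by
      funext i
      simp only [he']
      rfl
    rw [h3] at h2
    exact h2
  have hne : Nonempty (Nat.Primes × (L ≃ₐ[ℚ] L)) := ⟨(⟨2, Nat.prime_two⟩, 1)⟩
  obtain ⟨m, hm⟩ := two_linesF hC' j hY' hJ hLn hLn'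
  have hm1 : ∀ l (σ : L ≃ₐ[ℚ] L), c (l, σ) * c' (l, σ) = jO l (σ m) := fun l σ => hm (l, σ)
  have hcb : ∀ l (σ : L ≃ₐ[ℚ] L), c (l, cc L * σ) = c' (l, σ) := by
    intro l σ
    change (z l fun k => e l (sw (cc L * σ) (J k))) = z l fun k => e l (sw σ (bar (J k)))
    simp only [sw_cc, sw_bar j]
  have hm0 : m ≠ 0 := by
    intro h2
    have h3 := hm1 l0 1
    rw [h2, map_zero, map_zero] at h3
    have h4 : c (l0, 1) = z l0 fun k => e l0 (J k) := by
      change (z l0 fun k => e l0 (sw 1 (J k))) = _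
      simp only [sw_one]
    have h5 : c' (l0, 1) = z l0 fun k => e l0 (bar (J k)) := by
      change (z l0 fun k => e l0 (sw 1 (bar (J k)))) = _
      simp only [sw_one]
    rw [h4, h5] at h3
    exact mul_ne_zero hz1 hz2 h3
  have hinv : ∀ x : L, cc L (cc L x) = x := cc_invol
  have hcomm : ∀ (σ : L ≃ₐ[ℚ] L) (x : L), σ (cc L x) = cc L (σ x) := fun σ x =>
    (DFunLike.congr_fun (cc_comm j σ) x).symm
  let X : ∀ l : Nat.Primes, (L ≃ₐ[ℚ] L) → Ω l := fun l σ => jO l (σ D) * c (l, σ)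
  set Z0 : L := D * cc L D * m with hZ0
  have hZ00 : Z0 ≠ 0 := mul_ne_zero (mul_ne_zero hv0 ((map_ne_zero (cc L)).2 hv0)) hm0
  have hXX : ∀ l (σ : L ≃ₐ[ℚ] L), X l σ * X l (cc L * σ) = jO l (σ Z0) := by
    intro l σ
    change jO l (σ D) * c (l, σ) * (jO l ((cc L * σ) D) * c (l, cc L * σ)) = _
    have h2 : (cc L * σ) D = σ (cc L D) := (hcomm σ D).symm
    rw [hcb, h2, hZ0, map_mul σ, map_mul σ, map_mul (jO l), map_mul (jO l), ← hm1]
    ring
  have hZr : cc L Z0 = Z0 := by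
    apply (jO l0).injective
    have h2 := hXX l0 1
    have h3 := hXX l0 (cc L)
    rw [cc_cc] at h3
    rw [mul_one] at h2
    have h4 : (1 : L ≃ₐ[ℚ] L) Z0 = Z0 := rfl
    rw [h4] at h2
    rw [← h3, ← h2, mul_comm]
  refine ⟨Z0⁻¹, X, fun l => ?_, fun l σ n hn => ?_, fun l σ => ?_, ?_⟩
  · exact SS_smul jO l D (coef_mem hC jO j hY' hJ hJbal hLn l)
  · obtain ⟨π, hπ⟩ := hJN n hn
    have hs1 : ((Equiv.Perm.sign π : ℤ) : Ω l) * ((Equiv.Perm.sign π : ℤ) : Ω l) = 1 := by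
      rw [← Int.cast_mul, ← Units.val_mul, Int.units_mul_self, Units.val_one, Int.cast_one]
    have e1 : (σ * n) D = ((Equiv.Perm.sign π : ℤ) : L) * σ D := by
      change σ (n D) = _
      have e2 : n D = ((Equiv.Perm.sign π : ℤ) : L) * D := by
        rw [hD, ← mono_sw]
        have h2 : (fun k => sw n (J k)) = J ∘ π := funext hπ
        rw [h2, mono_perm]
      rw [e2, map_mul, map_intCast]
    have e3 : c (l, σ * n) = ((Equiv.Perm.sign π : ℤ) : Ω l) * c (l, σ) := by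
      change (z l fun k => e l (sw (σ * n) (J k))) = _ * z l fun k => e l (sw σ (J k))
      simp only [sw_mul, hπ]
      have h2 := (z l).map_perm (fun k => e l (sw σ (J k))) π
      rw [Units.smul_def, zsmul_eq_mul] at h2
      exact h2
    change jO l ((σ * n) D) * c (l, σ * n) = jO l (σ D) * c (l, σ)
    rw [e1, e3, map_mul, map_intCast]
    linear_combination (jO l (σ D) * c (l, σ)) * hs1
  · rw [hXX, map_inv₀, map_inv₀]
    exact mul_inv_cancel₀ ((map_ne_zero _).2 ((map_ne_zero σ).2 hZ00))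
  · intro σ s' hs' hσ d d' hL hdd μ hμ
    -- the line of the class on the conjugate word
    have hLJ := Ln_coef hC0 j hY' (e l0) (h1 l0) (h0 l0) ⟨z, hz, rfl⟩ (hJs σ)
    have ha : (z l0 fun k => e l0 (sw σ (J k))) * (z l0 fun k => e l0 (bar (sw σ (J k)))) =
        jO l0 (σ m) := by
      rw [← hm1]
      congr 1
      change _ = z l0 fun k => e l0 (sw σ (bar (J k)))
      simp only [sw_bar j]
    have h2 := sign_cmp hC0 hR hY hY' hs' heven (hJs σ) (balanced_sw hJbal σ)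
      (hKpos σ s' hs' hσ) hLJ ha ((map_ne_zero σ).2 hm0) hL hdd hμ
    -- the square of `σ Z0` is positive
    have hσZ : σ Z0 ≠ 0 := (map_ne_zero σ).2 hZ00
    have hσr : cc L (σ Z0) = σ Z0 := by rw [← hcomm, hZr]
    have h3 := PosC.sq_real j hσZ hσr
    have h4 := PosC.norm j (l := σ D) ((map_ne_zero σ).2 hv0)
    have h5 := (h2.mul h4).mul h3.inv
    have hjZ : j (σ Z0) ≠ 0 := (map_ne_zero j).2 hσZ
    have h6 : j μ * (∏ k, Pool.Agent.TH117.PO.sgn j (s' k)) * j (σ m) * j (σ D * cc L (σ D)) *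
        (j (σ Z0) * j (σ Z0))⁻¹ =
        j μ * (∏ k, Pool.Agent.TH117.PO.sgn j (s' k)) * j (σ Z0⁻¹) := by
      have h7 : j (σ m) * j (σ D * cc L (σ D)) = j (σ Z0) := by
        rw [← map_mul, hZ0, map_mul σ, map_mul σ, hcomm]
        congr 1
        ring
      rw [mul_assoc (j μ * _) (j (σ m)), h7, map_inv₀ σ, map_inv₀ j]
      field_simp
    rwa [h6] at h5

end

end Pool.Agent.J4H48.M4
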