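import Mathlib

/-!
# Odd functions on a finite group as sums of half systems which come in pairs
-/

set_option autoImplicit false
set_option linter.unusedSectionVars false

namespace Pool.Agent.J4H48.M4

open Classical in
/-- The values `1` (for the elements of `T`) and `-1`. -/
noncomputable def pmT {G : Type} (T : Set G) (σ : G) : ℤ := if σ ∈ T then 1 else -1

section

variable {G : Type} [Group G] [Fintype G] {c : G} {N D : Subgroup G}

open Classical in
/-- The sum over the coset `D σ`. -/
noncomputable def dsum (D : Subgroup G) (g : G → ℤ) (σ : G) : ℤ :=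
  ∑ d : G, if d ∈ D then g (d * σ) else 0

theorem dsum_sub (g h : G → ℤ) (σ : G) :
    dsum D (fun x => g x - h x) σ = dsum D g σ - dsum D h σ := by
  unfold dsum
  rw [← Finset.sum_sub_distrib]
  refine Finset.sum_congr rfl fun d _ => ?_
  split_ifs
  · rfl
  · simp

theorem dsum_add (g h : G → ℤ) (σ : G) :
    dsum D (fun x => g x + h x) σ = dsum D g σ + dsum D h σ := by
  unfold dsum
  rw [← Finset.sum_add_distrib]
  refine Finset.sum_congr rfl fun d _ => ?_
  split_ifs
  · rfl
  · simp

/-- The conditions on a function. -/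
structure IsOdd (c : G) (N D : Subgroup G) (g : G → ℤ) : Prop where
  right : ∀ σ, ∀ n ∈ N, g (σ * n) = g σ
  odd : ∀ σ, g (c * σ) = -g σ
  sum : ∀ σ, dsum D g σ = 0

theorem IsOdd.sub {g h : G → ℤ} (hg : IsOdd c N D g) (hh : IsOdd c N D h) :
    IsOdd c N D fun σ => g σ - h σ where
  right σ n hn := by rw [hg.right σ n hn, hh.right σ n hn]
  odd σ := by rw [hg.odd, hh.odd]; ring
  sum σ := by rw [dsum_sub, hg.sum, hh.sum, sub_zero]

open Classical in
/-- The indicator function of the coset `a N`. -/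
noncomputable def ind (N : Subgroup G) (a σ : G) : ℤ := if a⁻¹ * σ ∈ N then 1 else 0

theorem ind_right (a σ n : G) (hn : n ∈ N) : ind N a (σ * n) = ind N a σ := by
  unfold ind
  rw [← mul_assoc, N.mul_mem_cancel_right hn]

theorem ind_left (b a σ : G) : ind N (b * a) σ = ind N a (b⁻¹ * σ) := by
  unfold ind
  rw [mul_inv_rev, mul_assoc]

theorem ind_dsum {a d0 : G} (h : d0 ∈ D) (σ : G) :
    dsum D (ind N (d0 * a)) σ = dsum D (ind N a) σ := by
  unfold dsum
  refine Fintype.sum_equiv (Equiv.mulLeft d0⁻¹) _ _ fun d => ?_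
  rw [ind_left]
  have h1 : (Equiv.mulLeft d0⁻¹) d = d0⁻¹ * d := rfl
  rw [h1, D.mul_mem_cancel_left (D.inv_mem h), mul_assoc]

theorem ind_self (a : G) : ind N a a = 1 := by
  unfold ind
  rw [inv_mul_cancel, if_pos N.one_mem]

theorem ind_nonneg (a σ : G) : ind N a σ = 0 ∨ ind N a σ = 1 := by
  unfold ind
  split_ifs
  · exact Or.inr rfl
  · exact Or.inl rfl

/-- A function which is constant on the cosets, on the support of the indicator function. -/
theorem eq_of_ind {g : G → ℤ} (hg : ∀ σ, ∀ n ∈ N, g (σ * n) = g σ) {a σ : G}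
    (h : ind N a σ = 1) : g σ = g a := by
  unfold ind at h
  by_cases h1 : a⁻¹ * σ ∈ N
  · have h2 := hg a _ h1
    rwa [mul_inv_cancel_left] at h2
  · rw [if_neg h1] at h
    exact absurd h (by norm_num)

theorem ind_congr {a b : G} (h : ind N a b = 1) (σ : G) : ind N a σ = ind N b σ := by
  unfold ind at *
  by_cases h1 : a⁻¹ * b ∈ N
  · have h2 : a⁻¹ * σ = (a⁻¹ * b) * (b⁻¹ * σ) := by group
    rw [h2, N.mul_mem_cancel_left h1]
  · rw [if_neg h1] at h
    exact absurd h (by norm_num)

theorem ind_c (hcc : c * c = 1) (a σ : G) :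
    ind N (c * a) σ = ind N a (c * σ) := by
  rw [ind_left, inv_eq_of_mul_eq_one_right hcc]

/-- The elementary functions. -/
structure IsElem (c : G) (N D : Subgroup G) (e : G → ℤ) : Prop extends IsOdd c N D e where
  val : ∀ σ, e σ = 0 ∨ e σ = 1 ∨ e σ = -1

theorem abs_aux {x e : ℤ} (h : e = 0 ∨ (e = 1 ∧ 0 < x) ∨ (e = -1 ∧ x < 0)) : |x - e| ≤ |x| := by
  rcases h with rfl | ⟨rfl, h⟩ | ⟨rfl, h⟩
  · rw [sub_zero]
  · rw [abs_of_pos h, abs_of_nonneg (by omega)]
    omega
  · rw [abs_of_neg h, abs_of_nonpos (by omega)]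
    omega

/-- Subtracting an elementary function. -/
theorem exists_elem (hc : ∀ σ, c * σ = σ * c) (hcc : c * c = 1) {g : G → ℤ} (hg : IsOdd c N D g)
    (h0 : g ≠ 0) : ∃ e, IsElem c N D e ∧ (∑ σ, |g σ - e σ|) < ∑ σ, |g σ| := by
  classical
  -- a positive value
  obtain ⟨a, ha⟩ : ∃ a, 0 < g a := by
    obtain ⟨a, ha⟩ := Function.ne_iff.1 h0
    rcases lt_or_gt_of_ne ha with h | h
    · refine ⟨c * a, ?_⟩
      rw [hg.odd]
      have : g a < 0 := h
      omega
    · exact ⟨a, h⟩
  -- a negative value on the orbit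
  obtain ⟨d0, hd0, hb⟩ : ∃ d0 ∈ D, g (d0 * a) < 0 := by
    by_contra hcon
    push Not at hcon
    have h1 := hg.sum a
    unfold dsum at h1
    have h2 : ∀ d ∈ (Finset.univ : Finset G), (0 : ℤ) ≤ if d ∈ D then g (d * a) else 0 := by
      intro d _
      split_ifs with h
      · exact hcon d h
      · exact le_rfl
    have h3 := (Finset.sum_eq_zero_iff_of_nonneg h2).1 h1 1 (Finset.mem_univ _)
    rw [if_pos D.one_mem, one_mul] at h3
    omega
  set b := d0 * a with hbdef
  have hca : g (c * a) = -g a := hg.odd a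
  have hcb : g (c * b) = -g b := hg.odd b
  have hcl : ∀ x, c * (c * x) = x := fun x => by rw [← mul_assoc, hcc, one_mul]
  have hdsa : ∀ σ, dsum D (ind N b) σ = dsum D (ind N a) σ := fun σ => ind_dsum hd0 σ
  have hdsc : ∀ σ, dsum D (ind N (c * b)) σ = dsum D (ind N (c * a)) σ := by
    intro σ
    have h1 : c * b = d0 * (c * a) := by rw [hbdef, ← mul_assoc, hc d0, mul_assoc]
    rw [h1]
    exact ind_dsum hd0 σ
  have hev : ∀ x σ, ind N x σ = 1 → g σ = g x := fun x σ h => eq_of_ind hg.right h
  have hval : ∀ x σ, ind N x σ = 0 ∨ ind N x σ = 1 := fun x σ => ind_nonneg x σ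
  have hab0 : ind N a b = 0 := by
    rcases hval a b with h | h
    · exact h
    · have := hev a b h
      omega
  by_cases hcase : ind N (c * a) b = 1
  · -- the orbit is stable under `c`
    have hcab : ∀ σ, ind N (c * a) σ = ind N b σ := fun σ => ind_congr hcase σ
    refine ⟨fun σ => ind N a σ - ind N b σ, ⟨⟨?_, ?_, ?_⟩, ?_⟩, ?_⟩
    · intro σ n hn
      rw [ind_right _ _ _ hn, ind_right _ _ _ hn]
    · intro σ
      have h1 : ind N a (c * σ) = ind N b σ := by rw [← ind_c hcc, hcab]
      have h2 : ind N b (c * σ) = ind N a σ := by rw [← hcab, ind_c hcc, hcl]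
      rw [h1, h2]
      ring
    · intro σ
      rw [dsum_sub, hdsa, sub_self]
    · intro σ
      have h1 := hval a σ
      have h2 := hval b σ
      omega
    · refine Finset.sum_lt_sum (fun σ _ => ?_) ⟨a, Finset.mem_univ _, ?_⟩
      · have h1 := hval a σ
        have h2 := hval b σ
        have h3 := hev a σ
        have h4 := hev b σ
        refine abs_aux ?_
        dsimp only
        omega
      · have h1 : ind N b a = 0 := by
          rcases hval b a with h | h
          · exact h
          · have := hev b a h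
            omega
        dsimp only
        rw [ind_self, h1, abs_of_pos ha, abs_of_nonneg (by omega)]
        omega
  · have hcab0 : ind N (c * a) b = 0 := by
      rcases hval (c * a) b with h | h
      · exact h
      · exact absurd h hcase
    -- the four cosets are disjoint
    have hne : ∀ x y σ, ind N x y = 0 → ind N x σ = 1 → ind N y σ = 1 → False := by
      intro x y σ h1 h2 h3
      have h4 : ind N y x = 1 := by
        have h5 : ind N x x = ind N y x := by
          rw [ind_congr h2, ind_congr h3]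
        rw [← h5, ind_self]
      have h6 : ind N x y = 1 := by
        rw [← ind_congr h4, ind_self]
      omega
    have d1 : ∀ σ, ¬ (ind N a σ = 1 ∧ ind N b σ = 1) := fun σ h => hne a b σ hab0 h.1 h.2
    have d2 : ∀ σ, ¬ (ind N (c * a) σ = 1 ∧ ind N b σ = 1) := fun σ h =>
      hne (c * a) b σ hcab0 h.1 h.2
    have d3 : ∀ σ, ¬ (ind N a σ = 1 ∧ ind N (c * b) σ = 1) := by
      intro σ h
      apply d2 (c * σ)
      constructor
      · rw [ind_c hcc, hcl]
        exact h.1
      · rw [← ind_c hcc]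
        exact h.2
    have d4 : ∀ σ, ¬ (ind N (c * a) σ = 1 ∧ ind N (c * b) σ = 1) := by
      intro σ h
      apply d1 (c * σ)
      constructor
      · rw [← ind_c hcc]
        exact h.1
      · rw [← ind_c hcc]
        exact h.2
    have d5 : ∀ σ, ¬ (ind N a σ = 1 ∧ ind N (c * a) σ = 1) := by
      intro σ h
      have h1 := hev a σ h.1
      have h2 := hev (c * a) σ h.2
      omega
    have d6 : ∀ σ, ¬ (ind N b σ = 1 ∧ ind N (c * b) σ = 1) := by
      intro σ h
      have h1 := hev b σ h.1
      have h2 := hev (c * b) σ h.2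
      omega
    refine ⟨fun σ => (ind N a σ - ind N (c * a) σ) - (ind N b σ - ind N (c * b) σ),
      ⟨⟨?_, ?_, ?_⟩, ?_⟩, ?_⟩
    · intro σ n hn
      simp only [ind_right _ _ _ hn]
    · intro σ
      have h1 : ind N a (c * σ) = ind N (c * a) σ := (ind_c hcc a σ).symm
      have h2 : ind N (c * a) (c * σ) = ind N a σ := by rw [ind_c hcc, hcl]
      have h3 : ind N b (c * σ) = ind N (c * b) σ := (ind_c hcc b σ).symm
      have h4 : ind N (c * b) (c * σ) = ind N b σ := by rw [ind_c hcc, hcl]
      rw [h1, h2, h3, h4]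
      ring
    · intro σ
      rw [dsum_sub, dsum_sub, dsum_sub, hdsa, hdsc, sub_self]
    · intro σ
      have e1 := d1 σ
      have e2 := d2 σ
      have e3 := d3 σ
      have e4 := d4 σ
      have e5 := d5 σ
      have e6 := d6 σ
      have g1 := hval a σ
      have g2 := hval b σ
      have g3 := hval (c * a) σ
      have g4 := hval (c * b) σ
      omega
    · refine Finset.sum_lt_sum (fun σ _ => ?_) ⟨a, Finset.mem_univ _, ?_⟩
      · have e1 := d1 σ
        have e2 := d2 σ
        have e3 := d3 σ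
        have e4 := d4 σ
        have e5 := d5 σ
        have e6 := d6 σ
        have f1 := hev a σ
        have f2 := hev b σ
        have f3 := hev (c * a) σ
        have f4 := hev (c * b) σ
        have g1 := hval a σ
        have g2 := hval b σ
        have g3 := hval (c * a) σ
        have g4 := hval (c * b) σ
        refine abs_aux ?_
        dsimp only
        omega
      · have e1 := d1 a
        have e3 := d3 a
        have e5 := d5 a
        have g1 : ind N a a = 1 := ind_self a
        have g2 := hval b a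
        have g3 := hval (c * a) a
        have g4 := hval (c * b) a
        have k1 : (ind N a a - ind N (c * a) a) - (ind N b a - ind N (c * b) a) = 1 := by omega
        dsimp only
        rw [k1, abs_of_pos ha, abs_of_nonneg (by omega)]
        omega

/-- Each odd function is a sum of elementary functions. -/
theorem sum_elem (hc : ∀ σ, c * σ = σ * c) (hcc : c * c = 1) (k : ℕ) : ∀ {g : G → ℤ},
    IsOdd c N D g → (∑ σ, |g σ|) ≤ k → ∃ (m : ℕ) (e : Fin m → G → ℤ), (∀ i, IsElem c N D (e i)) ∧
      ∀ σ, g σ = ∑ i, e i σ := by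
  induction k with
  | zero =>
    intro g hg hk
    refine ⟨0, fun i => i.elim0, fun i => i.elim0, fun σ => ?_⟩
    have h1 : ∑ σ, |g σ| = 0 := le_antisymm (by exact_mod_cast hk)
      (Finset.sum_nonneg fun σ _ => abs_nonneg _)
    have h2 := (Finset.sum_eq_zero_iff_of_nonneg (fun σ _ => abs_nonneg (g σ))).1 h1 σ
      (Finset.mem_univ _)
    simpa using h2
  | succ k ih =>
    intro g hg hk
    by_cases h0 : g = 0
    · refine ⟨0, fun i => i.elim0, fun i => i.elim0, fun σ => ?_⟩
      rw [h0]
      simp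
    · obtain ⟨e, he, hlt⟩ := exists_elem hc hcc hg h0
      obtain ⟨m, e', he', hs⟩ := ih (hg.sub he.toIsOdd) (by push_cast at hk; omega)
      refine ⟨m + 1, Fin.cons e e', fun i => ?_, fun σ => ?_⟩
      · refine Fin.cases he (fun i => ?_) i
        rw [Fin.cons_succ]
        exact he' i
      · rw [Fin.sum_univ_succ]
        simp only [Fin.cons_zero, Fin.cons_succ]
        rw [← hs]
        ring

/-- A half system which is invariant under `N`. -/
theorem exists_half (hc : ∀ σ, c * σ = σ * c) (hcc : c * c = 1) (hcN : c ∉ N) :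
    ∃ φ : Set G, (∀ σ, σ ∈ φ ↔ c * σ ∉ φ) ∧ ∀ σ, ∀ n ∈ N, σ * n ∈ φ ↔ σ ∈ φ := by
  classical
  have : Finite (G ⧸ N) := inferInstance
  obtain ⟨k, ⟨f⟩⟩ := Finite.exists_equiv_fin (G ⧸ N)
  refine ⟨{σ | f (σ : G ⧸ N) < f ((c * σ : G) : G ⧸ N)}, fun σ => ?_, fun σ n hn => ?_⟩
  · have h1 : f (σ : G ⧸ N) ≠ f ((c * σ : G) : G ⧸ N) := by
      intro h
      have h2 := f.injective h
      rw [QuotientGroup.eq] at h2
      apply hcN
      rwa [hc, inv_mul_cancel_left] at h2
    have h2 : c * (c * σ) = σ := by rw [← mul_assoc, hcc, one_mul]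
    simp only [Set.mem_ofPred_eq, h2, not_lt]
    exact ⟨fun h => h.le, fun h => lt_of_le_of_ne h h1⟩
  · have h1 : ((σ * n : G) : G ⧸ N) = (σ : G ⧸ N) := by
      rw [QuotientGroup.eq]
      have : (σ * n)⁻¹ * σ = n⁻¹ := by group
      rw [this]
      exact N.inv_mem hn
    have h2 : ((c * (σ * n) : G) : G ⧸ N) = ((c * σ : G) : G ⧸ N) := by
      rw [QuotientGroup.eq]
      have : (c * (σ * n))⁻¹ * (c * σ) = n⁻¹ := by group
      rw [this]
      exact N.inv_mem hn
    simp only [Set.mem_ofPred_eq, h1, h2]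

/-- **The decomposition in half systems.** -/
theorem dec (hc : ∀ σ, c * σ = σ * c) (hcc : c * c = 1) {g : G → ℤ} (hg : IsOdd c N D g) :
    ∃ (m : ℕ) (T : Fin m × Bool → Set G), (∀ i σ, σ ∈ T i ↔ c * σ ∉ T i) ∧
      (∀ i σ, ∀ n ∈ N, σ * n ∈ T i ↔ σ ∈ T i) ∧ (∀ σ, ∑ i, pmT (T i) σ = 2 * g σ) ∧
      ∀ i σ, dsum D (pmT (T (i, true))) σ + dsum D (pmT (T (i, false))) σ = 0 := by
  classical
  by_cases h0 : g = 0
  · refine ⟨0, fun i => i.1.elim0, fun i => i.1.elim0, fun i => i.1.elim0, fun σ => ?_,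
      fun i => i.elim0⟩
    rw [h0]
    simp
  have hcN : c ∉ N := by
    intro h
    apply h0
    funext σ
    have h1 := hg.right σ c h
    rw [← hc, hg.odd] at h1
    change g σ = 0
    omega
  obtain ⟨φ, hφ, hφN⟩ := exists_half hc hcc hcN
  obtain ⟨m, e, he, hs⟩ := sum_elem hc hcc (∑ σ, |g σ|).toNat hg (by
    rw [Int.toNat_of_nonneg (Finset.sum_nonneg fun σ _ => abs_nonneg _)])
  have hcl : ∀ x, c * (c * x) = x := fun x => by rw [← mul_assoc, hcc, one_mul]
  have hφ' : ∀ σ, c * σ ∈ φ ↔ σ ∉ φ := by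
    intro σ
    rw [hφ (c * σ), hcl]
  let T : Fin m × Bool → Set G := fun i =>
    {σ | e i.1 σ = 1 ∨ (e i.1 σ = 0 ∧ ((σ ∈ φ) ↔ (i.2 = true)))}
  have hT : ∀ i σ, σ ∈ T i ↔ (e i.1 σ = 1 ∨ (e i.1 σ = 0 ∧ ((σ ∈ φ) ↔ (i.2 = true)))) :=
    fun i σ => Iff.rfl
  have hpair : ∀ i σ, pmT (T (i, true)) σ + pmT (T (i, false)) σ = 2 * e i σ := by
    intro i σ
    unfold pmT
    rw [hT, hT]
    rcases (he i).val σ with h | h | h
    · by_cases h1 : σ ∈ φ
      · rw [if_pos (Or.inr ⟨h, by simp [h1]⟩), if_neg (by simp [h, h1]), h]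
        norm_num
      · rw [if_neg (by simp [h, h1]), if_pos (Or.inr ⟨h, by simp [h1]⟩), h]
        norm_num
    · rw [if_pos (Or.inl h), if_pos (Or.inl h), h]
      norm_num
    · rw [if_neg (by simp [h]), if_neg (by simp [h]), h]
      norm_num
  refine ⟨m, T, fun i σ => ?_, fun i σ n hn => ?_, fun σ => ?_, fun i σ => ?_⟩
  · rw [hT, hT, (he i.1).odd, hφ']
    rcases (he i.1).val σ with h | h | h
    · rw [h]
      simp only [neg_zero, zero_ne_one, false_or, true_and]
      tauto
    · rw [h]
      simp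
    · rw [h]
      simp
  · rw [hT, hT, (he i.1).right σ n hn, hφN σ n hn]
  · rw [Fintype.sum_prod_type, hs, Finset.mul_sum]
    refine Finset.sum_congr rfl fun i _ => ?_
    rw [Fintype.sum_bool, hpair]
  · rw [← dsum_add]
    have h1 : (fun x => pmT (T (i, true)) x + pmT (T (i, false)) x) =
        fun x => e i x + e i x := by
      funext x
      rw [hpair]
      ring
    rw [h1, dsum_add, (he i).sum, add_zero]

end

end Pool.Agent.J4H48.M4
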