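import Pool.Agent.N202.QR.Defs

/-!
# The number of negative squares of the pairing on primitive classes: definitions
-/

set_option autoImplicit false

namespace Pool.Agent.J4H48.M4

open NumberField Pool.Agent.H204R3.CM Pool.Agent.W547.KB Pool.Agent.W547.LD Pool.Agent.W547.HR
  Pool.Agent.W495.TA Module Pool.Agent.TH117.PO
open scoped TensorProduct

section

variable (Ω : Type) [Field Ω] [CharZero Ω] {V : Type} [AddCommGroup V] [Module Ω V]

/-- The combination of the vectors `z i` with the rational coefficients `c i`. -/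
def ratComb {d : ℕ} (c : Fin d → ℚ) (z : Fin d → V) : V := ∑ i, ((c i : ℚ) : Ω) • z i

/-- `S` is a rational subspace of the vector space `V`: it is stable under linear combinations with
rational coefficients. -/
def IsRatSubspace (S : V → Prop) : Prop :=
  ∀ (d : ℕ) (c : Fin d → ℚ) (z : Fin d → V), (∀ i, S (z i)) → S (ratComb Ω c z)

end

variable {p : ℕ} [Fact p.Prime] {ν : PadicAlgCl p ≃+* ℂ} {Ω : Type} [Field Ω] [CharZero Ω]
  (C : (Y : RedAV p ν) → (κ : Type) → ((TM Ω Y) [⋀^κ]→ₗ[Ω] Ω) → Prop) {Y : RedAV p ν}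
  (α : Y.X.H1) {r : ℕ} (m : ℕ)

/-- The element `a = (a i)` of the product of the CM fields is unitary: `conj (a i) * a i = 1`. -/
def IsUnitary (a : Y.X.H1) : Prop :=
  ∀ i, IsCMField.complexConj (Y.X.factor i).E (a i) * a i = 1

/-- The multiplication by the element `a` of the product of the CM fields, on the rational homology of
the lifting. -/
def mulH {X : CMAV} (a : X.H1) : X.H1 →ₗ[ℚ] X.H1 where
  toFun x := fun i => a i * x i
  map_add' x y := funext fun i => mul_add (a i) (x i) (y i)
  map_smul' c x := funext fun i => mul_smul_comm c (a i) (x i)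

/-- The pull-back of the class `z` along the multiplication by the element `a` of the product of the
CM fields (which acts on the isogeny class of `Y`). -/
noncomputable def pullA {κ : Type} (a : Y.X.H1) (z : (TM Ω Y) [⋀^κ]→ₗ[Ω] Ω) :
    (TM Ω Y) [⋀^κ]→ₗ[Ω] Ω :=
  z.compLinearMap ((mulH a).baseChange Ω)

/-- `z` is a primitive class of codimension `r` in the system `C`, for the polarization given by
`α`. -/
def IsPrimCycle (z : (TM Ω Y) [⋀^Fin r × Fin 2]→ₗ[Ω] Ω) : Prop :=
  C Y (Fin r × Fin 2) z ∧ IsPrim α m z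

/-- `S` is a stable space of primitive classes of algebraic cycles of codimension `r` on `Y`
(of dimension `2 r + m`, with the polarization given by `α`): a rational subspace of the space of the
primitive classes in the system `C`, stable under the pull-backs along the unitary elements. -/
structure IsStableSpace (S : ((TM Ω Y) [⋀^Fin r × Fin 2]→ₗ[Ω] Ω) → Prop) : Prop where
  sub : ∀ z, S z → IsPrimCycle C α m z
  rational : IsRatSubspace Ω S
  pull : ∀ a : Y.X.H1, IsUnitary a → ∀ z, S z → S (pullA a z)

/-- The pairing `(-1) ^ r z ∪ w ∪ E ^ m` of two classes of codimension `r`, where `E` is the class of the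
polarization given by `α` (up to a positive factor which depends only on `r` and `m`). -/
noncomputable def pairing (z w : (TM Ω Y) [⋀^Fin r × Fin 2]→ₗ[Ω] Ω)
    (v : (Fin r × Fin 2) ⊕ ((Fin r × Fin 2) ⊕ (Fin m × Fin 2)) → Y.X.H1) : Ω :=
  (-1) ^ r * altSum (times (res z) (times (res w) (powE (castE Ω (riemannForm Y.X α)) m))) v

/-- The top power `E ^ (2 r + m)` of the class `E` of the polarization given by `α` (up to a positive
factor which depends only on `r` and `m`). -/
noncomputable def topPower (r : ℕ) (v : (Fin r × Fin 2) ⊕ ((Fin r × Fin 2) ⊕ (Fin m × Fin 2)) → Y.X.H1) : Ω :=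
  altSum (times (powE (castE Ω (riemannForm Y.X α)) r)
    (times (powE (castE Ω (riemannForm Y.X α)) r) (powE (castE Ω (riemannForm Y.X α)) m))) v

/-- `z` is a positive class: `(-1) ^ r z ∪ z ∪ E ^ m` is a positive rational multiple of the top power
of the class `E` of the polarization. (This is `IsPosClass α m z`.) -/
def IsPosSquare (z : (TM Ω Y) [⋀^Fin r × Fin 2]→ₗ[Ω] Ω) : Prop :=
  ∃ c : ℚ, 0 < c ∧ ∀ v, pairing α m z z v = (c : Ω) * topPower α m r v

/-- `z` is a negative class: `(-1) ^ r z ∪ z ∪ E ^ m` is a negative rational multiple of the top power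
of the class `E` of the polarization. -/
def IsNegSquare (z : (TM Ω Y) [⋀^Fin r × Fin 2]→ₗ[Ω] Ω) : Prop :=
  ∃ c : ℚ, c < 0 ∧ ∀ v, pairing α m z z v = (c : Ω) * topPower α m r v

/-- There are `n` pairwise orthogonal negative classes in `S`. -/
def HasNegative (S : ((TM Ω Y) [⋀^Fin r × Fin 2]→ₗ[Ω] Ω) → Prop) (n : ℕ) : Prop :=
  ∃ z : Fin n → (TM Ω Y) [⋀^Fin r × Fin 2]→ₗ[Ω] Ω, (∀ i, S (z i) ∧ IsNegSquare α m (z i)) ∧
    ∀ i k, i ≠ k → ∀ v, pairing α m (z i) (z k) v = 0

/-- There are `n` pairwise orthogonal positive classes in `S`. -/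
def HasPositive (S : ((TM Ω Y) [⋀^Fin r × Fin 2]→ₗ[Ω] Ω) → Prop) (n : ℕ) : Prop :=
  ∃ z : Fin n → (TM Ω Y) [⋀^Fin r × Fin 2]→ₗ[Ω] Ω, (∀ i, S (z i) ∧ IsPosSquare α m (z i)) ∧
    ∀ i k, i ≠ k → ∀ v, pairing α m (z i) (z k) v = 0

/-- The dimension of `S` modulo numerical equivalence is less than `d`: any `d` classes in `S` are
linearly dependent over `ℚ` modulo numerical equivalence. -/
def HasDimLT (S : ((TM Ω Y) [⋀^Fin r × Fin 2]→ₗ[Ω] Ω) → Prop) (d : ℕ) : Prop :=
  ∀ z : Fin d → (TM Ω Y) [⋀^Fin r × Fin 2]→ₗ[Ω] Ω, (∀ i, S (z i)) →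
    ∃ c : Fin d → ℚ, c ≠ 0 ∧ IsNumTrivial Ω C (ratComb Ω c z)

/-- The pairing is positive definite on `S` modulo numerical equivalence. -/
def IsPosDef (S : ((TM Ω Y) [⋀^Fin r × Fin 2]→ₗ[Ω] Ω) → Prop) : Prop :=
  ∀ z, S z → ¬ IsNumTrivial Ω C z → IsPosSquare α m z

/-- The number of negative squares of the pairing on `S` is divisible by four: it is the largest
number `n` such that there are `n` pairwise orthogonal negative classes in `S`. -/
def FourDvdIndex (S : ((TM Ω Y) [⋀^Fin r × Fin 2]→ₗ[Ω] Ω) → Prop) : Prop :=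
  ∃ n : ℕ, 4 ∣ n ∧ IsGreatest {k | HasNegative α m S k} n

/-- The pairing is positive definite on `S` modulo numerical equivalence if there are not four pairwise
orthogonal negative classes in `S`; in particular if, for some `k`, there are `k` pairwise orthogonal
positive classes in `S` and the dimension of `S` modulo numerical equivalence is less than `k + 4`. -/
def PositivityCriteria (S : ((TM Ω Y) [⋀^Fin r × Fin 2]→ₗ[Ω] Ω) → Prop) : Prop :=
  (¬ HasNegative α m S 4 → IsPosDef C α m S) ∧
    ∀ k : ℕ, HasPositive α m S k → HasDimLT C S (k + 4) → IsPosDef C α m S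

/-- For all the polarizations of `Y` which are compatible with the complex multiplications of the
lifting, all codimensions `r`, and all stable spaces `S` of primitive classes of codimension `r` (the
space of all primitive classes is one of them): the number of negative squares of the pairing on `S`
is divisible by four, and the criteria for the positivity hold. -/
def IndexTheorem (Y : RedAV p ν) : Prop :=
  ∀ α : Y.X.H1, IsPolar Y.X α → ∀ r m : ℕ, 2 * (2 * r + m) = finrank ℚ Y.X.H1 →
    IsStableSpace (r := r) C α m (IsPrimCycle C α m) ∧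
      ∀ S : ((TM Ω Y) [⋀^Fin r × Fin 2]→ₗ[Ω] Ω) → Prop, IsStableSpace C α m S →
        FourDvdIndex α m S ∧ PositivityCriteria C α m S

end Pool.Agent.J4H48.M4
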