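import Pool.Agent.J4H48.M4.Pair
import Pool.Agent.J4H48.M4.Stm
import Pool.Agent.N202.QR.Main

/-!
# The number of negative squares is divisible by four
-/

set_option autoImplicit false
set_option linter.unusedSectionVars false
set_option linter.unusedVariables false

namespace Pool.Agent.J4H48.M4

open NumberField Pool.Agent.H204R3.CM Pool.Agent.W547.KB Pool.Agent.W547.LD Pool.Agent.W547.HR
  Pool.Agent.W495.TA Module Pool.Agent.TH117.PO Pool.Agent.W976.TA Pool.Agent.W417.TA Equiv
  Pool.Agent.TH117.BL Pool.Agent.W495.TC Pool.Agent.W495.TB Pool.Agent.TH117.F5 Pool.Agent.N202.QR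
open scoped TensorProduct

noncomputable section

variable {p : ℕ} [Fact p.Prime] {ν : PadicAlgCl p ≃+* ℂ}

section one

variable {Ω : Type} [Field Ω] [CharZero Ω]
  {C : (Y : RedAV p ν) → (κ : Type) → ((TM Ω Y) [⋀^κ]→ₗ[Ω] Ω) → Prop}
  {L : Type} [Field L] [NumberField L] [IsCMField L] [IsGalois ℚ L]
  {jO : L →+* Ω} {j : L →+* ℂ}

theorem exists_vol {Y : RedAV p ν} {α : Y.X.H1} (hα : IsPolar Y.X α) {r m : ℕ}
    (hrm : 2 * (2 * r + m) = finrank ℚ Y.X.H1) : ∃ v0, (topPower α m r v0 : Ω) ≠ 0 := by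
  obtain ⟨v0, hv0⟩ := exists_vol_rat (isPolarization hα) r m hrm
  refine ⟨v0, ?_⟩
  have hvol : (topPower α m r v0 : Ω) =
      ((altSum (times (powE (riemannForm Y.X α) r) (times (powE (riemannForm Y.X α) r)
        (powE (riemannForm Y.X α) m))) v0 : ℚ) : Ω) := by
    have h2 := altSum_cast (Q := Unit) (Rat.castHom Ω) (times (powE (riemannForm Y.X α) r)
      (times (powE (riemannForm Y.X α) r) (powE (riemannForm Y.X α) m))) v0
    rw [Rat.coe_castHom] at h2
    rw [h2]
    unfold topPower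
    congr 1
    funext w
    have h3 : ∀ (k : ℕ) (u : Fin k × Fin 2 → Y.X.H1),
        powE (castE Ω (riemannForm Y.X α)) k u = ((powE (riemannForm Y.X α) k u : ℚ) : Ω) :=
      fun k u => (powE_cast (Rat.castHom Ω) (riemannForm Y.X α) k u).symm
    unfold times
    rw [h3, h3, h3, Rat.cast_mul, Rat.cast_mul]
  rw [hvol]
  exact Rat.cast_ne_zero.2 hv0

/-- The classes which are numerically trivial are in the radical. -/
theorem ortho_of_numTriv (hC : IsCycleSystem Ω C) {Y : RedAV p ν} {α : Y.X.H1}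
    (hα : IsPolar Y.X α) (hB : Big Y.X j) {r m : ℕ} (hrm : 2 * (2 * r + m) = finrank ℚ Y.X.H1)
    {z w : (TM Ω Y) [⋀^Fin r × Fin 2]→ₗ[Ω] Ω} (hz : IsNumTrivial Ω C z) (hw : C Y _ w)
    (jO : L →+* Ω) (v : (Fin r × Fin 2) ⊕ ((Fin r × Fin 2) ⊕ (Fin m × Fin 2)) → Y.X.H1) :
    pairing α m z w v = 0 := by
  classical
  obtain ⟨θ, hθ⟩ := exists_theta (jO := jO) j hα
  have hθr := res_theta j hB hθ
  have hCθ : C Y (Fin 2) θ := theta_mem hC hα hθr
  obtain ⟨Θ, a, ha, hΘ, hΘv⟩ := power_mem hC hCθ m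
  have hθ1 : ∀ x y : Y.X.H1, θ ![(1 : Ω) ⊗ₜ[ℚ] x, (1 : Ω) ⊗ₜ[ℚ] y] =
      castE Ω (riemannForm Y.X α) x y := by
    intro x y
    rw [castE, ← hθr]
    unfold res
    congr 1
    funext k
    fin_cases k <;> rfl
  have hpow : ∀ v : Fin m × Fin 2 → Y.X.H1,
      powE (fun x y => θ ![x, y]) m (fun i => (1 : Ω) ⊗ₜ[ℚ] v i) =
        powE (castE Ω (riemannForm Y.X α)) m v := by
    intro v
    unfold powE
    exact Finset.prod_congr rfl fun i _ => hθ1 _ _
  have h1 := hz _ (cupO w Θ) (hC.cup w Θ hw hΘ _ fun v => cupO_apply w Θ v) (by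
    rw [← hrm]
    simp only [Fintype.card_prod, Fintype.card_fin, Fintype.card_sum]
    ring) v
  have h2 : (res (cupO w Θ) : _ → Ω) = altSum (times (res w) (fun u => (a : Ω) *
      altSum (powE (castE Ω (riemannForm Y.X α)) m) u)) := by
    funext u
    rw [res_cupO]
    congr 1
    funext u'
    change Θ _ = _
    rw [hΘv]
    congr 1
    unfold altSum
    exact Finset.sum_congr rfl fun σ _ => by rw [← hpow]
  have h3 : (fun u => (times (res w) (fun u => (a : Ω) *
      altSum (powE (castE Ω (riemannForm Y.X α)) m) u)) u) = fun u => (a : Ω) *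
        times (res w) (altSum (powE (castE Ω (riemannForm Y.X α)) m)) u := by
    funext u
    unfold times
    ring
  have h4 : (altSum (times (res w) (fun u => (a : Ω) *
      altSum (powE (castE Ω (riemannForm Y.X α)) m) u)) : _ → Ω) = fun u =>
        ((a : Ω) * ((Fintype.card (Perm (Fin m × Fin 2)) : ℕ) : Ω)) *
          altSum (times (res w) (powE (castE Ω (riemannForm Y.X α)) m)) u := by
    funext u
    have h5 := altSum_const_mul (a : Ω)
      (times (res w) (altSum (powE (castE Ω (riemannForm Y.X α)) m))) u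
    rw [← h3] at h5
    rw [h5, altSum_absorb]
    ring
  rw [h2, h4] at h1
  have h5 : (times (res z) fun u =>
        ((a : Ω) * ((Fintype.card (Perm (Fin m × Fin 2)) : ℕ) : Ω)) *
          altSum (times (res w) (powE (castE Ω (riemannForm Y.X α)) m)) u : _ → Ω) =
      fun u => ((a : Ω) * ((Fintype.card (Perm (Fin m × Fin 2)) : ℕ) : Ω)) *
        times (res z) (altSum (times (res w) (powE (castE Ω (riemannForm Y.X α)) m))) u := by
    funext u
    unfold times
    ring
  rw [h5, altSum_const_mul, altSum_absorb, ← mul_assoc] at h1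
  unfold pairing
  rw [mul_eq_zero]
  refine Or.inr ((mul_eq_zero.1 h1).resolve_left ?_)
  refine mul_ne_zero (mul_ne_zero (Rat.cast_ne_zero.2 ha) ?_) ?_ <;>
    exact Nat.cast_ne_zero.2 Fintype.card_ne_zero

end one

section sub

variable {Ω : Type} [Field Ω] [CharZero Ω]

theorem IsRatSubspace.zero {V : Type} [AddCommGroup V] [Module Ω V] {S : V → Prop}
    (h : IsRatSubspace Ω S) : S 0 := by
  have h1 := h 0 (fun i => i.elim0) (fun i => i.elim0) fun i => i.elim0
  unfold ratComb at h1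
  rwa [Fin.sum_univ_zero] at h1

theorem IsRatSubspace.smul {V : Type} [AddCommGroup V] [Module Ω V] {S : V → Prop}
    (h : IsRatSubspace Ω S) (a : ℚ) (z : V) (hz : S z) : S ((a : Ω) • z) := by
  have h1 := h 1 (fun _ => a) (fun _ => z) fun _ => hz
  unfold ratComb at h1
  rwa [Fin.sum_univ_one] at h1

theorem IsRatSubspace.add {V : Type} [AddCommGroup V] [Module Ω V] {S : V → Prop}
    (h : IsRatSubspace Ω S) (z w : V) (hz : S z) (hw : S w) : S (z + w) := by
  have h1 := h 2 (fun _ => 1) ![z, w] fun i => by fin_cases i <;> assumption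
  unfold ratComb at h1
  rw [Fin.sum_univ_two, Rat.cast_one, one_smul, one_smul] at h1
  exact h1

theorem isRatSubspace_of {V : Type} [AddCommGroup V] [Module Ω V] {S : V → Prop} (h0 : S 0)
    (h1 : ∀ z w, S z → S w → S (z + w)) (h2 : ∀ (a : ℚ) z, S z → S ((a : Ω) • z)) :
    IsRatSubspace Ω S := by
  intro d c z hz
  unfold ratComb
  exact Finset.sum_induction _ S h1 h0 fun i _ => h2 _ _ (hz i)

theorem IsStableSpace.toIsSubU {C : (Y : RedAV p ν) → (κ : Type) → ((TM Ω Y) [⋀^κ]→ₗ[Ω] Ω) → Prop}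
    {Y : RedAV p ν} {α : Y.X.H1} {r m : ℕ} {S : ((TM Ω Y) [⋀^Fin r × Fin 2]→ₗ[Ω] Ω) → Prop}
    (hS : IsStableSpace C α m S) : IsSubU Ω S where
  zero := hS.rational.zero
  add := hS.rational.add
  smul := hS.rational.smul
  pull := hS.pull

end sub

section main

variable {Ω : Nat.Primes → Type} [∀ l, Field (Ω l)] [∀ l, CharZero (Ω l)]
  [∀ l : Nat.Primes, Algebra ℚ_[(l : ℕ)] (Ω l)] [∀ l, IsAlgClosed (Ω l)]
  {C : (Y : RedAV p ν) → (κ : Type) → FCl Ω Y κ → Prop}

/-- The rational form on the families of classes. -/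
theorem exists_form (hC : IsCompatible Ω C) (l0 : Nat.Primes)
    (hR : IsRosatiPositive (Ω l0) (atPrime C l0)) (hT : AreTate (Ω l0) (atPrime C l0))
    {Y : RedAV p ν} {α : Y.X.H1} (hα : IsPolar Y.X α) {r m : ℕ}
    (hrm : 2 * (2 * r + m) = finrank ℚ Y.X.H1)
    {S : ((TM (Ω l0) Y) [⋀^Fin r × Fin 2]→ₗ[Ω l0] Ω l0) → Prop}
    (hS : IsStableSpace (atPrime C l0) α m S) :
    ∃ (P : Type) (_ : AddCommGroup P) (_ : Module ℚ P)
      (ρ : P → (TM (Ω l0) Y) [⋀^Fin r × Fin 2]→ₗ[Ω l0] Ω l0) (q : LinearMap.BilinForm ℚ P),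
      (∀ z, S (ρ z)) ∧ (∀ f, S f → ∃ z, ρ z = f) ∧
      (∀ (n : ℕ) (c : Fin n → ℚ) (z : Fin n → P), ρ (∑ i, c i • z i) =
        ratComb (Ω l0) c fun i => ρ (z i)) ∧ (∀ z w, q z w = q w z) ∧
      (∀ z w v, pairing α m (ρ z) (ρ w) v =
        ((DD0 r m * q z w : ℚ) : Ω l0) * topPower α m r v) ∧
      (∃ n : ℕ, 4 ∣ n ∧ (∃ v : Fin n → P, Orth q v ∧ ∀ i, q (v i) (v i) < 0) ∧
        ∀ (n' : ℕ) (v : Fin n' → P), Orth q v → (∀ i, q (v i) (v i) < 0) → n' ≤ n) ∧
      ∀ z, (∀ w, q z w = 0) ↔ IsNumTrivial (Ω l0) (atPrime C l0) (ρ z) := by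
  classical
  have hC0 := hC.cycle l0
  have hne : Nonempty ((Y.X.prod (single (kp p)))).I := ⟨Sum.inr ()⟩
  obtain ⟨L, _, _, _, _, j, hj⟩ := exists_cm (Y.X.prod (single (kp p)))
  have hY : Big Y.X j := fun i ψ => hj (Sum.inl i) ψ
  let jO : ∀ l, L →+* Ω l := fun l => ((IsAlgClosed.lift : L →ₐ[ℚ] Ω l) : L →+* Ω l)
  choose e h1 h0 using fun l => Pool.Agent.W67.TA.basis p ν (Ω l) L j (jO l) Y hY
  have heven : Even (Fintype.card (Fin r × Fin 2)) := by
    rw [Fintype.card_prod, Fintype.card_fin, Fintype.card_fin]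
    exact even_two.mul_left r
  -- the words occurring in the classes
  have hbal : ∀ z, atPrime C l0 Y (Fin r × Fin 2) z → ∀ s : Fin r × Fin 2 → Wt Y.X L,
      (z fun k => e l0 (s k)) ≠ 0 → ∀ g, ∑ k, tf p ν j (St j (s k)) g = 0 := by
    intro z hz s hs g
    let ε : Fin r × Fin 2 ≃ Fin (2 * r) := finProdFinEquiv.trans (finCongr (mul_comm r 2))
    obtain ⟨t, ht, h2⟩ := hT (z.domDomCongr ε) (hC0.reindex ε z hz)
    have h3 := balanced (jO l0) Pool.Agent.W366.TA.val hY (e l0) (h1 l0) (h0 l0) t r ht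
      (z.domDomCongr ε) h2 (fun k => s (ε.symm k)) (by
        change (z fun k => e l0 (s (ε.symm (ε k)))) ≠ 0
        simp only [ε.symm_apply_apply]
        exact hs) g
    rw [← h3]
    exact (Equiv.sum_comp ε.symm fun k => tf p ν j (St j (s k)) g).symm
  obtain ⟨q, hq⟩ := exists_q hC l0 jO hY e h1 h0 hS.toIsSubU α
  have hqs : ∀ z w, q z w = q w z := by
    intro z w
    have h2 : ((q z w : ℚ) : Ω l0) = ((q w z : ℚ) : Ω l0) := by
      rw [← hq, ← hq]
      exact BO_symm jO e α j hα heven l0 _ _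
    exact_mod_cast h2
  obtain ⟨hidx, hrad⟩ := index_words hC l0 jO hY e h1 h0 hS.toIsSubU α hR hα heven hbal hq
  -- the pairing
  have hself : ∀ (z : PS C l0 hS.toIsSubU) v, pairing α m (z.1 l0) (z.1 l0) v =
        ((DD0 r m * q z z : ℚ) : Ω l0) * topPower α m r v := by
    intro z v
    unfold pairing
    rw [self_pairing hY (e l0) (h1 l0) (h0 l0) hα (hS.sub _ z.2.2).2 v, Rat.cast_mul, ← hq z z l0]
    rfl
  have hpair : ∀ (z w : PS C l0 hS.toIsSubU) v, pairing α m (z.1 l0) (w.1 l0) v =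
        ((DD0 r m * q z w : ℚ) : Ω l0) * topPower α m r v := by
    intro z w v
    have e1 := hself (z + w) v
    unfold pairing at e1
    have e2 : (res ((z + w).1 l0) : _ → Ω l0) = fun u => res (z.1 l0) u + res (w.1 l0) u := rfl
    have e3 : q (z + w) (z + w) = q z z + q w w + 2 * q z w := by
      rw [map_add q, LinearMap.add_apply, map_add, map_add, hqs w z]
      ring
    rw [e2, altSum_square _ _ _ _ heven, e3] at e1
    have e4 := hself z v
    have e5 := hself w v
    unfold pairing at e4 e5 ⊢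
    have e6 : (2 : Ω l0) * ((-1) ^ r * altSum (times (res (z.1 l0))
      (times (res (w.1 l0)) (powE (castE (Ω l0) (riemannForm Y.X α)) m))) v) =
        2 * (((DD0 r m * q z w : ℚ) : Ω l0) * topPower α m r v) := by
      push_cast at e1 e4 e5 ⊢
      linear_combination e1 - e4 - e5
    exact mul_left_cancel₀ two_ne_zero e6
  refine ⟨PS C l0 hS.toIsSubU, inferInstance, inferInstance, fun z => z.1 l0, q,
    fun z => z.2.2, fun f hf => ?_, fun n c z => ?_, hqs, hpair, hidx,
    fun z => ⟨fun hz => ?_, fun hz w => ?_⟩⟩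
  · obtain ⟨z, hz, hzf⟩ := (hS.sub f hf).1
    exact ⟨⟨z, Submodule.subset_span hz, by rw [hzf]; exact hf⟩, hzf⟩
  · change (∑ i, c i • z i : PS C l0 hS.toIsSubU).1 l0 = _
    rw [Submodule.coe_sum, Finset.sum_apply]
    exact Finset.sum_congr rfl fun i _ => rat_smul_eq _ _ _
  · exact numTriv_of hC0 hY (e l0) (h1 l0) (h0 l0) (sp_at hC l0 z.2.1) fun s _ => hrad z hz s
  · obtain ⟨v0, hv0⟩ := exists_vol (Ω := Ω l0) hα hrm
    have e1 := hpair z w v0
    rw [ortho_of_numTriv hC0 hα hY hrm hz (sp_at hC l0 w.2.1) (jO l0) v0, eq_comm] at e1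
    have e2 := (mul_eq_zero.1 e1).resolve_right hv0
    have e3 : DD0 r m * q z w = 0 := by exact_mod_cast e2
    exact (mul_eq_zero.1 e3).resolve_left (DD0_pos r m).ne'

end main

section form

variable {P : Type} [AddCommGroup P] [Module ℚ P] {q : LinearMap.BilinForm ℚ P}

theorem rad_of_nonneg (hq : ∀ z w, q z w = q w z) (hpos : ∀ z, 0 ≤ q z z) {z : P}
    (hz : q z z = 0) (w : P) : q z w = 0 := by
  by_contra hne
  have h1 := hpos ((-(q w w + 1) / (2 * q z w)) • z + w)
  have h2 : ∀ t : ℚ, q (t • z + w) (t • z + w) = t * t * q z z + 2 * t * q z w + q w w := by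
    intro t
    simp only [map_add, LinearMap.add_apply, map_smul, LinearMap.smul_apply, smul_eq_mul]
    rw [hq w z]
    ring
  rw [h2, hz] at h1
  have h3 : 2 * (-(q w w + 1) / (2 * q z w)) * q z w = -(q w w + 1) := by
    field_simp
  rw [h3] at h1
  linarith

theorem Orth.sq {n : ℕ} {v : Fin n → P} (hv : Orth q v) (c : Fin n → ℚ) :
    q (∑ i, c i • v i) (∑ i, c i • v i) = ∑ i, c i * c i * q (v i) (v i) := by
  rw [sumL]
  refine Finset.sum_congr rfl fun i _ => ?_
  rw [sumR, Finset.sum_eq_single i]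
  · ring
  · intro k _ hk
    rw [hv i k (Ne.symm hk), mul_zero]
  · intro h
    exact absurd (Finset.mem_univ _) h

theorem indep_of_signs (hq : ∀ z w, q z w = q w z) {k l : ℕ} {v : Fin k → P} {w : Fin l → P}
    (hv : Orth q v) (hw : Orth q w) (hvp : ∀ i, 0 < q (v i) (v i)) (hwn : ∀ i, q (w i) (w i) < 0)
    {c : Fin (k + l) → ℚ} (hc : ∀ u, q (∑ i, c i • Fin.append v w i) u = 0) : c = 0 := by
  set x : P := ∑ i, c (Fin.castAdd l i) • v i with hx
  set y : P := ∑ i, c (Fin.natAdd k i) • w i with hy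
  have h1 : ∑ i, c i • Fin.append v w i = x + y := by
    rw [Fin.sum_univ_add]
    congr 1
    · exact Finset.sum_congr rfl fun i _ => by rw [Fin.append_left]
    · exact Finset.sum_congr rfl fun i _ => by rw [Fin.append_right]
  rw [h1] at hc
  have h2 : q x x + q y x = 0 := by
    have := hc x
    rwa [map_add, LinearMap.add_apply] at this
  have h3 : q x y + q y y = 0 := by
    have := hc y
    rwa [map_add, LinearMap.add_apply] at this
  have h4 : 0 ≤ q x x := by
    rw [hx, hv.sq]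
    exact Finset.sum_nonneg fun i _ => mul_nonneg (mul_self_nonneg _) (hvp i).le
  have h5 : q y y ≤ 0 := by
    rw [hy, hw.sq]
    exact Finset.sum_nonpos fun i _ => mul_nonpos_of_nonneg_of_nonpos (mul_self_nonneg _) (hwn i).le
  have h6 : q x x = q y y := by
    rw [hq y x] at h2
    linarith
  have h7 : q x x = 0 := le_antisymm (h6 ▸ h5) h4
  have h8 : q y y = 0 := h6 ▸ h7
  rw [hx, hv.sq, Finset.sum_eq_zero_iff_of_nonneg fun i _ =>
    mul_nonneg (mul_self_nonneg _) (hvp i).le] at h7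
  rw [hy, hw.sq, Finset.sum_eq_zero_iff_of_nonpos fun i _ =>
    mul_nonpos_of_nonneg_of_nonpos (mul_self_nonneg _) (hwn i).le] at h8
  funext i
  refine Fin.addCases (fun i => ?_) (fun i => ?_) i
  · exact mul_self_eq_zero.1 ((mul_eq_zero.1 (h7 i (Finset.mem_univ i))).resolve_right (hvp i).ne')
  · exact mul_self_eq_zero.1 ((mul_eq_zero.1 (h8 i (Finset.mem_univ i))).resolve_right (hwn i).ne)

end form

section main

variable {Ω : Nat.Primes → Type} [∀ l, Field (Ω l)] [∀ l, CharZero (Ω l)]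
  [∀ l : Nat.Primes, Algebra ℚ_[(l : ℕ)] (Ω l)] [∀ l, IsAlgClosed (Ω l)]
  {C : (Y : RedAV p ν) → (κ : Type) → FCl Ω Y κ → Prop}

/-- **The number of negative squares is divisible by four.** -/
theorem index_four (hC : IsCompatible Ω C) (l0 : Nat.Primes)
    (hR : IsRosatiPositive (Ω l0) (atPrime C l0)) (hT : AreTate (Ω l0) (atPrime C l0))
    {Y : RedAV p ν} {α : Y.X.H1} (hα : IsPolar Y.X α) {r m : ℕ}
    (hrm : 2 * (2 * r + m) = finrank ℚ Y.X.H1)
    {S : ((TM (Ω l0) Y) [⋀^Fin r × Fin 2]→ₗ[Ω l0] Ω l0) → Prop}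
    (hS : IsStableSpace (atPrime C l0) α m S) :
    FourDvdIndex α m S ∧ PositivityCriteria (atPrime C l0) α m S := by
  classical
  obtain ⟨P, _, _, ρ, q, hρS, hlift, hρs, hqs, hpair, ⟨n, hn4, ⟨v, hv, hvn⟩, hmax⟩, hrad⟩ :=
    exists_form hC l0 hR hT hα hrm hS
  obtain ⟨v0, hv0⟩ := exists_vol (Ω := Ω l0) hα hrm
  have hinj : ∀ a b : ℚ, (a : Ω l0) = (b : Ω l0) → a = b := fun a b h => by exact_mod_cast h
  have hD := DD0_pos r m
  -- the translation
  have hort : ∀ z w : P, (∀ v, pairing α m (ρ z) (ρ w) v = 0) ↔ q z w = 0 := by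
    intro z w
    constructor
    · intro h
      have h1 := hpair z w v0
      rw [h v0, eq_comm] at h1
      have h2 := (mul_eq_zero.1 h1).resolve_right hv0
      have h3 : DD0 r m * q z w = 0 := by exact_mod_cast h2
      exact (mul_eq_zero.1 h3).resolve_left hD.ne'
    · intro h v
      rw [hpair z w v, h, mul_zero, Rat.cast_zero, zero_mul]
  have hneg : ∀ z : P, IsNegSquare α m (ρ z) ↔ q z z < 0 := by
    intro z
    constructor
    · rintro ⟨c, hc, h⟩
      have h1 := hpair z z v0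
      rw [h v0] at h1
      have h2 := mul_right_cancel₀ hv0 h1
      have h3 : c = DD0 r m * q z z := hinj _ _ h2
      by_contra hcon
      push Not at hcon
      have := mul_nonneg hD.le hcon
      linarith
    · intro h
      exact ⟨DD0 r m * q z z, mul_neg_of_pos_of_neg hD h, fun v => hpair z z v⟩
  have hpos : ∀ z : P, IsPosSquare α m (ρ z) ↔ 0 < q z z := by
    intro z
    constructor
    · rintro ⟨c, hc, h⟩
      have h1 := hpair z z v0
      rw [h v0] at h1
      have h2 := mul_right_cancel₀ hv0 h1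
      have h3 : c = DD0 r m * q z z := hinj _ _ h2
      by_contra hcon
      push Not at hcon
      have := mul_nonneg hD.le (neg_nonneg.2 hcon)
      linarith
    · intro h
      exact ⟨DD0 r m * q z z, mul_pos hD h, fun v => hpair z z v⟩
  -- the families of negative classes
  have hfam : ∀ k, HasNegative α m S k ↔ ∃ v : Fin k → P, Orth q v ∧
      ∀ i, q (v i) (v i) < 0 := by
    intro k
    constructor
    · rintro ⟨z, hz, hzo⟩
      choose w hw using fun i => hlift (z i) (hz i).1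
      refine ⟨w, fun i k hik => (hort _ _).1 ?_, fun i => (hneg _).1 ?_⟩
      · rw [hw, hw]
        exact hzo i k hik
      · rw [hw]
        exact (hz i).2
    · rintro ⟨w, hw, hwn⟩
      exact ⟨fun i => ρ (w i), fun i => ⟨hρS _, (hneg _).2 (hwn i)⟩,
        fun i k hik => (hort _ _).2 (hw i k hik)⟩
  have hdef : ¬ HasNegative α m S 4 → IsPosDef (atPrime C l0) α m S := by
    intro h4 f hf hnt
    -- there are no negative vectors
    have hn : n < 4 := by
      by_contra hcon
      push Not at hcon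
      refine h4 ((hfam 4).2 ⟨fun i => v (Fin.castLE hcon i), fun i k hik => hv _ _ fun h => hik ?_,
        fun i => hvn _⟩)
      exact Fin.castLE_injective hcon h
    have hn0 : n = 0 := by omega
    have hnonneg : ∀ z, 0 ≤ q z z := by
      intro z
      by_contra hcon
      push Not at hcon
      have h1 := hmax 1 (fun _ => z) (fun i k hik => absurd (Subsingleton.elim i k) hik)
        fun _ => hcon
      omega
    obtain ⟨z, rfl⟩ := hlift f hf
    rw [hpos]
    refine lt_of_le_of_ne (hnonneg z) fun h => hnt ?_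
    have h5 : ∀ w, q z w = 0 := rad_of_nonneg (q := q) hqs hnonneg (z := z) h.symm
    exact (hrad z).1 h5
  refine ⟨⟨n, hn4, (hfam n).2 ⟨v, hv, hvn⟩, ?_⟩, hdef, ?_⟩
  · intro k hk
    obtain ⟨w, hw, hwn⟩ := (hfam k).1 hk
    exact hmax k w hw hwn
  · rintro k ⟨z, hz, hzo⟩ hdim
    refine hdef fun h4 => ?_
    obtain ⟨w, hw, hwn⟩ := (hfam 4).1 h4
    choose x hx using fun i => hlift (z i) (hz i).1
    have hxo : Orth q x := fun i k hik => (hort _ _).1 (by
      rw [hx, hx]
      exact hzo i k hik)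
    have hxp : ∀ i, 0 < q (x i) (x i) := fun i => (hpos _).1 (by
      rw [hx]
      exact (hz i).2)
    obtain ⟨c, hc, hcz⟩ := hdim (fun i => ρ (Fin.append x w i)) fun i => hρS _
    rw [← hρs] at hcz
    exact hc (indep_of_signs hqs hxo hw hxp hwn ((hrad _).2 hcz))

end main

section stable

variable {Ω : Type} [Field Ω] [CharZero Ω]
  {C : (Y : RedAV p ν) → (κ : Type) → ((TM Ω Y) [⋀^κ]→ₗ[Ω] Ω) → Prop}

/-- The unitary elements preserve the form of the polarization. -/
theorem riemannForm_mulA {X : CMAV} (α a : X.H1)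
    (ha : ∀ i, IsCMField.complexConj (X.factor i).E (a i) * a i = 1) (x y : X.H1) :
    riemannForm X α (mulA a x) (mulA a y) = riemannForm X α x y := by
  unfold riemannForm
  refine Finset.sum_congr rfl fun i _ => ?_
  congr 1
  change α i * IsCMField.complexConj (X.factor i).E (a i * x i) * (a i * y i) = _
  rw [map_mul]
  linear_combination (α i * IsCMField.complexConj (X.factor i).E (x i) * y i) * ha i

/-- All primitive classes of cycles form a stable space. -/
theorem stable_all (hC : IsCycleSystem Ω C) {Y : RedAV p ν} (α : Y.X.H1) {r m : ℕ} :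
    IsStableSpace (r := r) C α m (IsPrimCycle C α m) where
  sub := fun z hz => hz
  rational := by
    refine isRatSubspace_of ⟨hC.zero _ _, fun v => ?_⟩
      (fun z w hz hw => ⟨hC.add _ _ hz.1 hw.1, fun v => ?_⟩)
      (fun a z hz => ⟨hC.smul _ _ hz.1, fun v => ?_⟩)
    · unfold altSum
      refine Finset.sum_eq_zero fun σ _ => ?_
      unfold times
      have h1 : res (0 : (TM Ω Y) [⋀^Fin r × Fin 2]→ₗ[Ω] Ω) = fun _ => 0 := rfl
      rw [h1, zero_mul, mul_zero]
    · have h1 : (times (res (z + w)) (powE (castE Ω (riemannForm Y.X α)) (m + 1))) = fun u =>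
          times (res z) (powE (castE Ω (riemannForm Y.X α)) (m + 1)) u +
            times (res w) (powE (castE Ω (riemannForm Y.X α)) (m + 1)) u := by
        funext u
        unfold times
        exact add_mul _ _ _
      rw [h1, altSum_add, hz.2 v, hw.2 v, add_zero]
    · have h1 : (times (res ((a : Ω) • z)) (powE (castE Ω (riemannForm Y.X α)) (m + 1))) =
          fun u => (a : Ω) * times (res z) (powE (castE Ω (riemannForm Y.X α)) (m + 1)) u := by
        funext u
        unfold times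
        exact mul_assoc _ _ _
      rw [h1, altSum_const_mul, hz.2 v, mul_zero]
  pull := fun a ha z hz => ⟨hC.pull (mulA a) (isHom_mulA a) _ hz.1, fun v => by
    have h1 : (times (res (pullA a z))
        (powE (castE Ω (riemannForm Y.X α)) (m + 1))) = fun u =>
          times (res z) (powE (castE Ω (riemannForm Y.X α)) (m + 1)) fun k => mulA a (u k) := by
      funext u
      unfold times
      congr 1
      unfold powE
      refine Finset.prod_congr rfl fun i _ => ?_
      unfold castE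
      rw [riemannForm_mulA α a ha]
    rw [h1, ← altSum_comp]
    exact hz.2 _⟩

end stable

/-- The main theorem. -/
theorem index_theorem {Ω : Nat.Primes → Type} [∀ l, Field (Ω l)] [∀ l, CharZero (Ω l)]
    [∀ l : Nat.Primes, Algebra ℚ_[(l : ℕ)] (Ω l)] [∀ l, IsAlgClosed (Ω l)]
    {C : (Y : RedAV p ν) → (κ : Type) → FCl Ω Y κ → Prop} (hC : IsCompatible Ω C)
    (l : Nat.Primes) (hR : IsRosatiPositive (Ω l) (atPrime C l))
    (hT : AreTate (Ω l) (atPrime C l)) (Y : RedAV p ν) : IndexTheorem (atPrime C l) Y := by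
  intro α hα r m hrm
  exact ⟨stable_all (hC.cycle l) α, fun S hS => index_four hC l hR hT hα hrm hS⟩

end

end Pool.Agent.J4H48.M4
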