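import Pool.Agent.J4H48.M4.Lag
import Pool.Agent.J4H48.M4.Data

/-!
# The rational bilinear form on the families of classes
-/

set_option autoImplicit false
set_option linter.unusedSectionVars false
set_option linter.unusedVariables false

namespace Pool.Agent.J4H48.M4

open NumberField Pool.Agent.H204R3.CM Pool.Agent.W547.KB Pool.Agent.W547.LD Pool.Agent.W547.HR
  Pool.Agent.W495.TA Module Pool.Agent.TH117.PO Pool.Agent.W976.TA Pool.Agent.W417.TA
  Pool.Agent.TH117.BL Pool.Agent.W495.TC Pool.Agent.W495.TB Pool.Agent.TH117.F5 Pool.Agent.N202.QR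
open scoped TensorProduct

noncomputable section

variable {p : ℕ} [Fact p.Prime] {ν : PadicAlgCl p ≃+* ℂ}

section lines

variable {T : Type} {Ω : T → Type} [∀ i, Field (Ω i)] [∀ i, CharZero (Ω i)] {L : Type} [Field L]
  [NumberField L] {C : (Y : RedAV p ν) → (κ : Type) → FCl Ω Y κ → Prop} {jO : ∀ i, L →+* Ω i}
  {Y : RedAV p ν} {κ : Type} [Fintype κ] [DecidableEq κ] {I : κ → Wt Y.X L}

theorem LnF.zero : LnF C jO Y I fun _ => 0 := by
  unfold LnF
  have h : semiF jO Y κ (fun _ => 0) (mono I) = 0 := by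
    ext i v
    change (0 : Ω i) * _ = 0
    rw [zero_mul]
  rw [h]
  exact Submodule.zero_mem _

theorem LnF.add {c d : ∀ i, Ω i} (h : LnF C jO Y I c) (h' : LnF C jO Y I d) :
    LnF C jO Y I fun i => c i + d i := by
  unfold LnF at *
  have h2 : semiF jO Y κ (fun i => c i + d i) (mono I) =
      semiF jO Y κ c (mono I) + semiF jO Y κ d (mono I) := by
    ext i v
    change (c i + d i) * jO i (mono I v) = c i * jO i (mono I v) + d i * jO i (mono I v)
    rw [add_mul]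
  rw [h2]
  exact Submodule.add_mem _ h h'

theorem LnF.ratSmul (a : ℚ) {c : ∀ i, Ω i} (h : LnF C jO Y I c) :
    LnF C jO Y I fun i => (a : Ω i) * c i := by
  unfold LnF at *
  have h2 : semiF jO Y κ (fun i => (a : Ω i) * c i) (mono I) =
      (a : L) • semiF jO Y κ c (mono I) := by
    ext i v
    rw [WF.smul_val]
    change (a : Ω i) * c i * jO i (mono I v) = jO i (a : L) * (c i * jO i (mono I v))
    rw [map_ratCast, mul_assoc]
  rw [h2]
  exact Submodule.smul_mem _ _ h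

end lines

variable {Ω : Nat.Primes → Type} [∀ l, Field (Ω l)] [∀ l, CharZero (Ω l)]
  [∀ l : Nat.Primes, Algebra ℚ_[(l : ℕ)] (Ω l)]

/-- The rational span of the families. -/
def spC (C : (Y : RedAV p ν) → (κ : Type) → FCl Ω Y κ → Prop) (Y : RedAV p ν) (κ : Type) :
    Submodule ℚ (FCl Ω Y κ) :=
  Submodule.span ℚ {z | C Y κ z}

theorem rat_smul_apply {Y : RedAV p ν} {κ : Type} (a : ℚ) (z : FCl Ω Y κ) (l : Nat.Primes)
    (v : κ → TM (Ω l) Y) : (a • z) l v = (a : Ω l) * z l v := by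
  change a • z l v = _
  rw [Rat.smul_def]

theorem rat_smul_eq {Y : RedAV p ν} {κ : Type} (a : ℚ) (z : FCl Ω Y κ) (l : Nat.Primes) :
    (a • z) l = (a : Ω l) • z l := by
  ext v
  exact rat_smul_apply a z l v

variable {L : Type} [Field L] [NumberField L] [IsCMField L] [IsGalois ℚ L] {j : L →+* ℂ}
  {C : (Y : RedAV p ν) → (κ : Type) → FCl Ω Y κ → Prop} (hC : IsCompatible Ω C)
  (jO : ∀ l, L →+* Ω l) {Y : RedAV p ν} (hY : Big Y.X j)
  (e : ∀ l, Basis (Wt Y.X L) (Ω l) (TM (Ω l) Y)) (h1 : ∀ l w, co (jO l) w (e l w) = 1)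
  (h0 : ∀ l w w', w ≠ w' → co (jO l) w (e l w') = 0)

include hC hY h1 h0

theorem lnF_sp {κ : Type} [Fintype κ] [DecidableEq κ] {z : FCl Ω Y κ} (hz : z ∈ spC C Y κ)
    {I : κ → Wt Y.X L} (hI : Function.Injective I) :
    LnF (rep (L ≃ₐ[ℚ] L) C) (jS jO) Y I
      fun i : Nat.Primes × (L ≃ₐ[ℚ] L) => z i.1 fun k => e i.1 (sw i.2 (I k)) := by
  have hC' : IsFam (fun i : Nat.Primes × (L ≃ₐ[ℚ] L) => Ω i.1) (rep (L ≃ₐ[ℚ] L) C) :=
    hC.toIsFam.rep 1
  let e' : ∀ i : Nat.Primes × (L ≃ₐ[ℚ] L), Basis (Wt Y.X L) (Ω i.1) (TM (Ω i.1) Y) := fun i =>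
    (e i.1).reindex (swE Y.X i.2)
  have he' : ∀ (i : Nat.Primes × (L ≃ₐ[ℚ] L)) (w : Wt Y.X L), e' i w = e i.1 (sw i.2 w) := by
    intro i w
    exact Basis.reindex_apply _ _ _
  have hinj : ∀ σ : L ≃ₐ[ℚ] L, Function.Injective (sw (X := Y.X) σ) := fun σ =>
    (swE Y.X σ).symm.injective
  have h1' : ∀ i w, co (jS jO i) w (e' i w) = 1 := by
    intro i w
    rw [he', co_jS]
    exact h1 _ _
  have h0' : ∀ i w w', w ≠ w' → co (jS jO i) w (e' i w') = 0 := by
    intro i w w' hw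
    rw [he', co_jS]
    exact h0 _ _ _ fun h => hw (hinj _ h)
  unfold spC at hz
  induction hz using Submodule.span_induction with
  | mem z hz =>
    have h2 := LnF_coef hC' j hY e' h1' h0' (z := fun i => z i.1) ⟨z, hz, fun i => rfl⟩ hI
    have h3 : (fun i : Nat.Primes × (L ≃ₐ[ℚ] L) => z i.1 fun k => e' i (I k)) =
        fun i : Nat.Primes × (L ≃ₐ[ℚ] L) => z i.1 fun k => e i.1 (sw i.2 (I k)) := by
      funext i
      simp only [he']
    rw [h3] at h2
    exact h2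
  | zero => exact LnF.zero
  | add z w _ _ hz hw => exact LnF.add hz hw
  | smul a z _ hz =>
    have h2 := LnF.ratSmul a hz
    have h3 : (fun i : Nat.Primes × (L ≃ₐ[ℚ] L) => (a • z) i.1 fun k => e i.1 (sw i.2 (I k))) =
        fun i : Nat.Primes × (L ≃ₐ[ℚ] L) => (a : Ω i.1) * z i.1 fun k => e i.1 (sw i.2 (I k)) := by
      funext i
      exact rat_smul_apply a z i.1 _
    rw [h3]
    exact h2

/-- The products of conjugate coefficients are independent of the prime number. -/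
theorem muF {κ : Type} [Fintype κ] [DecidableEq κ] {z w : FCl Ω Y κ} (hz : z ∈ spC C Y κ)
    (hw : w ∈ spC C Y κ) (I : κ → Wt Y.X L) : ∃ μ : L, ∀ l (σ : L ≃ₐ[ℚ] L),
      (z l fun k => e l (sw σ (I k))) * (w l fun k => e l (bar (sw σ (I k)))) =
        jO l (σ μ) := by
  by_cases hI : Function.Injective I
  · have hC' : IsFam (fun i : Nat.Primes × (L ≃ₐ[ℚ] L) => Ω i.1) (rep (L ≃ₐ[ℚ] L) C) :=
      hC.toIsFam.rep 1
    have hIb : Function.Injective fun k => bar (I k) := fun k k' h => hI (bar_injective h)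
    have hne : Nonempty (Nat.Primes × (L ≃ₐ[ℚ] L)) := ⟨(⟨2, Nat.prime_two⟩, 1)⟩
    obtain ⟨m, hm⟩ := two_linesF hC' j hY hI (lnF_sp hC jO hY e h1 h0 hz hI)
      (lnF_sp hC jO hY e h1 h0 hw hIb)
    refine ⟨m, fun l σ => ?_⟩
    have h2 := hm (l, σ)
    simp only [sw_bar j] at h2
    exact h2
  · refine ⟨0, fun l σ => ?_⟩
    rw [map_zero, map_zero]
    have h2 : (z l fun k => e l (sw σ (I k))) = 0 := by
      simp only [Function.Injective, not_forall] at hI
      obtain ⟨k, k', hk, hne⟩ := hI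
      refine (z l).map_eq_zero_of_eq _ ?_ hne
      rw [hk]
    rw [h2, zero_mul]

/-- Vanishing of a coefficient. -/
theorem coef_zero {κ : Type} [Fintype κ] [DecidableEq κ] {z w : FCl Ω Y κ} (hz : z ∈ spC C Y κ)
    (hw : w ∈ spC C Y κ) (I : κ → Wt Y.X L) (l : Nat.Primes)
    (h : (z l fun k => e l (I k)) * (z l fun k => e l (bar (I k))) = 0) :
    (z l fun k => e l (I k)) * (w l fun k => e l (bar (I k))) = 0 := by
  rcases mul_eq_zero.1 h with h2 | h2
  · rw [h2, zero_mul]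
  · obtain ⟨μ, hμ⟩ := muF hC jO hY e h1 h0 hz hw I
    have h3 := hμ l (cc L)
    have h4 := hμ l 1
    simp only [sw_one] at h4
    have h5 : ∀ k, sw (cc L) (I k) = bar (I k) := fun k => rfl
    simp only [h5, bar_bar] at h3
    rw [h2, zero_mul, eq_comm, map_eq_zero (jO l)] at h3
    have h6 : μ = 0 := (map_eq_zero (cc L)).1 h3
    rw [h4, h6, map_zero, map_zero]

omit hC hY h1 h0

variable (α : Y.X.H1)

/-- The form on the classes at one prime number. -/
def BO {κ : Type} [Fintype κ] [DecidableEq κ] (l : Nat.Primes) [Fintype (Wt Y.X L)]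
    (f g : (TM (Ω l) Y) [⋀^κ]→ₗ[Ω l] Ω l) : Ω l :=
  ∑ s : κ → Wt Y.X L, (f fun k => e l (s k)) * (g fun k => e l (bar (s k))) *
    (jO l (∏ k, ev α (s k)))⁻¹

section

variable {κ : Type} [Fintype κ] [DecidableEq κ] [Fintype (Wt Y.X L)]

theorem BO_add_left (l : Nat.Primes) (f f' g : (TM (Ω l) Y) [⋀^κ]→ₗ[Ω l] Ω l) :
    BO jO e α l (f + f') g = BO jO e α l f g + BO jO e α l f' g := by
  unfold BO
  rw [← Finset.sum_add_distrib]
  refine Finset.sum_congr rfl fun s _ => ?_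
  rw [AlternatingMap.add_apply]
  ring

theorem BO_add_right (l : Nat.Primes) (f g g' : (TM (Ω l) Y) [⋀^κ]→ₗ[Ω l] Ω l) :
    BO jO e α l f (g + g') = BO jO e α l f g + BO jO e α l f g' := by
  unfold BO
  rw [← Finset.sum_add_distrib]
  refine Finset.sum_congr rfl fun s _ => ?_
  rw [AlternatingMap.add_apply]
  ring

theorem BO_smul_left (l : Nat.Primes) (a : Ω l) (f g : (TM (Ω l) Y) [⋀^κ]→ₗ[Ω l] Ω l) :
    BO jO e α l (a • f) g = a * BO jO e α l f g := by
  unfold BO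
  rw [Finset.mul_sum]
  refine Finset.sum_congr rfl fun s _ => ?_
  rw [AlternatingMap.smul_apply, smul_eq_mul]
  ring

theorem BO_smul_right (l : Nat.Primes) (a : Ω l) (f g : (TM (Ω l) Y) [⋀^κ]→ₗ[Ω l] Ω l) :
    BO jO e α l f (a • g) = a * BO jO e α l f g := by
  unfold BO
  rw [Finset.mul_sum]
  refine Finset.sum_congr rfl fun s _ => ?_
  rw [AlternatingMap.smul_apply, smul_eq_mul]
  ring

theorem BO_symm (j : L →+* ℂ) (hα : IsPolar Y.X α) (heven : Even (Fintype.card κ)) (l : Nat.Primes)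
    (f g : (TM (Ω l) Y) [⋀^κ]→ₗ[Ω l] Ω l) :
    BO jO e α l f g = BO jO e α l g f := by
  unfold BO
  refine Fintype.sum_equiv (Equiv.arrowCongr (Equiv.refl κ)
    (Function.Involutive.toPerm bar bar_bar)) _ _ fun s => ?_
  change _ = (g fun k => e l (bar (s k))) * (f fun k => e l (bar (bar (s k)))) *
    (jO l (∏ k, ev α (bar (s k))))⁻¹
  have h2 : ∏ k, ev α (bar (s k)) = ∏ k, ev α (s k) := by
    have h3 : ∀ k, ev α (bar (s k)) = -1 * ev α (s k) := fun k => by
      rw [ev_bar_polar j hα, neg_one_mul]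
    rw [Finset.prod_congr rfl fun k _ => h3 k, Finset.prod_mul_distrib, Finset.prod_const,
      Finset.card_univ, heven.neg_one_pow, one_mul]
  simp only [h2, bar_bar]
  ring

include hC hY h1 h0 in
/-- The form is rational and independent of the prime number. -/
theorem BO_rat {z w : FCl Ω Y κ} (hz : z ∈ spC C Y κ) (hw : w ∈ spC C Y κ) :
    ∃ b : ℚ, ∀ l, BO jO e α l (z l) (w l) = (b : Ω l) := by
  choose μ hμ using fun I => muF hC jO hY e h1 h0 hz hw I
  have l0 : Nat.Primes := ⟨2, Nat.prime_two⟩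
  have hμ1 : ∀ I l, (z l fun k => e l (I k)) * (w l fun k => e l (bar (I k))) = jO l (μ I) := by
    intro I l
    have h2 := hμ I l 1
    simp only [sw_one] at h2
    exact h2
  have hμσ : ∀ (σ : L ≃ₐ[ℚ] L) I, σ (μ I) = μ fun k => sw σ (I k) := by
    intro σ I
    apply (jO l0).injective
    rw [← hμ I l0 σ, ← hμ1 (fun k => sw σ (I k)) l0]
  set b : L := ∑ s : κ → Wt Y.X L, μ s * (∏ k, ev α (s k))⁻¹ with hb
  have hfix : ∀ σ : L ≃ₐ[ℚ] L, σ b = b := by
    intro σ
    rw [hb, map_sum]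
    refine Fintype.sum_equiv (Equiv.arrowCongr (Equiv.refl κ) (swE Y.X σ).symm) _ _ fun s => ?_
    change _ = μ (fun k => sw σ (s k)) * (∏ k, ev α (sw σ (s k)))⁻¹
    rw [map_mul, hμσ, map_inv₀, map_prod]
    rfl
  obtain ⟨a, ha⟩ := rat_of_fixed hfix
  refine ⟨a, fun l => ?_⟩
  rw [← map_ratCast (jO l), ← ha, hb, map_sum]
  unfold BO
  refine Finset.sum_congr rfl fun s _ => ?_
  rw [map_mul, map_inv₀, hμ1]

end

end

end Pool.Agent.J4H48.M4
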