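import Pool.Agent.J4H48.M4.Chars

/-!
# Interpolation of equivariant functions of the characters by evaluations
-/

set_option autoImplicit false
set_option linter.unusedSectionVars false
set_option linter.unusedVariables false

namespace Pool.Agent.J4H48.M4

open NumberField Pool.Agent.H204R3.CM Pool.Agent.W547.KB Pool.Agent.W547.LD Pool.Agent.W547.HR
  Pool.Agent.W495.TA Module Pool.Agent.TH117.PO Pool.Agent.W976.TA Pool.Agent.W417.TA
  Pool.Agent.TH117.BL Pool.Agent.N202.QR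
open scoped TensorProduct

noncomputable section

variable {L : Type} [Field L] [NumberField L] [IsCMField L] [IsGalois ℚ L] {X : CMAV}
  (S : Finset (UU X →* L))

theorem span_top : Submodule.span L (Set.range fun a : UU X => fun χ : S => χ.1 a) = ⊤ := by
  classical
  set V := Submodule.span L (Set.range fun a : UU X => fun χ : S => χ.1 a) with hV
  have h1 : ∀ χ0 : S, (Pi.single χ0 (1 : L) : S → L) ∈ V := by
    intro χ0
    refine char_component (C := S) (fun χ => χ.1) (fun χ => (Pi.single χ (1 : L) : S → L)) V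
      (fun a => ?_) χ0 (fun χ h => Or.inl (Subtype.ext h))
    have h2 : ∑ χ : S, χ.1 a • (Pi.single χ (1 : L) : S → L) = fun χ : S => χ.1 a := by
      funext χ
      rw [Finset.sum_apply, Finset.sum_eq_single χ]
      · rw [Pi.smul_apply, Pi.single_eq_same, smul_eq_mul, mul_one]
      · intro χ' _ h
        rw [Pi.smul_apply, Pi.single_eq_of_ne (Ne.symm h), smul_zero]
      · intro h
        exact absurd (Finset.mem_univ _) h
    rw [h2]
    exact Submodule.subset_span ⟨a, rfl⟩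
  rw [eq_top_iff]
  intro f _
  have h2 : f = ∑ χ : S, f χ • (Pi.single χ (1 : L) : S → L) := by
    funext χ
    rw [Finset.sum_apply, Finset.sum_eq_single χ]
    · rw [Pi.smul_apply, Pi.single_eq_same, smul_eq_mul, mul_one]
    · intro χ' _ h
      rw [Pi.smul_apply, Pi.single_eq_of_ne (Ne.symm h), smul_zero]
    · intro h
      exact absurd (Finset.mem_univ _) h
  rw [h2]
  exact Submodule.sum_mem _ fun χ _ => Submodule.smul_mem _ _ (h1 χ)

/-- The rational interpolation. -/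
theorem lag_rat (hS : ∀ σ : L ≃ₐ[ℚ] L, ∀ χ ∈ S, act σ χ ∈ S) {f : (UU X →* L) → L}
    (hf : ∀ σ : L ≃ₐ[ℚ] L, ∀ χ ∈ S, f (act σ χ) = σ (f χ)) :
    ∃ c : UU X →₀ ℚ, ∀ χ ∈ S, f χ = c.sum fun a x => (x : L) * χ a := by
  classical
  have h1 : (fun χ : S => f χ.1) ∈ Submodule.span L
      (Set.range fun a : UU X => fun χ : S => χ.1 a) := by
    rw [span_top]
    trivial
  obtain ⟨l, hl⟩ := Finsupp.mem_span_range_iff_exists_finsupp.1 h1
  have h2 : ∀ χ ∈ S, f χ = ∑ a ∈ l.support, l a * χ a := by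
    intro χ hχ
    have h3 := congrFun hl ⟨χ, hχ⟩
    dsimp only at h3
    rw [← h3, Finsupp.sum, Finset.sum_apply]
    rfl
  -- the average
  have hinv : ∀ σ : L ≃ₐ[ℚ] L, ∀ χ ∈ S, f χ = ∑ a ∈ l.support, σ (l a) * χ a := by
    intro σ χ hχ
    have h3 : act σ (act σ⁻¹ χ) = χ := by
      rw [← act_mul, mul_inv_cancel, act_one]
    have h4 := hS σ⁻¹ χ hχ
    conv_lhs => rw [← h3]
    rw [hf σ _ h4, h2 _ h4, map_sum]
    refine Finset.sum_congr rfl fun a _ => ?_
    rw [map_mul, ← act_apply, h3]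
  let N : ℚ := (Fintype.card (L ≃ₐ[ℚ] L) : ℚ)
  have hN : N ≠ 0 := Nat.cast_ne_zero.2 Fintype.card_ne_zero
  let g : L → ℚ := fun x => Algebra.trace ℚ L x / N
  have hg0 : g 0 = 0 := by
    change Algebra.trace ℚ L 0 / N = 0
    rw [map_zero, zero_div]
  refine ⟨l.mapRange g hg0, fun χ hχ => ?_⟩
  rw [Finsupp.sum_mapRange_index (fun a => by rw [Rat.cast_zero, zero_mul]), Finsupp.sum]
  have h5 : (N : L) * f χ = ∑ a ∈ l.support, ((Algebra.trace ℚ L (l a) : ℚ) : L) * χ a := by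
    have h6 : ∀ a ∈ l.support, ((Algebra.trace ℚ L (l a) : ℚ) : L) * χ a =
        ∑ σ : L ≃ₐ[ℚ] L, σ (l a) * χ a := by
      intro a _
      rw [← Finset.sum_mul]
      congr 1
      have h7 := trace_eq_sum_automorphisms (K := ℚ) (L := L) (x := l a)
      rw [eq_ratCast] at h7
      exact h7
    rw [Finset.sum_congr rfl h6, Finset.sum_comm, ← Finset.sum_congr rfl fun σ _ => hinv σ χ hχ,
      Finset.sum_const, Finset.card_univ, nsmul_eq_mul]
    congr 1
    change ((Fintype.card (L ≃ₐ[ℚ] L) : ℚ) : L) = _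
    rw [Rat.cast_natCast]
  have hNL : (N : L) ≠ 0 := by exact_mod_cast hN
  apply mul_left_cancel₀ hNL
  rw [h5, Finset.mul_sum]
  refine Finset.sum_congr rfl fun a _ => ?_
  change _ = (N : L) * (((Algebra.trace ℚ L (l a) / N : ℚ) : L) * χ a)
  rw [Rat.cast_div]
  field_simp

variable {p : ℕ} [Fact p.Prime] {ν : PadicAlgCl p ≃+* ℂ}
  {Ω : Nat.Primes → Type} [∀ l, Field (Ω l)] [∀ l, CharZero (Ω l)]
  [∀ l : Nat.Primes, Algebra ℚ_[(l : ℕ)] (Ω l)]

/-- The `l`-adic interpolation. -/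
theorem lag_loc (hS : ∀ σ : L ≃ₐ[ℚ] L, ∀ χ ∈ S, act σ χ ∈ S) (jO : ∀ l, L →+* Ω l)
    (l : Nat.Primes) {f : (UU X →* L) → Ω l}
    (hf : ∀ χ ∈ S, (fun σ => f (act σ χ)) ∈ SS jO l) :
    ∃ c : UU X →₀ ℚ_[(l : ℕ)], ∀ χ ∈ S, f χ = c.sum fun a x =>
      algebraMap ℚ_[(l : ℕ)] (Ω l) x * jO l (χ a) := by
  classical
  set V : Submodule ℚ_[(l : ℕ)] (S → Ω l) :=
    Submodule.span ℚ_[(l : ℕ)] (Set.range fun a : UU X => fun χ : S => jO l (χ.1 a)) with hV
  -- equivariant functions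
  have h1 : ∀ g : (UU X →* L) → L, (∀ σ : L ≃ₐ[ℚ] L, ∀ χ ∈ S, g (act σ χ) = σ (g χ)) →
      (fun χ : S => jO l (g χ.1)) ∈ V := by
    intro g hg
    obtain ⟨c, hc⟩ := lag_rat S hS hg
    have h2 : (fun χ : S => jO l (g χ.1)) = ∑ a ∈ c.support, ((c a : ℚ) : ℚ_[(l : ℕ)]) •
        (fun χ : S => jO l (χ.1 a)) := by
      funext χ
      rw [hc χ.1 χ.2, Finsupp.sum, map_sum, Finset.sum_apply]
      refine Finset.sum_congr rfl fun a _ => ?_
      rw [map_mul, map_ratCast, Pi.smul_apply, Algebra.smul_def, map_ratCast]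
    rw [h2]
    exact Submodule.sum_mem _ fun a _ => Submodule.smul_mem _ _ (Submodule.subset_span ⟨a, rfl⟩)
  -- the functions supported on the orbit of a character
  let g : (UU X →* L) → L → (UU X →* L) → L := fun χ m χ' =>
    ∑ σ : L ≃ₐ[ℚ] L, if act σ χ = χ' then σ m else 0
  have hg : ∀ χ m (τ : L ≃ₐ[ℚ] L) χ', g χ m (act τ χ') = τ (g χ m χ') := by
    intro χ m τ χ'
    change (∑ σ : L ≃ₐ[ℚ] L, if act σ χ = act τ χ' then σ m else 0) =
      τ (∑ σ : L ≃ₐ[ℚ] L, if act σ χ = χ' then σ m else 0)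
    rw [map_sum]
    refine Fintype.sum_equiv (Equiv.mulLeft τ⁻¹) _ _ fun σ => ?_
    have h2 : (Equiv.mulLeft τ⁻¹) σ = τ⁻¹ * σ := rfl
    have h3 : (act (τ⁻¹ * σ) χ = χ') ↔ (act σ χ = act τ χ') := by
      rw [act_mul]
      constructor
      · intro h
        rw [← h, ← act_mul, mul_inv_cancel, act_one]
      · intro h
        rw [h, ← act_mul, inv_mul_cancel, act_one]
    rw [h2]
    by_cases h4 : act σ χ = act τ χ'
    · rw [if_pos h4, if_pos (h3.2 h4)]
      change _ = τ (τ⁻¹ (σ m))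
      exact (DFunLike.congr_fun (mul_inv_cancel τ) (σ m)).symm
    · rw [if_neg h4, if_neg fun h => h4 (h3.1 h), map_zero]
  -- the part of the function on the orbit
  have h2 : ∀ χ ∈ S, ∀ x : (L ≃ₐ[ℚ] L) → Ω l, x ∈ SS jO l →
      (fun χ' : S => ∑ σ : L ≃ₐ[ℚ] L, if act σ χ = χ'.1 then x σ else 0) ∈ V := by
    intro χ hχ x hx
    induction hx using AddSubgroup.closure_induction with
    | mem x hx =>
      obtain ⟨m, q, h⟩ := hx
      have h3 : (fun χ' : S => ∑ σ : L ≃ₐ[ℚ] L, if act σ χ = χ'.1 then x σ else 0) =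
          q • fun χ' : S => jO l (g χ m χ'.1) := by
        funext χ'
        rw [Pi.smul_apply, Algebra.smul_def]
        change _ = _ * jO l (∑ σ : L ≃ₐ[ℚ] L, if act σ χ = χ'.1 then σ m else 0)
        rw [map_sum, Finset.mul_sum]
        refine Finset.sum_congr rfl fun σ _ => ?_
        split_ifs
        · rw [h, mul_comm]
        · rw [map_zero, mul_zero]
      rw [h3]
      exact Submodule.smul_mem _ _ (h1 _ fun σ χ' _ => hg χ m σ χ')
    | zero =>
      have h3 : (fun χ' : S => ∑ σ : L ≃ₐ[ℚ] L, if act σ χ = χ'.1 then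
          (0 : (L ≃ₐ[ℚ] L) → Ω l) σ else 0) = 0 := by
        funext χ'
        simp
      rw [h3]
      exact Submodule.zero_mem _
    | add x y _ _ hx hy =>
      have h3 : (fun χ' : S => ∑ σ : L ≃ₐ[ℚ] L, if act σ χ = χ'.1 then (x + y) σ else 0) =
          (fun χ' : S => ∑ σ : L ≃ₐ[ℚ] L, if act σ χ = χ'.1 then x σ else 0) +
            fun χ' : S => ∑ σ : L ≃ₐ[ℚ] L, if act σ χ = χ'.1 then y σ else 0 := by
        funext χ'
        rw [Pi.add_apply, ← Finset.sum_add_distrib]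
        refine Finset.sum_congr rfl fun σ _ => ?_
        split_ifs <;> simp
      rw [h3]
      exact Submodule.add_mem _ hx hy
    | neg x _ hx =>
      have h3 : (fun χ' : S => ∑ σ : L ≃ₐ[ℚ] L, if act σ χ = χ'.1 then (-x) σ else 0) =
          -fun χ' : S => ∑ σ : L ≃ₐ[ℚ] L, if act σ χ = χ'.1 then x σ else 0 := by
        funext χ'
        rw [Pi.neg_apply, ← Finset.sum_neg_distrib]
        refine Finset.sum_congr rfl fun σ _ => ?_
        split_ifs <;> simp
      rw [h3]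
      exact Submodule.neg_mem _ hx
  -- the sum over all characters
  have h3 : (fun χ' : S => (Fintype.card (L ≃ₐ[ℚ] L) : Ω l) * f χ'.1) ∈ V := by
    have h4 : (fun χ' : S => (Fintype.card (L ≃ₐ[ℚ] L) : Ω l) * f χ'.1) =
        ∑ χ : S, fun χ' : S => ∑ σ : L ≃ₐ[ℚ] L, if act σ χ.1 = χ'.1 then f (act σ χ.1) else 0 := by
      funext χ'
      rw [Finset.sum_apply, Finset.sum_comm]
      have h5 : ∀ σ : L ≃ₐ[ℚ] L, (∑ χ : S, if act σ χ.1 = χ'.1 then f (act σ χ.1) else 0) =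
          f χ'.1 := by
        intro σ
        have h6 : act σ (act σ⁻¹ χ'.1) = χ'.1 := by
          rw [← act_mul, mul_inv_cancel, act_one]
        rw [Finset.sum_eq_single (⟨act σ⁻¹ χ'.1, hS _ _ χ'.2⟩ : S)]
        · rw [if_pos h6, h6]
        · intro χ _ hχ
          refine if_neg fun h => hχ (Subtype.ext ?_)
          exact act_injective σ (h.trans h6.symm)
        · intro h
          exact absurd (Finset.mem_univ _) h
      rw [Finset.sum_congr rfl fun σ _ => h5 σ, Finset.sum_const, Finset.card_univ, nsmul_eq_mul]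
    rw [h4]
    exact Submodule.sum_mem _ fun χ _ => h2 χ.1 χ.2 _ (hf χ.1 χ.2)
  have h4 : (fun χ' : S => f χ'.1) ∈ V := by
    have h5 : (fun χ' : S => f χ'.1) = ((Fintype.card (L ≃ₐ[ℚ] L) : ℚ_[(l : ℕ)]))⁻¹ •
        fun χ' : S => (Fintype.card (L ≃ₐ[ℚ] L) : Ω l) * f χ'.1 := by
      funext χ'
      rw [Pi.smul_apply, Algebra.smul_def, map_inv₀, map_natCast, ← mul_assoc, inv_mul_cancel₀,
        one_mul]
      exact Nat.cast_ne_zero.2 Fintype.card_ne_zero
    rw [h5]
    exact Submodule.smul_mem _ _ h3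
  obtain ⟨c, hc⟩ := Finsupp.mem_span_range_iff_exists_finsupp.1 h4
  refine ⟨c, fun χ hχ => ?_⟩
  have h5 := congrFun hc ⟨χ, hχ⟩
  dsimp only at h5
  rw [← h5, Finsupp.sum, Finsupp.sum, Finset.sum_apply]
  refine Finset.sum_congr rfl fun a _ => ?_
  rw [Pi.smul_apply, Algebra.smul_def]

end

end Pool.Agent.J4H48.M4
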