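import Pool.Agent.J4H48.M4.Asm

/-!
# The pairing of two primitive classes
-/

set_option autoImplicit false
set_option linter.unusedSectionVars false
set_option linter.unusedVariables false

namespace Pool.Agent.J4H48.M4

open NumberField Pool.Agent.H204R3.CM Pool.Agent.W547.KB Pool.Agent.W547.LD Pool.Agent.W547.HR
  Pool.Agent.W495.TA Module Pool.Agent.TH117.PO Pool.Agent.W976.TA Equiv
open scoped TensorProduct

noncomputable section

section swap

variable {κ μ H R : Type} [Fintype κ] [DecidableEq κ] [Fintype μ] [DecidableEq μ] [CommRing R]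

theorem sign_sumComm (h : Even (Fintype.card κ)) :
    Perm.sign (Equiv.sumComm κ κ : Perm (κ ⊕ κ)) = 1 := by
  have h1 : (Equiv.sumComm κ κ : Perm (κ ⊕ κ)) =
      (Equiv.boolProdEquivSum κ).permCongr (Equiv.prodCongrLeft fun _ : κ => Equiv.boolNot) := by
    ext x
    rcases x with x | x <;> rfl
  have h2 : Perm.sign Equiv.boolNot = -1 := by decide
  rw [h1, Perm.sign_permCongr, Perm.sign_prodCongrLeft, h2, Finset.prod_const, Finset.card_univ,
    h.neg_one_pow]

/-- The exchange of the first two blocks. -/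
def swapB (κ μ : Type) : Perm (κ ⊕ (κ ⊕ μ)) :=
  (Equiv.sumAssoc κ κ μ).permCongr (Perm.sumCongr (Equiv.sumComm κ κ) 1)

theorem sign_swapB (h : Even (Fintype.card κ)) : Perm.sign (swapB κ μ) = 1 := by
  unfold swapB
  rw [Perm.sign_permCongr, Perm.sign_sumCongr, sign_sumComm h, map_one, one_mul]

theorem altSum_swap (h : Even (Fintype.card κ)) (f g : (κ → H) → R) (P : (μ → H) → R)
    (v : κ ⊕ (κ ⊕ μ) → H) :
    altSum (times f (times g P)) v = altSum (times g (times f P)) v := by
  unfold altSum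
  refine Fintype.sum_equiv (Equiv.mulRight (swapB κ μ)) _ _ fun σ => ?_
  have h2 : (Equiv.mulRight (swapB κ μ)) σ = σ * swapB κ μ := rfl
  rw [h2, map_mul, sign_swapB h, mul_one]
  unfold times
  change _ * (f (fun p => v (σ (Sum.inl p))) * (g (fun p => v (σ (Sum.inr (Sum.inl p)))) *
    P (fun q => v (σ (Sum.inr (Sum.inr q)))))) =
    _ * (g (fun p => v (σ (Sum.inr (Sum.inl p)))) * (f (fun p => v (σ (Sum.inl p))) *
    P (fun q => v (σ (Sum.inr (Sum.inr q))))))
  ring

end swap

section add

variable {κ μ H R : Type} [Fintype κ] [DecidableEq κ] [Fintype μ] [DecidableEq μ] [CommRing R]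

theorem altSum_add (g h : (κ → H) → R) (v : κ → H) :
    altSum (fun w => g w + h w) v = altSum g v + altSum h v := by
  unfold altSum
  rw [← Finset.sum_add_distrib]
  refine Finset.sum_congr rfl fun σ _ => ?_
  ring

theorem altSum_square (f g : (κ → H) → R) (P : (μ → H) → R) (v : κ ⊕ (κ ⊕ μ) → H)
    (h : Even (Fintype.card κ)) :
    altSum (times (fun w => f w + g w) (times (fun w => f w + g w) P)) v =
      altSum (times f (times f P)) v + altSum (times g (times g P)) v +
        2 * altSum (times f (times g P)) v := by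
  have h1 : (times (fun w => f w + g w) (times (fun w => f w + g w) P)) =
      fun v : κ ⊕ (κ ⊕ μ) → H => (times f (times f P) v + times g (times g P) v) +
        (times f (times g P) v + times g (times f P) v) := by
    funext w
    unfold times
    ring
  rw [h1, altSum_add, altSum_add, altSum_add, altSum_swap h g f P v]
  ring

end add

variable {p : ℕ} [Fact p.Prime] {ν : PadicAlgCl p ≃+* ℂ} {Ω : Type} [Field Ω] [CharZero Ω]
  {C : (Y : RedAV p ν) → (κ : Type) → ((TM Ω Y) [⋀^κ]→ₗ[Ω] Ω) → Prop}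
  {L : Type} [Field L] [NumberField L] [IsCMField L] [IsGalois ℚ L]
  {jO : L →+* Ω} {j : L →+* ℂ}

/-- The positive constant in the Hodge-Riemann relations. -/
def DD0 (r m : ℕ) : ℚ := (m.factorial : ℕ) * (Fintype.card (Perm (Fin r × Fin 2)) : ℕ) /
    (((m + len r).factorial : ℕ) * 2 ^ (len r))

theorem DD0_pos (r m : ℕ) : 0 < DD0 r m := by
  unfold DD0
  have e1 : 0 < ((m.factorial : ℕ) : ℚ) := Nat.cast_pos.2 (Nat.factorial_pos _)
  have e2 : 0 < ((Fintype.card (Perm (Fin r × Fin 2)) : ℕ) : ℚ) :=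
    Nat.cast_pos.2 Fintype.card_pos
  have e3 : 0 < (((m + len r).factorial : ℕ) : ℚ) := Nat.cast_pos.2 (Nat.factorial_pos _)
  positivity

/-- The square of a primitive class. -/
theorem self_pairing {Y : RedAV p ν} (hB : Big Y.X j)
    (e : Basis (Wt Y.X L) Ω (TM Ω Y)) (h1 : ∀ w, co jO w (e w) = 1)
    (h0 : ∀ w w', w ≠ w' → co jO w (e w') = 0) {α : Y.X.H1}
    (hα : IsPolar Y.X α) {r m : ℕ} {z : (TM Ω Y) [⋀^Fin r × Fin 2]→ₗ[Ω] Ω}
    (hprim : IsPrim α m z)
    (v : (Fin r × Fin 2) ⊕ ((Fin r × Fin 2) ⊕ (Fin m × Fin 2)) → Y.X.H1) :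
    (-1) ^ r * altSum (times (res z) (times (res z)
        (powE (castE Ω (riemannForm Y.X α)) m))) v =
      ((DD0 r m : ℚ) : Ω) * (∑ s : Fin r × Fin 2 → Wt Y.X L, (z fun k => e (s k)) *
        (z fun k => e (bar (s k))) * (jO (∏ k, ev α (s k)))⁻¹) *
        altSum (times (powE (castE Ω (riemannForm Y.X α)) r)
        (times (powE (castE Ω (riemannForm Y.X α)) r)
          (powE (castE Ω (riemannForm Y.X α)) m))) v := by
  classical
  obtain ⟨θ, hθ⟩ := exists_theta (jO := jO) j hα
  have hθr := res_theta j hB hθ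
  have hθ1 : ∀ x y : Y.X.H1, θ ![(1 : Ω) ⊗ₜ[ℚ] x, (1 : Ω) ⊗ₜ[ℚ] y] =
      castE Ω (riemannForm Y.X α) x y := by
    intro x y
    rw [castE, ← hθr]
    unfold res
    congr 1
    funext k
    fin_cases k <;> rfl
  have hpow : ∀ (k : ℕ) (v : Fin k × Fin 2 → Y.X.H1),
      powE (fun x y => θ ![x, y]) k (fun i => (1 : Ω) ⊗ₜ[ℚ] v i) =
        powE (castE Ω (riemannForm Y.X α)) k v := by
    intro k v
    unfold powE
    exact Finset.prod_congr rfl fun i _ => hθ1 _ _
  -- the primitivity over `Ω`
  have hprim' : ∀ v, altSum (times z (powE (fun x y => θ ![x, y]) (m + 1))) v = 0 := by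
    have h2 : (times z (powE (fun x y => θ ![x, y]) (m + 1)) : _ → Ω) =
        RK.mulM z.toMultilinearMap (RK.pw θ.toMultilinearMap (m + 1)) := by
      funext v
      rw [RK.mulM_apply, RK.pw_apply]
      unfold times powE
      congr 1
      refine Finset.prod_congr rfl fun i _ => ?_
      change θ _ = θ _
      congr 1
      funext k
      fin_cases k <;> rfl
    rw [h2]
    refine ext_altSum _ fun v => ?_
    rw [← h2, ← hprim v]
    unfold altSum
    refine Finset.sum_congr rfl fun σ _ => ?_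
    congr 1
    unfold times
    rw [hpow]
    rfl
  have hmain := RK.hr_basis e θ (JJ jO e α)
    (fun u w => JJ_spec e h1 h0 hα (fun w => ev_polar_ne j hα w) hθ u w) r m z hprim'
    (fun i => (1 : Ω) ⊗ₜ[ℚ] v i)
  have e1 : altSum (times z (times z (powE (fun a b => θ ![a, b]) m)))
      (fun i => (1 : Ω) ⊗ₜ[ℚ] v i) = altSum (times (res z) (times (res z)
      (powE (castE Ω (riemannForm Y.X α)) m))) v := by
    unfold altSum
    refine Finset.sum_congr rfl fun σ _ => ?_
    congr 1
    unfold times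
    rw [hpow]
    rfl
  have e2 : altSum (times (powE (fun a b => θ ![a, b]) r)
        (times (powE (fun a b => θ ![a, b]) r) (powE (fun a b => θ ![a, b]) m)))
      (fun i => (1 : Ω) ⊗ₜ[ℚ] v i) = altSum (times (powE (castE Ω (riemannForm Y.X α)) r)
      (times (powE (castE Ω (riemannForm Y.X α)) r)
        (powE (castE Ω (riemannForm Y.X α)) m))) v := by
    unfold altSum
    refine Finset.sum_congr rfl fun σ _ => ?_
    congr 1
    unfold times
    rw [hpow, hpow, hpow]
  rw [e1, e2] at hmain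
  rw [hmain]
  have e3 : ∑ s : Fin r × Fin 2 → Wt Y.X L, (z fun p => e (s p)) *
      (z fun p => JJ jO e α (e (s p))) = ∑ s : Fin r × Fin 2 → Wt Y.X L, (z fun k => e (s k)) *
        (z fun k => e (bar (s k))) * (jO (∏ k, ev α (s k)))⁻¹ := by
    refine Finset.sum_congr rfl fun s _ => ?_
    rw [x_JJ e h1 h0, map_prod]
    ring
  have e4 : ∀ x : Ω, RK.cst r m x = ((DD0 r m : ℚ) : Ω) * x := by
    intro x
    unfold RK.cst DD0
    push_cast
    ring
  rw [e4]
  congr 2

end

end Pool.Agent.J4H48.M4
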