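import Pool.Agent.J4H48.M4.Chars
import Pool.Agent.J4H48.M4.Dec

/-!
# The word of Hodge type belonging to a word of Tate type
-/

set_option autoImplicit false
set_option linter.unusedSectionVars false
set_option linter.unusedVariables false

namespace Pool.Agent.J4H48.M4

open NumberField Pool.Agent.H204R3.CM Pool.Agent.W547.KB Pool.Agent.W547.LD Pool.Agent.W547.HR
  Pool.Agent.W495.TA Module Pool.Agent.TH117.PO Pool.Agent.W976.TA Pool.Agent.W417.TA
  Pool.Agent.TH117.BL Pool.Agent.W495.TC Pool.Agent.W495.TB Pool.Agent.TH117.F5 Pool.Agent.N202.QR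
open scoped TensorProduct

noncomputable section

variable {p : ℕ} [Fact p.Prime] {ν : PadicAlgCl p ≃+* ℂ}
  {L : Type} [Field L] [NumberField L] [IsCMField L] [IsGalois ℚ L] {j : L →+* ℂ}

/-! ### Counting -/

section count

variable {G : Type}

open Classical in
/-- The odd indicator function. -/
def gf (f t : G → ℤ) : ℤ := (if t = f then 1 else 0) - (if t = -f then 1 else 0)

theorem gf_neg (f t : G → ℤ) : gf f (-t) = -gf f t := by
  classical
  unfold gf
  have h1 : -t = f ↔ t = -f := neg_eq_iff_eq_neg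
  have h2 : -t = -f ↔ t = f := neg_inj
  simp only [h1, h2]
  ring

theorem dcnt_sum {κ : Type} [Fintype κ] (t : κ → G → ℤ) (f : G → ℤ) :
    dcnt t f = ∑ k, gf f (t k) := by
  classical
  unfold dcnt gf
  rw [card_eq_sum, card_eq_sum, ← Finset.sum_sub_distrib]

end count

section alg

variable {Ω : Type} [Field Ω] [CharZero Ω] (jO : L →+* Ω)

/-- The monomials of the words on a product. -/
theorem alg_K0 {Y Y' : RedAV p ν} (hY : Big Y.X j) (hY' : Big Y'.X j) {κ κ' : Type} [Fintype κ]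
    [DecidableEq κ] [Fintype κ'] [DecidableEq κ'] {s : κ → Wt Y.X L}
    (heven : Even (Fintype.card κ)) {J : κ' → Wt Y'.X L} (heven' : Even (Fintype.card κ'))
    (hd : ∀ f, dcnt (fun k => tf p ν j (St j (J k))) f =
      dcnt (fun k => tf p ν j (St j (s k))) f) :
    Alg Ω (prodR Y' Y) (κ' ⊕ κ)
      (monoO jO (Sum.elim (fun k => inlW (J k)) fun k => inrW (bar (s k)))) := by
  classical
  have hclosed := closedM (p := p) (ν := ν) j jO
  let t : κ' ⊕ κ → (L ≃ₐ[ℚ] L) → ℤ := Sum.elim (fun k => tf p ν j (St j (J k)))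
    fun k => tf p ν j (St j (bar (s k)))
  have hcan : ∀ (X : CMAV) (w : Wt X L), PairCancel (L ≃ₐ[ℚ] L) (AlgM p ν j jO)
      (tf p ν j (St j w)) := by
    rintro X ⟨i, φ⟩
    rw [tf_nn X i φ]
    exact cancel_nn j jO (X.factor i) φ
  have h1 : GenD (AlgM p ν j jO) {f | PairCancel (L ≃ₐ[ℚ] L) (AlgM p ν j jO) f} (dcnt t) := by
    have h2 : dcnt t = 0 := by
      funext f
      rw [dcnt_sum, Fintype.sum_sum_type]
      have h3 := hd f
      rw [dcnt_sum, dcnt_sum] at h3
      have h4 : ∑ k, gf f (t (Sum.inr k)) = -∑ k, gf f (tf p ν j (St j (s k))) := by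
        rw [← Finset.sum_neg_distrib]
        refine Finset.sum_congr rfl fun k _ => ?_
        change gf f (tf p ν j (St j (bar (s k)))) = _
        rw [tf_bar, gf_neg]
      rw [h4]
      change ∑ k, gf f (tf p ν j (St j (J k))) + _ = 0
      rw [h3, add_neg_cancel]
    rw [h2]
    exact GenD.zero
  have h2 : AlgM p ν j jO (κ' ⊕ κ) t := by
    refine @of_genD _ _ {f | PairCancel (L ≃ₐ[ℚ] L) (AlgM p ν j jO) f} hclosed
      (fun f hf => hf) (κ' ⊕ κ) _ t ?_ ?_ h1
    · rintro (k | k)
      · exact hcan _ _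
      · exact hcan _ _
    · rw [Nat.card_eq_fintype_card, Fintype.card_sum]
      exact heven'.add heven
  refine @h2 _ _ (prodR Y' Y) (big_prodR hY' hY) _ ?_
  rintro (k | k)
  · rfl
  · rfl

end alg

theorem tf_tr (σ : L ≃ₐ[ℚ] L) (S : Set (L ≃ₐ[ℚ] L)) (τ : L ≃ₐ[ℚ] L) :
    tf p ν j (tr σ S) τ = tf p ν j S (τ * σ) := by
  classical
  unfold tf
  refine Finset.sum_congr rfl fun d _ => ?_
  have h1 : d * τ ∈ tr σ S ↔ d * (τ * σ) ∈ S := by
    rw [mem_tr, mul_assoc]
  simp only [h1]

theorem tf_dsum (S : Set (L ≃ₐ[ℚ] L)) (τ : L ≃ₐ[ℚ] L) :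
    tf p ν j S τ = dsum (Dec p ν j) (pmT S) τ := rfl

theorem sw_bar (j : L →+* ℂ) {X : CMAV} (σ : L ≃ₐ[ℚ] L) (w : Wt X L) :
    sw σ (bar w) = bar (sw σ w) := by
  have h2 : bar w = sw (cc L) w := rfl
  have h3 : bar (sw σ w) = sw (cc L) (sw σ w) := rfl
  rw [h2, h3, ← sw_mul, ← sw_mul, cc_comm j]

theorem cw_sw {X : CMAV} {κ : Type} [Fintype κ] (σ : L ≃ₐ[ℚ] L) (s : κ → Wt X L) (w : Wt X L) :
    Pool.Agent.J4H48.M4.cw (fun k => sw σ (s k)) (sw σ w) = Pool.Agent.J4H48.M4.cw s w := by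
  classical
  unfold Pool.Agent.J4H48.M4.cw
  refine Finset.sum_congr rfl fun k _ => ?_
  have h1 : sw σ (s k) = sw σ w ↔ s k = w := (swE X σ).symm.injective.eq_iff
  simp only [h1]

theorem mm_sw (j : L →+* ℂ) {X : CMAV} {κ : Type} [Fintype κ] (σ : L ≃ₐ[ℚ] L) (s : κ → Wt X L)
    (w : Wt X L) : mm (fun k => sw σ (s k)) (sw σ w) = mm s w := by
  unfold mm
  rw [← sw_bar j, cw_sw, cw_sw]

theorem cw_inj {X : CMAV} {κ : Type} [Fintype κ] {s : κ → Wt X L} (hs : Function.Injective s)
    (w : Wt X L) : Pool.Agent.J4H48.M4.cw s w = 0 ∨ Pool.Agent.J4H48.M4.cw s w = 1 := by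
  classical
  unfold Pool.Agent.J4H48.M4.cw
  by_cases h : ∃ k, s k = w
  · obtain ⟨k, rfl⟩ := h
    right
    rw [Finset.sum_eq_single k]
    · rw [if_pos rfl]
    · intro k' _ hk
      exact if_neg fun h => hk (hs h)
    · intro h
      exact absurd (Finset.mem_univ _) h
  · left
    exact Finset.sum_eq_zero fun k _ => if_neg fun h' => h ⟨k, h'⟩

theorem mm_inj {X : CMAV} {κ : Type} [Fintype κ] {s : κ → Wt X L} (hs : Function.Injective s)
    (w : Wt X L) : mm s w = 0 ∨ mm s w = 1 ∨ mm s w = -1 := by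
  unfold mm
  rcases cw_inj hs w with h | h <;> rcases cw_inj hs (bar w) with h' | h' <;> rw [h, h'] <;> simp

/-- Sums over the weights with odd part one. -/
theorem sum_one {X : CMAV} [Fintype (Wt X L)] {κ : Type} [Fintype κ] {s : κ → Wt X L}
    (hs : Function.Injective s) [Fintype {w : Wt X L // mm s w = 1}] {g : Wt X L → ℤ}
    (hg : ∀ w, g (bar w) = -g w) :
    ∑ w : {w : Wt X L // mm s w = 1}, g w.1 = ∑ k, g (s k) := by
  classical
  have h1 := odd_sum s hg
  have h2 : ∑ w, mm s w * g w = 2 * ∑ w : {w : Wt X L // mm s w = 1}, g w.1 := by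
    have h3 : ∀ w, mm s w * g w = (if mm s w = 1 then g w else 0) +
        (if mm s (bar w) = 1 then g (bar w) else 0) := by
      intro w
      rw [mm_bar, hg]
      rcases mm_inj hs w with h | h | h <;> rw [h] <;> simp
    rw [Finset.sum_congr rfl fun w _ => h3 w, Finset.sum_add_distrib]
    have h4 : ∑ w, (if mm s (bar w) = 1 then g (bar w) else 0) =
        ∑ w, if mm s w = 1 then g w else 0 :=
      Fintype.sum_equiv (Function.Involutive.toPerm bar bar_bar) _ _ fun w => rfl
    have h5 : ∑ w : {w : Wt X L // mm s w = 1}, g w.1 = ∑ w, if mm s w = 1 then g w else 0 := by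
      rw [← Finset.sum_filter]
      exact (Finset.sum_subtype (Finset.univ.filter fun w => mm s w = 1)
        (fun w => by simp) g).symm
    rw [h4, h5]
    ring
  rw [h2] at h1
  linarith

/-- **The word of Hodge type.** -/
theorem exists_hodge_word {Y : RedAV p ν} (hY : Big Y.X j) {κ : Type} [Fintype κ] [DecidableEq κ]
    {s : κ → Wt Y.X L} (hs : Function.Injective s)
    (hbal : ∀ g, ∑ k, tf p ν j (St j (s k)) g = 0) (heven : Even (Fintype.card κ)) :
    ∃ (κ' : Type) (_ : Fintype κ') (_ : DecidableEq κ') (Y' : RedAV p ν) (_ : Big Y'.X j)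
      (J : κ' → Wt Y'.X L), Function.Injective J ∧ Balanced (fun k => St j (J k)) ∧
      (∀ σ : L ≃ₐ[ℚ] L, act σ (chu s) = chu s → ∃ π : Equiv.Perm κ', ∀ k, sw σ (J k) = J (π k)) ∧
      ∀ (σ : L ≃ₐ[ℚ] L) (s' : κ → Wt Y.X L), chu s' = act σ (chu s) →
        ∀ f, dcnt (fun k => tf p ν j (St j (sw σ (J k)))) f =
          dcnt (fun k => tf p ν j (St j (s' k))) f := by
  classical
  have : Finite (Wt Y.X L) := Pool.Agent.W67.TA.finite_wt j hY
  let _ : Fintype (Wt Y.X L) := Fintype.ofFinite _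
  let N : Subgroup (L ≃ₐ[ℚ] L) :=
    { carrier := {σ | act σ (chu s) = chu s}
      one_mem' := rfl
      mul_mem' := by
        intro σ τ h1 h2
        change act (σ * τ) (chu s) = chu s
        rw [act_mul, show act τ (chu s) = chu s from h2, show act σ (chu s) = chu s from h1]
      inv_mem' := by
        intro σ h1
        change act σ⁻¹ (chu s) = chu s
        conv_lhs => rw [← show act σ (chu s) = chu s from h1]
        rw [← act_mul, inv_mul_cancel, act_one] }
  have hN : ∀ σ, σ ∈ N ↔ act σ (chu s) = chu s := fun σ => Iff.rfl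
  have hNm : ∀ σ ∈ N, ∀ w, mm s (sw σ w) = mm s w := by
    intro σ hσ w
    have h1 : chu (fun k => sw σ (s k)) = chu s := by
      rw [chu_sw]
      exact (hN σ).1 hσ
    have h2 := mm_of_chu j hY h1
    exact (congrFun h2 (sw σ w)).symm.trans (mm_sw j σ s w)
  let κ0 := {w : Wt Y.X L // mm s w = 1}
  -- the function on the group
  let bs : Wt Y.X L → (L ≃ₐ[ℚ] L) → ℤ := fun w σ => pmT (St j w) σ
  have hbs : ∀ w σ, bs w σ = if σ ∈ St j w then (1 : ℤ) else -1 := fun w σ => rfl
  have hbsb : ∀ σ w, bs (bar w) σ = -bs w σ := by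
    intro σ w
    rw [hbs, hbs]
    have h1 := isHalf_St j w σ
    have h2 : σ ∈ St j (bar w) ↔ cc L * σ ∈ St j w := by
      have h3 : bar w = sw (cc L) w := rfl
      rw [h3, St_sw, mem_tr, cc_comm j]
    rw [h2]
    by_cases h3 : σ ∈ St j w
    · rw [if_pos h3, if_neg (h1.1 h3)]
    · rw [if_neg h3, if_pos (by
        by_contra h4
        exact h3 (h1.2 h4)), neg_neg]
  let h : (L ≃ₐ[ℚ] L) → ℤ := fun σ => ∑ w : κ0, bs w.1 σ
  have hh : ∀ σ, h σ = ∑ k, bs (s k) σ := fun σ =>
    sum_one hs (g := fun w => bs w σ) (hbsb σ)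
  have hpar : ∀ σ, Even (h σ) := by
    intro σ
    rw [hh]
    have h1 : ∀ k, bs (s k) σ = 2 * (if σ ∈ St j (s k) then (1 : ℤ) else 0) - 1 := by
      intro k
      rw [hbs]
      split_ifs <;> ring
    rw [Finset.sum_congr rfl fun k _ => h1 k, Finset.sum_sub_distrib, ← Finset.mul_sum]
    simp only [Finset.sum_const, Finset.card_univ, nsmul_eq_mul, mul_one]
    refine Even.sub ?_ ?_
    · exact even_two_mul _
    · exact_mod_cast heven
  choose g0 hg0 using hpar
  let g : (L ≃ₐ[ℚ] L) → ℤ := fun σ => -g0 σ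
  have hgh : ∀ σ, 2 * g σ = -h σ := by
    intro σ
    rw [hg0]
    change 2 * (-g0 σ) = _
    ring
  have hodd : IsOdd (cc L) N (Dec p ν j) g := by
    refine ⟨fun σ n hn => ?_, fun σ => ?_, fun σ => ?_⟩
    · have h1 : h (σ * n) = h σ := by
        rw [hh, hh]
        have h2 : ∀ w, bs w (σ * n) = bs (sw n w) σ := by
          intro w
          rw [hbs, hbs, St_sw]
          rfl
        have h3 := sum_one hs (g := fun w => bs w (σ * n)) (hbsb (σ * n))
        have h4 := sum_one hs (g := fun w => bs w σ) (hbsb σ)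
        rw [← h3, ← h4]
        refine Fintype.sum_equiv ((swE Y.X n).symm.subtypeEquiv fun w => ?_) _ _ fun w => ?_
        · change mm s w = 1 ↔ mm s (sw n w) = 1
          rw [hNm n hn]
        · exact h2 w.1
      have h2 := hgh (σ * n)
      have h3 := hgh σ
      omega
    · have h1 : h (cc L * σ) = -h σ := by
        rw [hh, hh, ← Finset.sum_neg_distrib]
        refine Finset.sum_congr rfl fun k _ => ?_
        rw [hbs, hbs]
        have h1 := isHalf_St j (s k) σ
        by_cases h3 : σ ∈ St j (s k)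
        · rw [if_pos h3, if_neg (h1.1 h3)]
        · rw [if_neg h3, if_pos (by
            by_contra h4
            exact h3 (h1.2 h4)), neg_neg]
      have h2 := hgh (cc L * σ)
      have h3 := hgh σ
      omega
    · have h1 : dsum (Dec p ν j) h σ = 0 := by
        have h2 : h = fun σ => ∑ k, bs (s k) σ := funext hh
        rw [h2, ← hbal σ]
        unfold dsum
        have h3 : ∀ k, tf p ν j (St j (s k)) σ = ∑ d : L ≃ₐ[ℚ] L,
            if d ∈ Dec p ν j then bs (s k) (d * σ) else 0 := fun k => rfl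
        rw [Finset.sum_congr rfl fun k _ => h3 k, Finset.sum_comm]
        refine Finset.sum_congr rfl fun d _ => ?_
        split_ifs
        · rfl
        · simp
      have h2 : dsum (Dec p ν j) g σ + dsum (Dec p ν j) g σ = -dsum (Dec p ν j) h σ := by
        unfold dsum
        rw [← Finset.sum_add_distrib, ← Finset.sum_neg_distrib]
        refine Finset.sum_congr rfl fun d _ => ?_
        split_ifs
        · have := hgh (d * σ)
          omega
        · simp
      omega
  obtain ⟨m, T, hT1, hT2, hT3, hT4⟩ := dec (cc_comm j) (cc_cc) hodd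
  let y : κ0 ⊕ (Fin m × Bool) → Set (L ≃ₐ[ℚ] L) := Sum.elim (fun w => St j w.1) T
  have hy : ∀ k, IsHalf (y k) := by
    rintro (k | k)
    · exact isHalf_St j k.1
    · exact hT1 k
  have hTtr : ∀ τ ∈ N, ∀ k, tr τ (T k) = T k := by
    intro τ hτ k
    ext σ
    rw [mem_tr]
    exact hT2 k σ τ hτ
  obtain ⟨Y', hY', J, hJ, hJy, hJN⟩ := exists_word ν j N y hy (by
    intro τ hτ
    refine ⟨Sum.map (fun w => ⟨sw τ w.1, by rw [hNm τ hτ]; exact w.2⟩) id, ?_, ?_⟩
    · refine Function.Injective.sumMap ?_ Function.injective_id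
      rintro ⟨w, hw⟩ ⟨w', hw'⟩ h
      exact Subtype.ext ((swE Y.X τ).symm.injective (Subtype.mk.inj h))
    · rintro (k | k)
      · exact St_sw τ k.1
      · exact (hTtr τ hτ k).symm)
  refine ⟨κ0 ⊕ (Fin m × Bool), inferInstance, inferInstance, Y', hY', J, hJ, ?_, ?_, ?_⟩
  · intro σ
    have h1 : ∑ k, (if σ ∈ St j (J k) then (1 : ℤ) else -1) =
        ∑ k, if σ ∈ y k then (1 : ℤ) else -1 :=
      Finset.sum_congr rfl fun k _ => by rw [hJy]
    rw [h1, Fintype.sum_sum_type]
    have h2 : ∑ k : κ0, (if σ ∈ y (Sum.inl k) then (1 : ℤ) else -1) = h σ := rfl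
    have h3 : ∑ k : Fin m × Bool, (if σ ∈ y (Sum.inr k) then (1 : ℤ) else -1) = 2 * g σ := hT3 σ
    rw [h2, h3, hgh, add_neg_cancel]
  · intro σ hσ
    exact hJN σ hσ
  · intro σ s' hs' f
    rw [dcnt_sum, dcnt_sum, Fintype.sum_sum_type]
    have hG : ∀ w : Wt Y.X L, gf f (tf p ν j (St j (bar w))) = -gf f (tf p ν j (St j w)) := by
      intro w
      rw [tf_bar, gf_neg]
    have h1 : ∑ k : κ0, gf f (tf p ν j (St j (sw σ (J (Sum.inl k))))) =
        ∑ k, gf f (tf p ν j (St j (s' k))) := by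
      have e1 : ∀ k : κ0, gf f (tf p ν j (St j (sw σ (J (Sum.inl k))))) =
          (fun w : Wt Y.X L => gf f (tf p ν j (St j (sw σ w)))) k.1 := by
        intro k
        dsimp only
        rw [St_sw, hJy, St_sw]
        rfl
      rw [Finset.sum_congr rfl fun k _ => e1 k,
        sum_one hs (g := fun w : Wt Y.X L => gf f (tf p ν j (St j (sw σ w)))) (fun w => by
          rw [sw_bar j]
          exact hG _)]
      have e2 := mm_of_chu j hY (I := s') (K := fun k => sw σ (s k)) (by rw [hs', chu_sw])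
      have e3 := odd_sum s' (g := fun w : Wt Y.X L => gf f (tf p ν j (St j w))) hG
      have e4 := odd_sum (fun k => sw σ (s k)) (g := fun w : Wt Y.X L =>
        gf f (tf p ν j (St j w))) hG
      rw [e2] at e3
      linarith
    have h2 : ∑ k : Fin m × Bool, gf f (tf p ν j (St j (sw σ (J (Sum.inr k))))) = 0 := by
      rw [Fintype.sum_prod_type]
      refine Finset.sum_eq_zero fun i _ => ?_
      rw [Fintype.sum_bool]
      have e1 : ∀ b, tf p ν j (St j (sw σ (J (Sum.inr (i, b))))) = tf p ν j (tr σ (T (i, b))) := by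
        intro b
        rw [St_sw, hJy]
        rfl
      rw [e1, e1]
      have e2 : tf p ν j (tr σ (T (i, true))) = -tf p ν j (tr σ (T (i, false))) := by
        funext τ
        rw [Pi.neg_apply, tf_tr, tf_tr, tf_dsum, tf_dsum]
        have := hT4 i (τ * σ)
        linarith
      rw [e2, gf_neg, neg_add_cancel]
    rw [h1, h2, add_zero]

end

end Pool.Agent.J4H48.M4
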